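import Pool.Agent.Helper56_MG.Base2

/-!
# Base 3: valid conditions and free names, elementary facts
-/

open Set

namespace Pool.Agent.MG

variable {I : Type} [Idx I]

theorem VB.below {ρ : I} {p : Cond I} (h : VB ρ p) : p.Below ρ := ((VB_iff ρ p).1 h).1

/-- Every name is free at the bottom. -/
theorem Fr_bt (A : Pt I → Set R) : Fr (bt : I) A := by
  rw [Fr_iff]
  intro ε hε
  exact absurd hε (not_lt.2 (bt_le ε))

theorem Fr.sub {ρ : I} {A A' : Pt I → Set R} (h : Fr ρ A) (hA : ∀ y, A' y ⊆ A y) : Fr ρ A' := by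
  rw [Fr_iff] at h ⊢
  intro ε hε ht p hp
  obtain ⟨q, h1, h2, ρs, H, h3, h4⟩ := h ε hε ht p hp
  exact ⟨q, h1, h2, ρs, H, h3, fun y hy x hx => h4 y hy x (hA y hx)⟩

theorem LV_univ (i : I) (r : Cond I) : LV i r (fun _ => Set.univ) := by
  intro p0 hp0 _
  exact ⟨p0, le_rfl, hp0, bt, fun _ => Set.univ, bt_le i, measurable_const, fun _ _ _ => rfl,
    Fr_bt _, fun _ _ => rfl⟩

theorem LV.mono {i : I} {r r' : Cond I} {T : Pt I → Set Node} (h : LV i r T) (hr : r' ≤ r) :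
    LV i r' T := fun p0 hp0 hle => h p0 hp0 (hle.trans hr)

/-- Local freeness only depends on the values on the body. -/
theorem LV.congr {i : I} {r : Cond I} {T T' : Pt I → Set Node} (h : LV i r T)
    (hT : ∀ y ∈ r.body, T' y = T y) : LV i r T' := by
  intro p0 hp0 hle
  obtain ⟨p1, h1, h2, ρ', T'', h3, h4, h5, h6, h7⟩ := h p0 hp0 hle
  exact ⟨p1, h1, h2, ρ', T'', h3, h4, h5, h6, fun y hy =>
    (hT y ((h1.trans hle) hy)).trans (h7 y hy)⟩

/-- A free name is locally free. -/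
theorem LV_of_Fr {i ρ : I} (hρ : ρ ≤ i) {r : Cond I} {T T' : Pt I → Set Node}
    (hm : Measurable T') (hd : Dep ρ T') (hF : Fr ρ (fun y => bS (T' y)))
    (hT : ∀ y ∈ r.body, T y = T' y) : LV i r T := by
  intro p0 hp0 hle
  exact ⟨p0, le_rfl, hp0, ρ, T', hρ, hm, hd, hF, fun y hy => hT y (hle hy)⟩

theorem VB.lv {ρ : I} {p : Cond I} (h : VB ρ p) {i : I} (ht : ty i = false) :
    LV i (p.restr i) (p.T i) := by
  rcases lt_or_ge i ρ with hi | hi
  · exact ((VB_iff ρ p).1 h).2 i hi ht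
  · exact (LV_univ i _).congr fun y _ => h.below.T_eq hi y

/-- Criterion for validity, with no restriction to the coordinates below `ρ`. -/
theorem VB_of_lv {ρ : I} {p : Cond I} (hb : p.Below ρ)
    (h : ∀ i ∈ p.S, ty i = false → LV i (p.restr i) (p.T i)) : VB ρ p := by
  rw [VB_iff]
  refine ⟨hb, fun i _ ht => ?_⟩
  by_cases hi : i ∈ p.S
  · exact h i hi ht
  · exact (LV_univ i _).congr fun y _ => p.full' i hi y

theorem VB.mono {ρ ρ' : I} {p : Cond I} (h : VB ρ p) (hρ : ρ ≤ ρ') : VB ρ' p :=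
  VB_of_lv (h.below.mono hρ) fun _ _ ht => h.lv ht

/-- A valid condition which lives below a smaller coordinate. -/
theorem VB.of_below {ρ ρ' : I} {p : Cond I} (h : VB ρ p) (hb : p.Below ρ') : VB ρ' p :=
  VB_of_lv hb fun _ _ ht => h.lv ht

theorem VB_one (ρ : I) : VB ρ (Cond.one I) :=
  VB_of_lv (fun _ hi => hi.elim) fun _ hi => hi.elim

theorem VB.restr {ρ : I} {p : Cond I} (h : VB ρ p) (ρ' : I) : VB ρ' (p.restr ρ') := by
  refine VB_of_lv (Cond.restr_below p ρ') fun i hi ht => ?_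
  have hlt : i < ρ' := hi.2
  rw [Cond.restr_restr p hlt.le]
  refine (h.lv ht).congr fun y _ => ?_
  simp [Cond.restr, hlt]

theorem VB.glue {α β γ : I} {r p : Cond I} (hr : VB γ r) (hp : VB β p) (hαβ : α ≤ β)
    (h : r.restr α ≤ p.restr α) : VB β (Cond.glue r p α) := by
  refine VB_of_lv (Cond.glue_below hαβ hp.below) fun i _ ht => ?_
  rcases lt_or_ge i α with hi | hi
  · rw [Cond.glue_restr r p hi.le, Cond.glue_T_lt r p hi]
    exact hr.lv ht
  · rw [Cond.glue_T_ge r p hi]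
    exact (hp.lv ht).mono (Cond.restr_mono (Cond.glue_le_right h) i)

/-- Changing the tree of one coordinate. -/
theorem VB.setT {β : I} {p : Cond I} (hp : VB β p) {i : I} (hi : i < β) (T' : Pt I → Set Node)
    (h1 : Measurable T') (h2 : Dep i T')
    (h3 : ∀ y ∈ (p.restr i).body, Good (ty i) (T' y) ∧ T' y ⊆ p.T i y)
    (h4 : ty i = false → LV i (p.restr i) T') : VB β (p.setT i T' h1 h2) := by
  refine VB_of_lv ?_ fun j _ ht => ?_
  · intro j hj
    rcases hj with rfl | hj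
    · exact hi
    · exact hp.below j hj
  · rcases lt_trichotomy j i with hj | hj | hj
    · rw [Cond.setT_restr p T' h1 h2 hj.le, Cond.setT_T_ne p T' h1 h2 hj.ne]
      exact hp.lv ht
    · subst hj
      rw [Cond.setT_restr p T' h1 h2 le_rfl]
      exact (h4 ht).congr fun y hy => Cond.setT_T_self p T' h1 h2 (h3 y hy).1
    · rw [Cond.setT_T_ne p T' h1 h2 hj.ne']
      exact (hp.lv ht).mono (Cond.restr_mono (Cond.setT_le p T' h1 h2 h3) j)

/-- Restriction of the tree at `i` to a node. -/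
noncomputable def Cond.node (p : Cond I) (i : I) (t : Node) : Cond I :=
  p.setT i (fun y => subT (p.T i y) t) ((measurable_subT t).comp (p.meas i))
    (fun y y' h => by show subT _ _ = subT _ _; rw [p.dep i y y' h])

theorem Cond.node_aux {p : Cond I} {i : I} {t : Node}
    (ht : ∀ y ∈ (p.restr i).body, t ∈ p.T i y) :
    ∀ y ∈ (p.restr i).body, Good (ty i) (subT (p.T i y) t) ∧ subT (p.T i y) t ⊆ p.T i y :=
  fun y hy => ⟨(p.good i y).subT (ht y hy), fun _ h => h.1⟩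

theorem VB.node {β : I} {p : Cond I} (hp : VB β p) {i : I} (hi : i < β) {t : Node}
    (ht : ∀ y ∈ (p.restr i).body, t ∈ p.T i y) : VB β (p.node i t) := by
  refine hp.setT hi _ _ _ (Cond.node_aux ht) fun hty => ?_
  intro p0 hp0 hle
  obtain ⟨p1, h1, h2, ρ', T'', h3, h4, h5, h6, h7⟩ := hp.lv hty p0 hp0 hle
  refine ⟨p1, h1, h2, ρ', fun y => subT (T'' y) t, h3, (measurable_subT t).comp h4, ?_, ?_, ?_⟩
  · intro y y' h
    show subT _ _ = subT _ _
    rw [h5 y y' h]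
  · exact h6.sub fun y => bS_mono fun _ h => h.1
  · intro y hy
    show subT _ _ = subT _ _
    rw [h7 y hy]

theorem Cond.node_le {p : Cond I} {i : I} {t : Node}
    (ht : ∀ y ∈ (p.restr i).body, t ∈ p.T i y) : p.node i t ≤ p :=
  Cond.setT_le p _ _ _ (Cond.node_aux ht)

theorem Cond.node_T {p : Cond I} {i : I} {t : Node} {y : Pt I}
    (hy : y ∈ (p.restr i).body) (ht : t ∈ p.T i y) : (p.node i t).T i y = subT (p.T i y) t :=
  Cond.setT_T_self p _ _ _ ((p.good i y).subT ht)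

theorem Cond.node_restr (p : Cond I) {i ρ : I} (t : Node) (hρ : ρ ≤ i) :
    (p.node i t).restr ρ = p.restr ρ := Cond.setT_restr p _ _ _ hρ

/-- The union of a coherent sequence of valid conditions is valid. -/
theorem VB_union {β : I} {α : ℕ → I} (hα : ∀ n, α n ≤ α (n + 1)) (hβ : ∀ n, α n ≤ β)
    {q : ℕ → Cond I} (hq : ∀ n, VB (α n) (q n)) {p : Cond I} (hp : p.Below β)
    (hE : ∀ n, Cond.Ext (α n) (q n) p) (hS : ∀ i, (∀ n, α n ≤ i) → i ∉ p.S) : VB β p := by
  refine VB_of_lv hp fun i hi ht => ?_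
  by_cases h : ∀ n, α n ≤ i
  · exact absurd hi (hS i h)
  · push Not at h
    obtain ⟨n, hn⟩ := h
    rw [((hE n).mono hn.le).restr_eq, (hE n).1 i hn]
    exact (hq n).lv ht

/-- A valid condition extended by one coordinate. -/
theorem VB_of_ext {α β : I} (hαβ : nx α = β) {r q : Cond I} (hr : VB α r) (hE : Cond.Ext α r q)
    (hq : q.Below β) (hL : ty α = false → LV α r (q.T α)) : VB β q := by
  refine VB_of_lv hq fun i hi ht => ?_
  have hle : i ≤ α := by
    by_contra h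
    have h1 := nx_le α i (not_le.1 h)
    rw [hαβ] at h1
    exact absurd (hq i hi) (not_lt.2 h1)
  rcases lt_or_eq_of_le hle with h | h
  · rw [(hE.mono h.le).restr_eq, hE.1 i h]
    exact hr.lv ht
  · subst h
    rw [hE.restr_eq, hr.below.restr_eq]
    exact hL ht

/-! ### Free names -/

/-- If `A` is free at `ρ` and depends only on the coordinates below `ρ'` then it is free
at `ρ'`. -/
theorem Fr.lower {ρ ρ' : I} (hρ : ρ' ≤ ρ) {A : Pt I → Set R} (h : Fr ρ A) (hA : Dep ρ' A) :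
    Fr ρ' A := by
  rw [Fr_iff] at h ⊢
  intro ε hε ht p hp
  obtain ⟨q, h1, h2, ρs, H, h3, h4⟩ := h ε (lt_of_lt_of_le hε hρ) ht p (hp.mono hρ)
  refine ⟨q.restr ρ', ?_, h2.restr ρ', ρs, H, h3, ?_⟩
  · have h5 := Cond.restr_mono h1 ρ'
    rwa [hp.below.restr_eq] at h5
  · intro y hy x hx
    rw [Cond.mem_restr] at hy
    obtain ⟨y', hy', h5⟩ := q.exists_ext ρ' y hy
    have h6 : A y' = A y := hA y' y h5
    obtain ⟨k, hk⟩ := h4 y' hy' x (by rw [h6]; exact hx)
    refine ⟨k, ?_⟩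
    rw [h5 ε hε] at hk
    rwa [(h3 k).2.2.1 y' y fun i hi => h5 i (lt_of_lt_of_le hi ((h3 k).1.trans hε.le))] at hk

/-- Use of freeness inside a bigger forcing, with a coordinate as name of the branch. -/
theorem Fr.use {ρ β : I} (hρ : ρ ≤ β) {A : Pt I → Set R} (h : Fr ρ A) {ε : I} (hε : ε < ρ)
    (ht : ty ε = false) {p : Cond I} (hp : VB β p) :
    ∃ q, q ≤ p ∧ VB β q ∧ (∀ i, ρ ≤ i → q.T i = p.T i) ∧
      ∃ (ρs : ℕ → I) (H : ℕ → Pt I → Set (Node × Node)),
        (∀ k, ρs k ≤ ε ∧ Measurable (H k) ∧ Dep (ρs k) (H k) ∧ (∀ y, Fnl (H k y)) ∧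
          Fr (ρs k) (fun y => pr2 (H k y))) ∧
        ∀ y ∈ q.body, ∀ x ∈ A y, ∃ k, (y ε, x) ∈ rb (H k y) := by
  rw [Fr_iff] at h
  obtain ⟨q, h1, h2, ρs, H, h3, h4⟩ := h ε hε ht (p.restr ρ) (hp.restr ρ)
  have h5 : q.restr ρ ≤ p.restr ρ := by
    rwa [h2.below.restr_eq]
  exact ⟨Cond.glue q p ρ, Cond.glue_le_right h5, h2.glue hp hρ h5,
    fun i hi => Cond.glue_T_ge q p hi, ρs, H, h3,
    fun y hy x hx => h4 y (Cond.glue_le_left h2.below hy) x hx⟩

/-- No Sacks coordinates between `ρ` and `ρ'`. -/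
theorem Fr.raise {ρ ρ' : I} (hρ : ρ ≤ ρ') {A : Pt I → Set R} (h : Fr ρ A)
    (hty : ∀ ε, ρ ≤ ε → ε < ρ' → ty ε = true) : Fr ρ' A := by
  rw [Fr_iff]
  intro ε hε ht p hp
  have hlt : ε < ρ := by
    by_contra hcon
    rw [hty ε (not_lt.1 hcon) hε] at ht
    exact Bool.noConfusion ht
  obtain ⟨q, h1, h2, _, ρs, H, h3, h4⟩ := h.use hρ hlt ht hp
  exact ⟨q, h1, h2, ρs, H, h3, h4⟩

end Pool.Agent.MG
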