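import Pool.Agent.Helper56_MG.Defs

/-!
# Statements of the combinatorial part
-/

open Set

namespace Pool.Agent.MG

universe u

/-! ## Closed relations and trees (pure) -/

/-- All the initial segments of the pair `(a, c)` are in `H`. -/
def okp (H : Set (Node × Node)) (a c : Node) : Prop :=
  a.length = c.length ∧ ∀ n, n ≤ a.length → (a.take n, c.take n) ∈ H

/-- Composition of closed relations. -/
def rcomp (H G : Set (Node × Node)) : Set (Node × Node) := {z | ∃ b, okp H z.1 b ∧ okp G b z.2}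

/-- Projections of closed relations, as sets of nodes. -/
def prT1 (H : Set (Node × Node)) : Set Node := {a | ∃ c, okp H a c}

def prT2 (H : Set (Node × Node)) : Set Node := {c | ∃ a, okp H a c}

/-- Restriction of the first (second) variable to a closed set. -/
def on1 (H : Set (Node × Node)) (T : Set Node) : Set (Node × Node) := {z | z ∈ H ∧ z.1 ∈ T}

def on2 (H : Set (Node × Node)) (T : Set Node) : Set (Node × Node) := {z | z ∈ H ∧ z.2 ∈ T}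

/-- Identity relation on a closed set. -/
def diag (T : Set Node) : Set (Node × Node) := {z | z.1 = z.2 ∧ z.1 ∈ T}

/-- REL: closed relations. -/
def RelStmt : Prop :=
  (∀ H G s x, (s, x) ∈ rb (rcomp H G) ↔ ∃ t, (s, t) ∈ rb H ∧ (t, x) ∈ rb G) ∧
  (∀ H G, Fnl H → Fnl G → Fnl (rcomp H G)) ∧
  (∀ H, bS (prT1 H) = {s | ∃ x, (s, x) ∈ rb H}) ∧
  (∀ H, bS (prT2 H) = {x | ∃ s, (s, x) ∈ rb H}) ∧
  (∀ H T s x, (s, x) ∈ rb (on1 H T) ↔ (s, x) ∈ rb H ∧ s ∈ bS T) ∧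
  (∀ H T s x, (s, x) ∈ rb (on2 H T) ↔ (s, x) ∈ rb H ∧ x ∈ bS T) ∧
  (∀ T s x, (s, x) ∈ rb (diag T) ↔ s = x ∧ x ∈ bS T) ∧
  (∀ T, Fnl (diag T)) ∧
  Measurable (fun z : Set (Node × Node) × Set (Node × Node) => rcomp z.1 z.2) ∧
  Measurable prT1 ∧ Measurable prT2 ∧
  Measurable (fun z : Set (Node × Node) × Set Node => on1 z.1 z.2) ∧
  Measurable (fun z : Set (Node × Node) × Set Node => on2 z.1 z.2) ∧
  Measurable diag

/-- EV: the even splitting choices of a branch of a perfect tree, as a closed relation, and the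
perfect subtrees where they are prescribed. -/
def EvStmt : Prop :=
  ∃ (ec : Set Node → Set (Node × Node)) (ev : Set Node → R → Set Node),
    Measurable ec ∧ Measurable (fun z : Set Node × R => ev z.1 z.2) ∧
    (∀ T, Fnl (ec T) ∧ pr2 (ec T) ⊆ bS T) ∧
    ∀ T, Good false T → ∀ z, Good false (ev T z) ∧ ev T z ⊆ T ∧
      bS (ev T z) = {x | (z, x) ∈ rb (ec T)}

/-- PFS: perfect subsets. -/
def PfsStmt : Prop :=
  ∃ PS : Set Node → Set (Node × Node) → Set Node → Set Node,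
    Measurable (fun z : (Set Node × Set (Node × Node)) × Set Node => PS z.1.1 z.1.2 z.2) ∧
    ∀ T H E, Good false T → Fnl H → (∀ s ∈ bS T, ∃ x ∈ bS E, (s, x) ∈ rb H) →
      Good false (PS T H E) ∧ ∀ x ∈ bS (PS T H E), x ∈ bS E ∧ ∃ s ∈ bS T, (s, x) ∈ rb H

/-- AVD: a perfect subtree avoiding countably many closed sets without interior. -/
def AvdStmt : Prop :=
  ∃ AV : Set Node → (ℕ → Set Node) → Set Node,
    Measurable (fun z : Set Node × (ℕ → Set Node) => AV z.1 z.2) ∧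
    ∀ T Q, Good false T → (∀ n, ∀ u ∈ T, ¬ bS (subT T u) ⊆ bS (Q n)) →
      Good false (AV T Q) ∧ AV T Q ⊆ T ∧ ∀ n, Disjoint (bS (AV T Q)) (bS (Q n))

/-- Initial segments of a sequence of natural numbers. -/
def ini (g : ℕ → ℕ) (n : ℕ) : List ℕ := (List.range n).map g

/-- Subsystems: closed under initial segments, every element has infinitely many successors. -/
structure Big (D : Set (List ℕ)) : Prop where
  nil : [] ∈ D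
  down : ∀ σ k, σ ++ [k] ∈ D → σ ∈ D
  inf : ∀ σ ∈ D, ∀ n, ∃ k, n ≤ k ∧ σ ++ [k] ∈ D

/-- The tree of a Miller system of nodes. -/
def ftM (s : List ℕ → Node) (D : Set (List ℕ)) : Set Node := {t | ∃ σ ∈ D, t <+: s σ}

/-- The node `s 0 ... 0 1`. -/
def z1 (s : Node) (k : ℕ) : Node := s ++ List.replicate k false ++ [true]

/-- FTM: trees of Miller systems. -/
def FtMStmt : Prop :=
  (∀ (s : List ℕ → Node) (m : List ℕ → ℕ → ℕ) (D : Set (List ℕ)), Big D →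
    (∀ σ, StrictMono (m σ)) → (∀ σ k, z1 (s σ) (m σ k) <+: s (σ ++ [k])) →
    Good true (ftM s D) ∧ ∀ x ∈ bd true (ftM s D), ∃ g : ℕ → ℕ, ∀ n,
      ini g n ∈ D ∧ On (s (ini g n)) x) ∧
  (∀ (Ω : Type) [MeasurableSpace Ω] (s : List ℕ → Ω → Node) (D : Ω → Set (List ℕ)),
    (∀ σ, MeasC (s σ)) → (∀ σ, MeasurableSet {w | σ ∈ D w}) →
    Measurable (fun w => ftM (fun σ => s σ w) (D w)))

/-- The binary sequence coding a sequence of natural numbers. -/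
def cd (σ : List ℕ) : List Bool := σ.flatMap fun k => List.replicate k false ++ [true]

/-- The tree of a binary system of nodes. -/
def ftS (s : List Bool → Node) : Set Node := {t | ∃ σ, t <+: s σ}

/-- The tree of the part of a binary system of nodes described by `D`. -/
def ftSD (s : List Bool → Node) (D : Set (List ℕ)) : Set Node :=
  {t | ∃ σ ∈ D, ∃ n, t <+: s (cd σ ++ List.replicate n false)}

/-- FTS: trees of binary systems. -/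
def FtSStmt : Prop :=
  (∀ (s : List Bool → Node), (∀ σ b, s σ ++ [b] <+: s (σ ++ [b])) →
    Good false (ftS s) ∧ (∀ x ∈ bS (ftS s), ∃ g : ℕ → Bool, ∀ n, On (s (pre g n)) x) ∧
    ∀ D, Big D → Good false (ftSD s D) ∧ ftSD s D ⊆ ftS s ∧ ∀ x ∈ bS (ftSD s D),
      (∃ σ ∈ D, ∀ n, On (s (cd σ ++ List.replicate n false)) x) ∨
      (∃ g : ℕ → ℕ, ∀ n, ini g n ∈ D ∧ On (s (cd (ini g n))) x)) ∧
  (∀ (Ω : Type) [MeasurableSpace Ω] (s : List Bool → Ω → Node) (D : Ω → Set (List ℕ)),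
    (∀ σ, MeasC (s σ)) → (∀ σ, MeasurableSet {w | σ ∈ D w}) →
    Measurable (fun w => ftS (fun σ => s σ w)) ∧ Measurable (fun w => ftSD (fun σ => s σ w) (D w)))

/-- TSY: canonical systems of splitting nodes of Miller trees. -/
def TsyStmt : Prop :=
  ∃ (s : List ℕ → Set Node → Node) (m : List ℕ → ℕ → Set Node → ℕ),
    (∀ σ, MeasC (s σ)) ∧ (∀ σ k, MeasC (m σ k)) ∧
    ∀ T, Good true T → (∀ σ, StrictMono (fun k => m σ k T)) ∧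
      (∀ σ k, z1 (s σ T) (m σ k T) <+: s (σ ++ [k]) T) ∧ ∀ σ, s σ T ∈ T

/-- CLP: cluster points. -/
def ClpStmt : Prop :=
  ∃ (X : (ℕ → Set ℕ) → Set ℕ) (κ : (ℕ → Set ℕ) → ℕ → ℕ), Measurable X ∧
    (∀ k, MeasC (fun F => κ F k)) ∧
    ∀ F, StrictMono (κ F) ∧ ∀ k, ∀ n, n < k → (n ∈ F (κ F k) ↔ n ∈ X F)

/-- TYP: subsystems of constant type. -/
def TypStmt : Prop :=
  ∃ (v : (List ℕ → Bool) → Bool) (h : List ℕ → (List ℕ → Bool) → List ℕ),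
    MeasC v ∧ (∀ σ, MeasC (h σ)) ∧
    ∀ i, (∀ σ, i (h σ i) = v i) ∧ ∀ σ k, h σ i ++ [k] <+: h (σ ++ [k]) i

/-- GAP: the interval lemma.  `L σ` is the number from which on the node `σ` has control, and it
loses the control at `K σ k` when one passes to the successor number `k`.  There are a sequence
of intervals and two big subsystems such that the intervals of the given parity are controlled. -/
def GapStmt : Prop :=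
  ∃ (nn : (List ℕ → ℕ) × (List ℕ → ℕ → ℕ) → ℕ → ℕ)
    (D : Bool → (List ℕ → ℕ) × (List ℕ → ℕ → ℕ) → Set (List ℕ)),
    (∀ k, MeasC (fun z => nn z k)) ∧ (∀ v σ, MeasurableSet {z | σ ∈ D v z}) ∧
    ∀ z, (∀ σ n, ∃ k, n ≤ k ∧ n ≤ z.2 σ k) → StrictMono (nn z) ∧ ∀ v, Big (D v z) ∧
      ∀ m, m % 2 = (if v then 1 else 0) → ∀ b, nn z m ≤ b → b < nn z (m + 1) →
        (∀ σ ∈ D v z, (∃ j, ∃ hj : j < σ.length, z.1 (σ.take j) ≤ b ∧ b < z.2 (σ.take j) σ[j]) ∨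
          z.1 σ ≤ b) ∧
        (∀ g : ℕ → ℕ, (∀ n, ini g n ∈ D v z) → ∃ j, z.1 (ini g j) ≤ b ∧ b < z.2 (ini g j) (g j))

/-- RH: the reservoir hull.  Closure under countably many rules, each rule adds countably many
objects and shrinks the reservoir. -/
def RhStmt : Prop :=
  ∀ (W : Type u) (W0 : Set W), W0.Countable → ∀ (C : Set ℕ), C.Infinite →
    ∀ (Ok : W → Prop) (Ru : ℕ → List W → Set W → Set ℕ → Prop), (∀ w ∈ W0, Ok w) →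
    (∀ n l, (∀ w ∈ l, Ok w) → ∀ C' ⊆ C, C'.Infinite → ∃ O : Set W, O.Countable ∧
      (∀ w ∈ O, Ok w) ∧ ∃ C'' ⊆ C', C''.Infinite ∧ Ru n l O C'') →
    ∃ (H : Set W) (B : Set ℕ), H.Countable ∧ W0 ⊆ H ∧ (∀ w ∈ H, Ok w) ∧ B ⊆ C ∧ B.Infinite ∧
      ∀ n l, (∀ w ∈ l, w ∈ H) → ∃ O ⊆ H, ∃ C' ⊆ C, C'.Infinite ∧ (B \ C').Finite ∧ Ru n l O C'

section
variable (I : Type) [Idx I]

/-! ## Free names -/

/-- PULL. -/
def PullStmt : Prop :=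
  ∀ (ρ1 ρ2 : I), ρ1 ≤ ρ2 → ∀ H0 : Pt I → Set (Node × Node), Measurable H0 → Dep ρ1 H0 →
    (∀ y, Fnl (H0 y)) → Fr ρ1 (fun y => pr2 (H0 y)) → ∀ G : Pt I → Set R, Fr ρ2 G →
    Fr ρ2 (fun y => {x | ∃ s ∈ G y, (s, x) ∈ rb (H0 y)})

/-- SGL and RAISE. -/
def RaiseStmt : Prop :=
  (∀ j : I, ty j = false → Fr (nx j) (fun y => {x | x = y j})) ∧
  (∀ i : I, ty i = false → ∀ j, ty j = false → j < i → ∀ β, i < β → ∀ p, VB β p →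
    ∃ q, q ≤ p ∧ VB β q ∧ Rk q i j)

/-! ## Decision -/

/-- Countably many dense sets can be met by countable subsets. -/
def BRw (ρ : I) : Prop :=
  ∀ p : Cond I, VB ρ p → ∀ D : ℕ → Set (Cond I),
    (∀ n q, VB ρ q → q ≤ p → ∃ d ∈ D n, VB ρ d ∧ d ≤ q) →
    ∃ q, q ≤ p ∧ VB ρ q ∧ ∀ n, ∃ E : Set (Cond I), E.Countable ∧
      (∀ d ∈ E, d ∈ D n ∧ VB ρ d ∧ d ≤ p) ∧ q.body ⊆ ⋃ d ∈ E, d.body

/-- Decision of measurable sets. -/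
def Cst (ρ : I) : Prop :=
  ∀ p : Cond I, VB ρ p → ∀ A : Set (Pt I), MeasurableSet A → Dep ρ (fun y => y ∈ A) →
    ∃ q, q ≤ p ∧ VB ρ q ∧ (q.body ⊆ A ∨ Disjoint q.body A)

/-- The reservoir version. -/
def Sequ (ρ : I) : Prop :=
  ∀ p : Cond I, VB ρ p → ∀ C : Set ℕ, C.Infinite → ∀ Ru : ℕ → Cond I → Set ℕ → Prop,
    (∀ n d, VB ρ d → d ≤ p → ∀ C' ⊆ C, C'.Infinite → ∃ d', d' ≤ d ∧ VB ρ d' ∧
      ∃ C'' ⊆ C', C''.Infinite ∧ Ru n d' C'') →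
    ∃ q, q ≤ p ∧ VB ρ q ∧ ∃ B ⊆ C, B.Infinite ∧ ∀ n, ∃ E : Set (Cond I), E.Countable ∧
      q.body ⊆ (⋃ d ∈ E, d.body) ∧ ∀ d ∈ E, VB ρ d ∧ d ≤ p ∧
        ∃ C' ⊆ C, C'.Infinite ∧ (B \ C').Finite ∧ Ru n d C'

/-- Consequences of decision (elementary). -/
def Cst2Stmt : Prop :=
  ∀ ρ : I, BRw I ρ → Cst I ρ →
    -- a function with countably many values can be made constant
    (∀ p : Cond I, VB ρ p → ∀ (X : Type) (f : Pt I → X), MeasC f → Dep ρ f →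
      ∃ q, q ≤ p ∧ VB ρ q ∧ ∃ x, ∀ y ∈ q.body, f y = x) ∧
    -- one of countably many sets covering the body
    (∀ p : Cond I, VB ρ p → ∀ A : ℕ → Set (Pt I), (∀ n, MeasurableSet (A n)) →
      (∀ n, Dep ρ (fun y => y ∈ A n)) → p.body ⊆ ⋃ n, A n →
      ∃ q, q ≤ p ∧ VB ρ q ∧ ∃ n, q.body ⊆ A n) ∧
    -- if no stronger condition is inside `A n` one can avoid all the `A n`
    (∀ p : Cond I, VB ρ p → ∀ A : ℕ → Set (Pt I), (∀ n, MeasurableSet (A n)) →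
      (∀ n, Dep ρ (fun y => y ∈ A n)) → (∀ n q, q ≤ p → VB ρ q → ¬ q.body ⊆ A n) →
      ∃ q, q ≤ p ∧ VB ρ q ∧ ∀ n, Disjoint q.body (A n)) ∧
    -- decision of the body of a condition
    (∀ p e : Cond I, VB ρ p → VB ρ e → ∃ q, q ≤ p ∧ VB ρ q ∧ (q ≤ e ∨ Disjoint q.body e.body))

/-! ## Countable hulls -/

/-- Good countable sets of valid conditions below `β`; `Z` contains all the coordinates which are
used. -/
structure GoodN (β : I) (N : Set (Cond I)) (Z : Set I) : Prop where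
  cN : N.Countable
  cZ : Z.Countable
  vb : ∀ e ∈ N, VB β e
  zlt : ∀ i ∈ Z, i < β
  supp : ∀ e ∈ N, e.S ⊆ Z
  dep : ∀ e ∈ N, ∀ i, DepOn (Z ∩ Set.Iio i) (e.T i)
  blk : ∀ i ∈ Z, ty i = true → ∃ j ∈ Z, ty j = false ∧ nx j = i
  glue : ∀ α, α < β → ∀ r ∈ N, ∀ p ∈ N, r.restr α ≤ p.restr α → Cond.glue r p α ∈ N
  node : ∀ α ∈ Z, ∀ e ∈ N, ∀ t, (∀ y ∈ (e.restr α).body, t ∈ e.T α y) →
    ∃ e' ∈ N, e' ≤ e ∧ e'.restr α = e.restr α ∧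
      ∀ y ∈ (e.restr α).body, e'.T α y = subT (e.T α y) t
  decB : ∀ α, α < β → ∀ e ∈ N, ∀ d ∈ N, ∃ d' ∈ N, d' ≤ d ∧
    (d'.restr α ≤ e.restr α ∨ Disjoint (d'.restr α).body (e.restr α).body)
  decT : ∀ α ∈ Z, ∀ e ∈ N, ∀ t, ∀ d ∈ N, ∃ d' ∈ N, d' ≤ d ∧
    ((∀ y ∈ (d'.restr α).body, t ∈ e.T α y) ∨ (∀ y ∈ (d'.restr α).body, t ∉ e.T α y))
  mem : ∀ α ∈ Z, ∀ d ∈ N, ∃ d' ∈ N, d' ≤ d ∧ α ∈ d'.S
  rk : ∀ α ∈ Z, ty α = false → ∀ j ∈ Z, ty j = false → j < α → ∀ d ∈ N, ∃ d' ∈ N,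
    d' ≤ d ∧ Rk d' α j

/-- The operation on families of dense sets. -/
def Phi (N : Set (Cond I)) (e : Cond I) (D : Set (Cond I)) (α : I) : Set (Cond I) :=
  {d | d ∈ N ∧ (Disjoint (d.restr α).body (e.restr α).body ∨
    ∃ d' ∈ N, d' ≤ e ∧ d' ∈ D ∧ d.restr α ≤ d'.restr α)}

/-- Good countable families of dense subsets of `N`. -/
structure GoodD (β : I) (N : Set (Cond I)) (Z : Set I) (𝒟 : Set (Set (Cond I))) : Prop where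
  cnt : 𝒟.Countable
  dense : ∀ D ∈ 𝒟, ∀ e ∈ N, ∃ d ∈ N, d ≤ e ∧ d ∈ D
  phi : ∀ D ∈ 𝒟, ∀ e ∈ N, ∀ α, α < β → Phi I N e D α ∈ 𝒟
  dt : ∀ e ∈ N, ∀ α ∈ Z, ∀ t : Node, {d : Cond I | (∀ y ∈ (d.restr α).body, t ∈ e.T α y) ∨
    (∀ y ∈ (d.restr α).body, t ∉ e.T α y)} ∈ 𝒟
  dr : ∀ α ∈ Z, ty α = false → ∀ j ∈ Z, ty j = false → j < α → {d : Cond I | Rk d α j} ∈ 𝒟
  ds : ∀ α ∈ Z, {d : Cond I | α ∈ d.S} ∈ 𝒟

/-- Genericity of the point `y` below `α`. -/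
def Gen (N : Set (Cond I)) (𝒟 : Set (Set (Cond I))) (α : I) (y : Pt I) : Prop :=
  ∀ e ∈ N, y ∈ (e.restr α).body → ∀ D ∈ 𝒟, ∃ d ∈ N, d ≤ e ∧ d ∈ D ∧ y ∈ (d.restr α).body

/-- The point `y` meets all the dense sets below the condition `c`. -/
def Hit (N : Set (Cond I)) (𝒟 : Set (Set (Cond I))) (α : I) (c : Cond I) (y : Pt I) : Prop :=
  ∀ D ∈ 𝒟, ∃ d ∈ N, d ≤ c ∧ d ∈ D ∧ y ∈ (d.restr α).body

/-- GD: every countable family of dense sets is contained in a good one. -/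
def GdStmt : Prop :=
  ∀ (β : I) N Z, GoodN I β N Z → ∀ 𝒟0 : Set (Set (Cond I)), 𝒟0.Countable →
    (∀ D ∈ 𝒟0, ∀ e ∈ N, ∃ d ∈ N, d ≤ e ∧ d ∈ D) → ∃ 𝒟, 𝒟0 ⊆ 𝒟 ∧ GoodD I β N Z 𝒟

/-- HG: facts on genericity. -/
def HgStmt : Prop :=
  ∀ (β : I) N Z 𝒟, GoodN I β N Z → GoodD I β N Z 𝒟 →
    (∀ α, α < β → ∀ c ∈ N, ∀ y, y ∈ (c.restr α).body → Hit I N 𝒟 α c y → Gen I N 𝒟 α y) ∧
    (∀ α, α < β → MeasurableSet {y | Gen I N 𝒟 α y} ∧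
      DepOn (Z ∩ Set.Iio α) (fun y => Gen I N 𝒟 α y)) ∧
    (∀ y, Gen I N 𝒟 bt y) ∧
    -- decreasing sequences of conditions meeting given dense sets
    (∀ α, α < β → ∀ D : ℕ → Set (Cond I), (∀ j, D j ∈ 𝒟) → ∀ (C : Set I) (c0 : Pt I → Cond I),
      MeasC c0 → DepOn C c0 → Z ∩ Set.Iio α ⊆ C →
      ∃ c : ℕ → Pt I → Cond I, (∀ j, MeasC (c j) ∧ DepOn C (c j)) ∧
        ∀ y, Gen I N 𝒟 α y → c0 y ∈ N → y ∈ ((c0 y).restr α).body →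
          ∀ j, c j y ∈ N ∧ c j y ∈ D j ∧ y ∈ ((c j y).restr α).body ∧ c j y ≤ c0 y ∧
            c (j + 1) y ≤ c j y)

/-- HULL: existence of good hulls with rules. -/
def HullStmt : Prop :=
  ∀ β : I, (∀ ρ, ρ < β → BRw I ρ ∧ Cst I ρ) →
    ∀ (X : Type u) (W0 : Set (Cond I ⊕ X)), W0.Countable → (∀ e, Sum.inl e ∈ W0 → VB β e) →
    ∀ (C : Set ℕ), C.Infinite →
    ∀ Ru : ℕ → List (Cond I ⊕ X) → Set (Cond I ⊕ X) → Set ℕ → Prop,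
    (∀ n l, (∀ e, Sum.inl e ∈ l → VB β e) → ∀ C' ⊆ C, C'.Infinite →
      ∃ O : Set (Cond I ⊕ X), O.Countable ∧ (∀ e, Sum.inl e ∈ O → VB β e) ∧
        ∃ C'' ⊆ C', C''.Infinite ∧ Ru n l O C'') →
    ∃ (N : Set (Cond I)) (Z : Set I) (Y : Set X) (B : Set ℕ), GoodN I β N Z ∧ Y.Countable ∧
      (∀ e, Sum.inl e ∈ W0 → e ∈ N) ∧ (∀ x, Sum.inr x ∈ W0 → x ∈ Y) ∧
      B ⊆ C ∧ B.Infinite ∧
      ∀ n l, (∀ e, Sum.inl e ∈ l → e ∈ N) → (∀ x, Sum.inr x ∈ l → x ∈ Y) →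
        ∃ O : Set (Cond I ⊕ X), (∀ e, Sum.inl e ∈ O → e ∈ N) ∧ (∀ x, Sum.inr x ∈ O → x ∈ Y) ∧
          ∃ C' ⊆ C, C'.Infinite ∧ (B \ C').Finite ∧ Ru n l O C'

/-! ## Fusion at one coordinate -/

/-- Miller systems of conditions over the point `y`. -/
structure MSys (N : Set (Cond I)) (Dq : ℕ → Set (Cond I)) (α : I) (e0 : Cond I) (y : Pt I)
    (e : List ℕ → Cond I) (s : List ℕ → Node) (m : List ℕ → ℕ → ℕ) : Prop where
  mem : ∀ σ, e σ ∈ N ∧ y ∈ ((e σ).restr α).body ∧ α ∈ (e σ).S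
  root : e [] ≤ e0
  step : ∀ σ k, e (σ ++ [k]) ≤ e σ
  hit : ∀ σ k n, n ≤ σ.length + k → ∃ d ∈ N, d ∈ Dq n ∧ e (σ ++ [k]) ≤ d ∧ d ≤ e σ
  mono : ∀ σ, StrictMono (m σ)
  node : ∀ σ k, z1 (s σ) (m σ k) <+: s (σ ++ [k])
  inT : ∀ σ, s σ ∈ (e σ).T α y

/-- Binary systems of conditions over the point `y`. -/
structure SSys (N : Set (Cond I)) (Dq : ℕ → Set (Cond I)) (α : I) (e0 : Cond I) (y : Pt I)
    (e : List Bool → Cond I) (s : List Bool → Node) : Prop where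
  mem : ∀ σ, e σ ∈ N ∧ y ∈ ((e σ).restr α).body ∧ α ∈ (e σ).S
  root : e [] ≤ e0
  step : ∀ σ b, e (σ ++ [b]) ≤ e σ
  hit : ∀ σ b n, n ≤ σ.length → ∃ d ∈ N, d ∈ Dq n ∧ e (σ ++ [b]) ≤ d ∧ d ≤ e σ
  node : ∀ σ b, s σ ++ [b] <+: s (σ ++ [b])
  inT : ∀ σ, s σ ∈ (e σ).T α y

/-- MFUS. -/
def MfusStmt : Prop :=
  ∀ (β : I) N Z 𝒟, GoodN I β N Z → GoodD I β N Z 𝒟 → ∀ α ∈ Z, ty α = true → ∀ e0 ∈ N,
    ∀ Dq : ℕ → Set (Cond I), (∀ n, Dq n ∈ 𝒟) →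
    ∃ (e : List ℕ → Pt I → Cond I) (s : List ℕ → Pt I → Node) (m : List ℕ → ℕ → Pt I → ℕ),
      (∀ σ, MeasC (e σ) ∧ DepOn (Z ∩ Set.Iio α) (e σ)) ∧
      (∀ σ, MeasC (s σ) ∧ DepOn (Z ∩ Set.Iio α) (s σ)) ∧
      (∀ σ k, MeasC (m σ k) ∧ DepOn (Z ∩ Set.Iio α) (m σ k)) ∧
      ∀ y ∈ (e0.restr α).body, Gen I N 𝒟 α y →
        MSys I N Dq α e0 y (fun σ => e σ y) (fun σ => s σ y) (fun σ k => m σ k y)

/-- SFUS. -/
def SfusStmt : Prop :=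
  ∀ (β : I) N Z 𝒟, GoodN I β N Z → GoodD I β N Z 𝒟 → ∀ α ∈ Z, ty α = false → ∀ e0 ∈ N,
    ∀ Dq : ℕ → Set (Cond I), (∀ n, Dq n ∈ 𝒟) →
    ∃ (e : List Bool → Pt I → Cond I) (s : List Bool → Pt I → Node),
      (∀ σ, MeasC (e σ) ∧ DepOn (Z ∩ Set.Iio α) (e σ)) ∧
      (∀ σ, MeasC (s σ) ∧ DepOn (Z ∩ Set.Iio α) (s σ)) ∧
      ∀ y ∈ (e0.restr α).body, Gen I N 𝒟 α y →
        SSys I N Dq α e0 y (fun σ => e σ y) (fun σ => s σ y)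

/-- Branches of the trees of systems are in the trees of all the conditions of the system. -/
def SysStmt : Prop :=
  (∀ N Dq (α : I) e0 y e s m, MSys I N Dq α e0 y e s m → ∀ x, ∀ g : ℕ → ℕ,
    (∀ n, On (s (ini g n)) x) → Inf1 x ∧ ∀ n, x ∈ bS ((e (ini g n)).T α y)) ∧
  (∀ N Dq (α : I) e0 y e s, SSys I N Dq α e0 y e s → ∀ x, ∀ g : ℕ → Bool,
    (∀ n, On (s (pre g n)) x) → ∀ n, x ∈ bS ((e (pre g n)).T α y))

/-- SFREE: the tree of a binary system is free of the maximal possible rank. -/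
def SfreeStmt : Prop :=
  ∀ (β : I) N Z 𝒟, GoodN I β N Z → GoodD I β N Z 𝒟 → ∀ α ∈ Z, ty α = false → ∀ e0 ∈ N,
    ∀ Dq : ℕ → Set (Cond I), Set.range Dq = 𝒟 →
    ∀ (e : List Bool → Pt I → Cond I) (s : List Bool → Pt I → Node),
      (∀ y ∈ (e0.restr α).body, Gen I N 𝒟 α y →
        SSys I N Dq α e0 y (fun σ => e σ y) (fun σ => s σ y)) →
    ∀ ρ, ρ ≤ α → (∀ i ∈ Z, i < α → i < ρ) → (∀ ε, ε < ρ → ∃ i ∈ Z, i < α ∧ ε ≤ i) →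
      BRw I ρ →
      Fr ρ (fun y => {x | y ∈ (e0.restr α).body ∧ Gen I N 𝒟 α y ∧
        x ∈ bS (ftS (fun σ => s σ y))})

/-- STEP: one coordinate. -/
def StepStmt : Prop :=
  ∀ (β : I) N Z 𝒟, GoodN I β N Z → GoodD I β N Z 𝒟 → (∀ ρ, ρ < β → BRw I ρ ∧ Cst I ρ) →
    ∀ α, α < β → ∀ r, VB α r → ∀ c : Pt I → Cond I, MeasC c → Dep α c →
    (∀ y ∈ r.body, c y ∈ N ∧ y ∈ ((c y).restr α).body ∧ Gen I N 𝒟 α y) →
    ∃ q, VB (nx α) q ∧ Cond.Ext α r q ∧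
      ∀ y ∈ q.body, y ∈ ((c y).restr (nx α)).body ∧ Hit I N 𝒟 (nx α) (c y) y

/-- CLAIM: generic extension from `α` to `γ`. -/
def ClaimStmt : Prop :=
  ∀ (β : I) N Z 𝒟, GoodN I β N Z → GoodD I β N Z 𝒟 → (∀ ρ, ρ < β → BRw I ρ ∧ Cst I ρ) →
    ∀ α γ, α < β → α ≤ γ → γ ≤ β → ∀ r, VB α r → ∀ c : Pt I → Cond I, MeasC c → Dep α c →
    (∀ y ∈ r.body, c y ∈ N ∧ y ∈ ((c y).restr α).body ∧ Gen I N 𝒟 α y) →
    ∃ q, VB γ q ∧ Cond.Ext α r q ∧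
      ∀ y ∈ q.body, y ∈ ((c y).restr γ).body ∧ Hit I N 𝒟 γ (c y) y

/-- PROP: the conclusion of the induction. -/
def PropStmt : Prop := ∀ ρ : I, BRw I ρ ∧ Cst I ρ ∧ Sequ I ρ

/-! ## Reaping -/

/-- Infinite ground model sets decide names of sets of natural numbers. -/
def Rp (β : I) : Prop :=
  ∀ p : Cond I, VB β p → ∀ C : Set ℕ, C.Infinite → ∀ f : Pt I → Set ℕ, Measurable f → Dep β f →
    ∃ q, q ≤ p ∧ VB β q ∧ ∃ B ⊆ C, B.Infinite ∧ ∃ i : Bool, ∀ y ∈ q.body, ∀ n ∈ B,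
      (n ∈ f y ↔ i = true)

/-- RM: Miller successor. -/
def RmStmt : Prop := ∀ α : I, ty α = true → Rp I α → Rp I (nx α)

/-- RS: Sacks successor. -/
def RsStmt : Prop := ∀ α : I, ty α = false → (∀ ρ, ρ ≤ α → Rp I ρ) → Rp I (nx α)

/-- Data: interpretations of a name. -/
structure Dat where
  C : Set ℕ
  r : Cond I
  e : ℕ → Pt I → Cond I
  X : Pt I → Set ℕ

/-- `𝔡` is an interpretation at `α` of the name `f`, of type `i`. -/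
structure Dat.Ok (β α : I) (f : Pt I → Set ℕ) (i : Bool) (𝔡 : Dat I) : Prop where
  inf : 𝔡.C.Infinite
  vr : VB α 𝔡.r
  me : ∀ j, MeasC (𝔡.e j) ∧ Dep α (𝔡.e j)
  mX : Measurable 𝔡.X ∧ Dep α 𝔡.X
  ve : ∀ y ∈ 𝔡.r.body, ∀ j, VB β (𝔡.e j y) ∧ y ∈ ((𝔡.e j y).restr α).body
  rd : ∀ y ∈ 𝔡.r.body, ∀ j, ∀ y' ∈ (𝔡.e j y).body, (∀ k, k < α → y' k = y k) →
    ∀ n, n < j → (n ∈ f y' ↔ n ∈ 𝔡.X y)
  typ : ∀ y ∈ 𝔡.r.body, ∀ n ∈ 𝔡.C, (n ∈ 𝔡.X y ↔ i = true)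

/-- The conditions of the interpretation are below `d`. -/
def Dat.Bel (𝔡 : Dat I) (d : Cond I) : Prop := ∀ y ∈ 𝔡.r.body, ∀ j, 𝔡.e j y ≤ d

/-- INT: interpretations exist. -/
def IntStmt : Prop :=
  ∀ (β α : I), α < β → Rp I α → ∀ f : Pt I → Set ℕ, Measurable f → Dep β f → ∀ d, VB β d →
    ∀ C : Set ℕ, C.Infinite → ∃ (i : Bool) (𝔡 : Dat I), 𝔡.Ok I β α f i ∧ 𝔡.Bel I d ∧ 𝔡.C ⊆ C

/-- TRA: transfer to smaller stages. -/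
def TraStmt : Prop :=
  ∀ (β α α' : I), α < β → α' ≤ α → ∀ f : Pt I → Set ℕ, Measurable f → Dep β f → ∀ d, VB β d →
    ∀ i (𝔡 : Dat I), 𝔡.Ok I β α f i → 𝔡.Bel I d →
    ∃ 𝔡' : Dat I, 𝔡'.Ok I β α' f i ∧ 𝔡'.Bel I d ∧ 𝔡'.C = 𝔡.C

/-- Below `(p, C)` there are interpretations of type `i` at `α` everywhere. -/
def Star (β α : I) (f : Pt I → Set ℕ) (p : Cond I) (C : Set ℕ) (i : Bool) : Prop :=
  ∀ d, VB β d → d ≤ p → ∀ C' ⊆ C, C'.Infinite → ∃ 𝔡 : Dat I, 𝔡.Ok I β α f i ∧ 𝔡.Bel I d ∧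
    𝔡.C ⊆ C'

/-- DL: density lemma. -/
def DlStmt : Prop :=
  ∀ (β α α' : I), α < α' → α' < β → Rp I α → ∀ f : Pt I → Set ℕ, Measurable f → Dep β f →
    ∀ p, VB β p → ∀ C : Set ℕ, C.Infinite → ∀ i, Star I β α' f p C i →
    ∀ 𝔡 : Dat I, 𝔡.Ok I β α f i → 𝔡.Bel I p → ∀ r', VB α r' → r' ≤ 𝔡.r →
    ∀ C' ⊆ C, C'.Infinite →
    ∃ r'', r'' ≤ r' ∧ VB α r'' ∧ ∃ C'' ⊆ C', C''.Infinite ∧ ∃ D : ℕ → Pt I → Dat I,
      (∀ j, MeasC (D j) ∧ Dep α (D j)) ∧ ∀ y ∈ r''.body,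
        (∀ j, (D j y).Ok I β α' f i ∧ (D j y).Bel I (𝔡.e j y) ∧
          y ∈ ((D j y).r.restr α).body ∧ (C'' \ (D j y).C).Finite) ∧
        ∀ m, ∃ j, m ≤ j ∧ ∀ b ∈ C'', j ≤ b → b ∈ (D j y).C

/-- ASM: assembly along a cofinal sequence. -/
def AsmStmt : Prop :=
  ∀ (β : I) (α : ℕ → I), (∀ n, α n < α (n + 1)) → (∀ n, α n < β) → (∀ γ, γ < β → ∃ n, γ < α n) →
    (∀ n, Rp I (α n)) → ∀ f : Pt I → Set ℕ, Measurable f → Dep β f → ∀ p, VB β p →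
    ∀ C : Set ℕ, C.Infinite → ∀ i, (∀ n, Star I β (α n) f p C i) →
    ∃ q, q ≤ p ∧ VB β q ∧ ∃ B ⊆ C, B.Infinite ∧ ∀ y ∈ q.body, ∀ n ∈ B, (n ∈ f y ↔ i = true)

/-- RALL: conclusion. -/
def RallStmt : Prop := ∀ β : I, Rp I β

/-! ## Avoiding closed sets, gaps of the Miller reals -/

/-- FACT4: the Miller real has gaps `[n, h n)` for all `n` in an infinite ground model set. -/
def Fact4Stmt : Prop :=
  ∀ (β j : I), ty j = true → j < β → ∀ p, VB β p → ∀ h : Pt I → ℕ → ℕ, Measurable h → Dep j h →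
    ∃ q, q ≤ p ∧ VB β q ∧ ∃ B : Set ℕ, B.Infinite ∧ ∀ y ∈ q.body, ∀ n ∈ B, ∀ k, n ≤ k →
      k < h y n → y j k = false

/-- COV. -/
def CovStmt : Prop :=
  ∀ (j ε : I), ty j = false → ε = nx (nx j) → ty (nx j) = true → ty ε = false →
    ∀ (β : I), ∀ d, VB β d → ∀ E : ℕ → Pt I → Set Node, (∀ n, Measurable (E n) ∧ Dep ε (E n)) →
    (∀ (n : ℕ) (q : Cond I) (ρ : I) (T : Pt I → Set Node), VB β q → q ≤ d → ρ ≤ β →
      Measurable T → Dep ρ T → Fr ρ (fun y => bS (T y)) →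
      ¬ ∀ y ∈ q.body, Good false (T y) ∧ bS (T y) ⊆ bS (E n y)) →
    ∀ l, ty l = false → ε < l → l < β → ∀ q, VB β q → q ≤ d →
    ∃ q', q' ≤ q ∧ VB β q' ∧ ∃ K : Pt I → Set Node, Measurable K ∧ Dep (nx ε) K ∧
      ∀ y ∈ q'.body, y l ∈ bS (K y) ∧ ∀ n, Disjoint (bS (K y)) (bS (E n y))

/-- NEW: a free perfect tree can be used at every later coordinate outside of the support. -/
def NewStmt : Prop :=
  ∀ (β l ρ : I), ty l = false → β ≤ l → ρ ≤ l → ∀ p, VB β p → ∀ T : Pt I → Set Node,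
    Measurable T → Dep ρ T → Fr ρ (fun y => bS (T y)) → (∀ y ∈ p.body, Good false (T y)) →
    ∃ q, q ≤ p ∧ VB (nx l) q ∧ ∀ y ∈ q.body, y l ∈ bS (T y)

end

end Pool.Agent.MG
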