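import Pool.Agent.Helper56_MG.JDefs
import Pool.Agent.Helper56_MG.Stmts
import Pool.Agent.Helper93_MEN.Public

/-!
# Statements of part 2: the iteration of length the successor of the continuum
-/

open Set

namespace Pool.Agent.MG

open Pool.Agent.FL (Ix)
open Pool.Agent.Men (iv iv2)

/-- Length of the iteration. -/
abbrev te : JJ := JJ.t 0

/-- The forcing. -/
def PP : Type := {p : Cond JJ // VB te p}

noncomputable instance : Preorder PP := Preorder.lift (fun p : PP => p.1)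

theorem PP.le_def {q p : PP} : q ≤ p ↔ q.1.body ⊆ p.1.body := Iff.rfl

/-- Points. -/
abbrev PJ := Pt JJ

/-- Names: measurable functions of the coordinates below `te`. -/
def Nm {X : Type*} [MeasurableSpace X] (f : PJ → X) : Prop := Measurable f ∧ Dep te f

/-- Measurable sets of points which depend on the coordinates below `te`. -/
def Ms (A : Set PJ) : Prop := MeasurableSet A ∧ Dep te (fun y => y ∈ A)

/-- The next one of the sequence `x` from `n` on. -/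
noncomputable def nxt (x : R) (n : ℕ) : ℕ := sInf {k | n ≤ k ∧ x k = true}

/-- The position of the one number `n` of the sequence `x`. -/
noncomputable def el (x : R) (n : ℕ) : ℕ := Nat.nth (fun k => x k = true) n

/-! ## General facts -/

/-- JDEC. -/
def JDecStmt : Prop := ∀ (r : PP) (A : Set PJ), Ms A → ∃ r' ≤ r, r'.1.body ⊆ A ∨ r'.1.body ⊆ Aᶜ

/-- JBR. -/
def JBrStmt : Prop :=
  ∀ (r : PP) (D : ℕ → Set PP), (∀ i, ∀ d ∈ D i, ∀ e ≤ d, e ∈ D i) →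
    (∀ i, ∀ q ≤ r, ∃ d ∈ D i, d ≤ q) →
    ∃ r' ≤ r, ∀ i, ∃ E : Set PP, E.Countable ∧ E ⊆ D i ∧ r'.1.body ⊆ ⋃ d ∈ E, d.1.body

/-- JREAP. -/
def JReapStmt : Prop :=
  ∀ (r : PP) (S : PJ → Set ℕ), Nm S → ∃ r' ≤ r, ∃ A : Set ℕ, A.Infinite ∧
    ((∀ z ∈ r'.1.body, A ⊆ S z) ∨ ∀ z ∈ r'.1.body, Disjoint A (S z))

/-- JGPL: generic point over a countable hull. -/
def JGplStmt : Prop :=
  ∀ (W : Type 1) (cd : PP → W), Function.Injective cd →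
    ∀ (ops : ℕ → List W → W) (D : ℕ → List W → Set PP),
    (∀ i l, ∀ d ∈ D i l, ∀ e ≤ d, e ∈ D i l) → (∀ i l, ∀ q, ∃ d ∈ D i l, d ≤ q) →
    ∀ (p : PP) (W0 : Set W), W0.Countable →
    ∃ H : Set W, W0 ⊆ H ∧ H.Countable ∧ cd p ∈ H ∧
      (∀ i l, (∀ x ∈ l, x ∈ H) → ops i l ∈ H) ∧
      ∃ g ∈ p.1.body, ∀ i l, (∀ x ∈ l, x ∈ H) → ∃ d, cd d ∈ H ∧ d ∈ D i l ∧ g ∈ d.1.body

/-- JCONST: names of elements of countable sets can be decided; if no stronger condition is inside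
one of the sets `A n` one can avoid all of them. -/
def JConstStmt : Prop :=
  (∀ (β : JJ) (p : Cond JJ), VB β p → ∀ (X : Type) (f : PJ → X), MeasC f → Dep β f →
    ∃ q, q ≤ p ∧ VB β q ∧ ∃ x, ∀ y ∈ q.body, f y = x) ∧
  (∀ (p : PP) (A : ℕ → Set PJ), (∀ n, Ms (A n)) → (∀ n, ∀ q ≤ p, ¬ q.1.body ⊆ A n) →
    ∃ q ≤ p, ∀ n, Disjoint q.1.body (A n)) ∧
  -- decision below `i` without change of the trees at and after `i`
  (∀ (β i : JJ), i ≤ β → ∀ (p : Cond JJ), VB β p → ∀ (X : Type) (f : PJ → X), MeasC f → Dep i f →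
    ∃ q, q ≤ p ∧ VB β q ∧ (∀ j, i ≤ j → q.T j = p.T j) ∧ (∀ j, i ≤ j → (j ∈ q.S ↔ j ∈ p.S)) ∧
      ∃ x, ∀ y ∈ q.body, f y = x)

/-! ## Counting and closure points -/

/-- BND: everything with countable support is bounded; closure points. -/
def BndStmt : Prop :=
  (∀ C : Set JJ, C.Countable → C ⊆ Set.Iio te → ∃ k : Ix, C ⊆ Set.Iio (JJ.s k)) ∧
  (∀ r : Cond JJ, r.Below te → ∃ k : Ix, r.Below (JJ.s k)) ∧
  (∀ f : PJ → Set Node, Nm f → ∃ k : Ix, Dep (JJ.s k) f) ∧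
  (∀ f : PJ → ℕ → ℕ, Nm f → ∃ k : Ix, Dep (JJ.s k) f) ∧
  (∀ (ι : Type), Cardinal.mk ι ≤ Cardinal.continuum → ∀ h : ι → Ix, ∃ b : Ix, ∀ i, h i < b) ∧
  ∀ (g : Ix → Ix) (β0 : Ix), ∃ α : Ix, β0 < α ∧ (∀ β < α, g β < α) ∧
    (∀ r : Cond JJ, r.Below (JJ.s α) → ∃ β < α, r.Below (JJ.s β)) ∧
    (∀ f : PJ → ℕ → ℕ, Measurable f → Dep (JJ.s α) f → ∃ β < α, Dep (JJ.s β) f)

/-- COUNT. -/
def CountStmt : Prop :=
  ∀ γ : Ix, Cardinal.mk {r : Cond JJ // r.Below (JJ.s γ)} ≤ Cardinal.continuum ∧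
    Cardinal.mk {f : PJ → ℕ → ℕ // Measurable f ∧ Dep (JJ.s γ) f} ≤ Cardinal.continuum ∧
    Cardinal.mk {ξ : Ix // ξ < γ} ≤ Cardinal.continuum

/-! ## Thinning of trees -/

/-- THINM: the Miller real has a gap from a number `n ∈ B` to the name `f n`. -/
def ThinmStmt : Prop :=
  ∀ (γ : Ix) (d : PP) (f : PJ → ℕ → ℕ), Measurable f → Dep (JJ.m γ) f → ∀ B : Set ℕ, B.Infinite →
    ∃ q ≤ d, ∃ n ∈ B, ∀ z ∈ q.1.body, f z n < nxt (z (JJ.m γ)) n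

/-- JDOM: the enumerations of the Miller reals are dominating; the coordinate can be chosen above
any given one. -/
def JDomStmt : Prop :=
  ∀ h : PJ → ℕ → ℕ, Nm h → ∀ (r : PP) (b0 : Ix), ∃ r' ≤ r, ∃ b : Ix, b0 < b ∧
    ∀ z ∈ r'.1.body, Inf1 (z (JJ.m b)) ∧ ∀ n, h z n ≤ el (z (JJ.m b)) n

/-- EXTD: a real of the iteration differs beyond `L` from any real which exists before it. -/
def ExtdStmt : Prop :=
  ∀ (i : JJ), i < te → ∀ (p : PP) (w : PJ → R), Measurable w → Dep i w → ∀ L : ℕ,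
    ∃ q ≤ p, ∃ N, L ≤ N ∧ ∀ y ∈ q.1.body, y i N ≠ w y N

/-- SBD: Sacks coordinates are bounding. -/
def SbdStmt : Prop :=
  ∀ (β i : JJ), ty i = false → i < β → ∀ p, VB β p → ∀ h : PJ → ℕ → ℕ, Measurable h →
    Dep (nx i) h → ∃ q, q ≤ p ∧ VB β q ∧ (∀ j, nx i ≤ j → q.T j = p.T j) ∧
      ∃ h' : PJ → ℕ → ℕ, Measurable h' ∧ Dep i h' ∧ ∀ y ∈ q.body, ∀ n, h y n ≤ h' y n

/-- MLOC: thinning of Miller trees (pure). -/
def MlocStmt : Prop :=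
  ∃ (φ : Set Node → ℕ → ℕ) (n0 : Set Node → ℕ) (th : Set Node → (ℕ → ℕ) → Set Node),
    Measurable φ ∧ Measurable n0 ∧ Measurable (fun z : Set Node × (ℕ → ℕ) => th z.1 z.2) ∧
    ∀ T, Good true T → ∀ G : ℕ → ℕ, Monotone G → (Good true (th T G) ∧ th T G ⊆ T) ∧
      ∀ φ' : ℕ → ℕ, Monotone φ' → (∀ e, φ T e ≤ φ' e) → ∀ x ∈ bd true (th T G),
        ∀ u : ℕ → ℕ, Monotone u → (∀ n, nxt x n ≤ u n) → ∀ k, n0 T ≤ k → G k < u (φ' (u k))

/-! ## Domination -/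

/-- JNDOM. -/
def JNDomStmt : Prop :=
  ∀ (ι : Type), Cardinal.mk ι ≤ Cardinal.continuum →
    ∀ rel : ι → PP → (PJ → ℕ → ℕ) → Prop,
    (∀ i r r' f, r' ≤ r → rel i r f → rel i r' f) →
    ∀ e : PP, (∀ i, ∀ r ≤ e, ∃ r' ≤ r, ∃ f, Nm f ∧ rel i r' f) →
    ∃ γ : Ix, ∀ i, ∀ r ≤ e, ∀ m : ℕ, ∃ r' ≤ r, ∃ f, Nm f ∧ rel i r' f ∧
      ∃ n ≥ m, ∀ z ∈ r'.1.body, f z n < nxt (z (JJ.m γ)) n

/-! ## Menger names -/

/-- The condition `d` forces that the set described by `rel` is covered by the intervals number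
`c (n, k)`, for every `n`. -/
def JCov (rel : PP → (PJ → ℝ) → Prop) (d : PP) (c : PJ → ℕ → ℕ) : Prop :=
  ∀ d' ≤ d, ∀ f : PJ → ℝ, Nm f → rel d' f → ∀ n,
    ¬ ∀ z ∈ d'.1.body, ∀ k, f z ∉ iv (c z (Nat.pair n k))

/-- The condition `d` forces that the set described by `rel` is covered by the intervals number
`c (n, k)` with `k ≤ h n`. -/
def JCovH (rel : PP → (PJ → ℝ) → Prop) (d : PP) (c h : PJ → ℕ → ℕ) : Prop :=
  ∀ d' ≤ d, ∀ f : PJ → ℝ, Nm f → rel d' f →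
    ¬ ∀ z ∈ d'.1.body, ∀ n, ∀ k ≤ h z n, f z ∉ iv (c z (Nat.pair n k))

/-- The condition `e` forces that the set described by `rel` is Menger. -/
def JMenRel (rel : PP → (PJ → ℝ) → Prop) (e : PP) : Prop :=
  ∀ d ≤ e, ∀ c : PJ → ℕ → ℕ, Nm c → JCov rel d c →
    ∃ d' ≤ d, ∃ h : PJ → ℕ → ℕ, Nm h ∧ JCovH rel d' c h

/-- JADD: the union of at most continuum many names of Menger sets is Menger. -/
def JAddStmt : Prop :=
  ∀ (ι : Type), Cardinal.mk ι ≤ Cardinal.continuum →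
    ∀ rel : ι → PP → (PJ → ℝ) → Prop,
    (∀ i r r' f, r' ≤ r → rel i r f → rel i r' f) →
    ∀ e : PP, (∀ i, JMenRel (rel i) e) →
    ∀ c : PJ → ℕ → ℕ, Nm c → (∀ i, JCov (rel i) e c) →
    ∃ h : PJ → ℕ → ℕ, Nm h ∧ ∀ i, JCovH (rel i) e c h

/-! ## The two Menger sets -/

/-- The real number of a binary sequence. -/
noncomputable def eR (x : R) : ℝ := ∑' n, (if x n then (2 : ℝ) else 0) / 3 ^ (n + 1)

/-- Change of the sequence on a finite set. -/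
def chg (x : R) (F : Finset ℕ) : R := fun n => xor (x n) (decide (n ∈ F))

/-- Complement. -/
def cpl (x : R) : R := fun n => !(x n)

/-- Sum. -/
def sm (x y : R) : R := fun n => xor (x n) (y n)

/-- The elements of the first set. -/
noncomputable def fX (i : Ix × Finset ℕ) (y : PJ) : ℝ := eR (chg (y (JJ.s i.1)) i.2)

/-- The elements of the second set. -/
noncomputable def fY (i : Bool × Ix × Finset ℕ) (y : PJ) : ℝ :=
  if i.1 then eR (chg (cpl (y (JJ.s i.2.1))) i.2.2)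
  else eR (chg (sm (y (JJ.s i.2.1)) (y (JJ.m i.2.1))) i.2.2)

/-- ER: the embedding of the Cantor space (pure). -/
def ErStmt : Prop :=
  Measurable eR ∧ Function.Injective eR ∧
  (∀ (x : R) (a : ℕ), eR x ∈ iv a → ∃ n, ∀ x', pre x' n = pre x n → eR x' ∈ iv a) ∧
  (∃ w : Node → ℕ, ∀ s x, eR x ∈ iv (w s) ↔ On s x) ∧
  (∃ a, iv a = ∅) ∧ (∀ O : Set ℝ, IsOpen O → ∀ x ∈ O, ∃ a, x ∈ iv a ∧ iv a ⊆ O)

/-- JEX: the reals of the two sets are names. -/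
def JExStmt : Prop :=
  (∀ i, Measurable (fX i) ∧ Dep (JJ.m i.1) (fX i)) ∧
  ∀ i, Measurable (fY i) ∧ Dep (JJ.s (ixs i.2.1)) (fY i)

/-- EE: the complement of the cover number `n`, translated by `F`, as a closed set (pure). -/
def EeStmt : Prop :=
  ∃ EE : (ℕ → ℕ) → ℕ → Finset ℕ → Set Node, (∀ n F, Measurable (fun c => EE c n F)) ∧
    ∀ c n F x, x ∈ bS (EE c n F) ↔ ∀ k, eR (chg x F) ∉ iv (c (Nat.pair n k))

/-- COMP: compactness (pure). -/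
def CompStmt : Prop :=
  ∃ ff : Set Node → (ℕ → ℕ) → ℕ → ℕ, Measurable (fun z : Set Node × (ℕ → ℕ) => ff z.1 z.2) ∧
    ∀ K c, (∀ n F, ∀ x ∈ bS K, ∃ k, eR (chg x F) ∈ iv (c (Nat.pair n k))) →
      ∀ n, ∀ x ∈ bS K, ∀ x' : R, (∀ i, n ≤ i → i < ff K c n → x' i = x i) →
        ∃ k ≤ ff K c n, eR x' ∈ iv (c (Nat.pair n k))

/-- JNEW: a free perfect tree name contains a Sacks real of the iteration. -/
def JNewStmt : Prop :=
  ∀ (q : PP) (ρ : JJ) (T : PJ → Set Node), ρ ≤ te → Measurable T → Dep ρ T →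
    Fr ρ (fun y => bS (T y)) → (∀ y ∈ q.1.body, Good false (T y)) →
    ∃ q' ≤ q, ∃ l : Ix, ∀ y ∈ q'.1.body, y (JJ.s l) ∈ bS (T y)

/-- CPLF: the complement of a free name is free. -/
def CplfStmt : Prop :=
  (∃ ct : Set Node → Set Node, Measurable ct ∧ (∀ T x, x ∈ bS (ct T) ↔ cpl x ∈ bS T) ∧
    ∀ T, Good false T → Good false (ct T)) ∧
  ∀ (ρ : JJ) (A : PJ → Set R), Fr ρ A → Fr ρ (fun y => {x | cpl x ∈ A y})

/-- The family of names `fr` is Menger. -/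
def JMenFam {κ : Type} (fr : κ → PJ → ℝ) : Prop :=
  ∀ (e : PP) (c : PJ → ℕ → ℕ), Nm c →
    (∀ i, ∀ d ≤ e, ∀ n, ¬ ∀ z ∈ d.1.body, ∀ k, fr i z ∉ iv (c z (Nat.pair n k))) →
    ∃ h : PJ → ℕ → ℕ, Nm h ∧
      ∀ i, ∀ d ≤ e, ¬ ∀ z ∈ d.1.body, ∀ n, ∀ k ≤ h z n, fr i z ∉ iv (c z (Nat.pair n k))

/-- JXMEN. -/
def JXmenStmt : Prop := JMenFam fX

/-- JYMEN. -/
def JYmenStmt : Prop := JMenFam fY

/-- INFO: the sum of an element of the first set and of an element of the second set is infinite. -/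
def InfoStmt : Prop :=
  ∀ (k : Ix) (F : Finset ℕ) (j : Bool × Ix × Finset ℕ) (r : PP) (n : ℕ), ∃ r' ≤ r, ∃ a b : Node,
    a.length = b.length ∧ n < ((a.zip b).filter (fun z => xor z.1 z.2)).length ∧
    ∀ z ∈ r'.1.body, On a (chg (z (JJ.s k)) F) ∧
      On b (if j.1 then chg (cpl (z (JJ.s j.2.1))) j.2.2
        else chg (sm (z (JJ.s j.2.1)) (z (JJ.m j.2.1))) j.2.2)

/-- JNP: the product is not Menger. -/
def JNProdStmt : Prop :=
  ∃ cc : ℕ → ℕ,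
    (∀ i j (r : PP) (n : ℕ), ∃ r' ≤ r, ∃ k, ∀ z ∈ r'.1.body,
      (fX i z, fY j z) ∈ iv2 (cc (Nat.pair n k))) ∧
    ∀ h : PJ → ℕ → ℕ, Nm h → ∀ r : PP, ∃ r' ≤ r, ∃ i j, ∀ z ∈ r'.1.body, ∀ n,
      ∀ k ≤ h z n, (fX i z, fY j z) ∉ iv2 (cc (Nat.pair n k))

end Pool.Agent.MG
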