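import Pool.Agent.Helper56_MG.Base1

/-!
# Base 2: conditions
-/

open Set

namespace Pool.Agent.MG

variable {I : Type} [Idx I]

theorem Cond.ext' {p q : Cond I} (hT : p.T = q.T) (hS : p.S = q.S) : p = q := by
  cases p
  cases q
  simp only at hT hS
  subst hT
  subst hS
  rfl

theorem Cond.T_congr (p : Cond I) {i : I} {y y' : Pt I} (h : ∀ j, j < i → y j = y' j) :
    p.T i y = p.T i y' := p.dep i y y' h

theorem Cond.mem_body_iff {p : Cond I} {y : Pt I} :
    y ∈ p.body ↔ ∀ i ∈ p.S, y i ∈ bd (ty i) (p.T i y) := Iff.rfl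

/-- Every partial point of a condition extends to a point of the condition. -/
theorem Cond.exists_ext (p : Cond I) (ρ : I) (y : Pt I)
    (hy : ∀ i ∈ p.S, i < ρ → y i ∈ bd (ty i) (p.T i y)) :
    ∃ y' ∈ p.body, ∀ i, i < ρ → y' i = y i := by
  classical
  let ch : Bool → Set Node → R := fun b T =>
    if h : (bd b T).Nonempty then h.some else fun _ => false
  have hch : ∀ b T, Good b T → ch b T ∈ bd b T := by
    intro b T hT
    simp only [ch, hT.bd_nonempty, dif_pos]
    exact hT.bd_nonempty.some_mem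
  let F : (i : I) → ((j : I) → j < i → R) → R := fun i ih =>
    if i < ρ then y i else
      ch (ty i) (p.T i (fun j => if h : j < i then ih j h else fun _ => false))
  let y' : Pt I := (wellFounded_lt (α := I)).fix F
  have hy' : ∀ i, y' i = if i < ρ then y i else ch (ty i) (p.T i y') := by
    intro i
    have h1 : y' i = F i (fun j _ => y' j) := (wellFounded_lt (α := I)).fix_eq F i
    rw [h1]
    simp only [F]
    split_ifs
    · rfl
    · congr 1
      apply p.T_congr
      intro j hj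
      simp [hj]
  have hyJ : ∀ i, i < ρ → y' i = y i := fun i hi => by rw [hy' i, if_pos hi]
  refine ⟨y', fun i hiS => ?_, hyJ⟩
  by_cases hi : i < ρ
  · rw [hyJ i hi, p.T_congr (y' := y) (fun j hj => hyJ j (hj.trans hi))]
    exact hy i hiS hi
  · rw [hy' i, if_neg hi]
    exact hch _ _ (p.good i y')

theorem Cond.body_nonempty (p : Cond I) : p.body.Nonempty := by
  classical
  by_cases hI : Nonempty I
  · obtain ⟨i⟩ := hI
    obtain ⟨y, hy, _⟩ := p.exists_ext bt (fun _ _ => false)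
      (fun i _ hi => absurd hi (not_lt.2 (bt_le i)))
    exact ⟨y, hy⟩
  · exact ⟨fun _ _ => false, fun i _ => absurd ⟨i⟩ hI⟩

theorem Cond.mem_restr {p : Cond I} {ρ : I} {y : Pt I} :
    y ∈ (p.restr ρ).body ↔ ∀ i ∈ p.S, i < ρ → y i ∈ bd (ty i) (p.T i y) := by
  constructor
  · intro h i hi hlt
    have := h i ⟨hi, hlt⟩
    simpa [Cond.restr, hlt] using this
  · intro h i hi
    have := h i hi.1 hi.2
    simpa [Cond.restr, hi.2] using this

/-- Changing the value at `i`, keeping the values below `i`. -/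
theorem Cond.exists_ext_at (p : Cond I) {i : I} {y : Pt I} (hy : y ∈ (p.restr i).body) {x : R}
    (hx : i ∈ p.S → x ∈ bd (ty i) (p.T i y)) :
    ∃ y' ∈ p.body, (∀ j, j < i → y' j = y j) ∧ y' i = x := by
  classical
  rw [Cond.mem_restr] at hy
  obtain ⟨y', h1, h2⟩ := p.exists_ext (nx i) (Function.update y i x) (by
      intro j hj hji
      have hle : j ≤ i := by
        by_contra h
        exact absurd (nx_le i j (not_le.1 h)) (not_le.2 hji)
      rcases lt_or_eq_of_le hle with h | h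
      · rw [Function.update_of_ne h.ne, p.T_congr (y' := y)]
        · exact hy j hj h
        · intro k hk
          rw [Function.update_of_ne (hk.trans h).ne]
      · subst h
        rw [Function.update_self, p.T_congr (y' := y)]
        · exact hx hj
        · intro k hk
          rw [Function.update_of_ne hk.ne])
  refine ⟨y', h1, fun j hj => ?_, ?_⟩
  · rw [h2 j (hj.trans (lt_nx i)), Function.update_of_ne hj.ne]
  · rw [h2 i (lt_nx i), Function.update_self]

theorem Cond.T_subset {q p : Cond I} (h : q ≤ p) {i : I} {y : Pt I} (hy : y ∈ (q.restr i).body) :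
    q.T i y ⊆ p.T i y := by
  by_cases hiS : i ∈ p.S
  · apply (q.good i y).subset_of_bd
    intro x hx
    obtain ⟨y', h1, h2, h3⟩ := q.exists_ext_at hy (x := x) (fun _ => hx)
    have := (h h1 : y' ∈ p.body) i hiS
    rw [h3, p.T_congr h2] at this
    exact this.1
  · rw [p.full' i hiS]
    exact Set.subset_univ _

theorem not_inf1_zero : ¬ Inf1 (fun _ => false) := by
  intro h
  obtain ⟨k, _, hk⟩ := h 0
  exact absurd hk (by simp)

/-- A Miller coordinate of the support of `p` is in the support of every stronger condition. -/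
theorem Cond.mem_S_of_le {q p : Cond I} (h : q ≤ p) {i : I} (hi : i ∈ p.S) (ht : ty i = true) :
    i ∈ q.S := by
  by_contra hiq
  obtain ⟨y, hy⟩ := q.body_nonempty
  have hy' : y ∈ (q.restr i).body := Cond.mem_restr.2 fun j hj _ => hy j hj
  obtain ⟨y', h1, h2, h3⟩ := q.exists_ext_at hy' (x := fun _ => false) (fun hq => absurd hq hiq)
  have := (h h1 : y' ∈ p.body) i hi
  rw [h3] at this
  exact not_inf1_zero (this.2 ht)

theorem Cond.mem_restr_of_mem {p : Cond I} {ρ : I} {y : Pt I} (h : y ∈ p.body) :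
    y ∈ (p.restr ρ).body := Cond.mem_restr.2 fun i hi _ => h i hi

theorem Cond.le_restr (p : Cond I) (ρ : I) : p ≤ p.restr ρ := fun _ h => Cond.mem_restr_of_mem h

theorem Cond.restr_mono {q p : Cond I} (h : q ≤ p) (ρ : I) : q.restr ρ ≤ p.restr ρ := by
  intro y hy
  rw [Cond.mem_restr] at hy ⊢
  obtain ⟨y', h1, h2⟩ := q.exists_ext ρ y hy
  intro i hi hlt
  have h3 := (h h1 : y' ∈ p.body) i hi
  rwa [h2 i hlt, p.T_congr (y' := y) (fun j hj => h2 j (hj.trans hlt))] at h3

theorem Cond.restr_le_restr (p : Cond I) {ρ ρ' : I} (h : ρ ≤ ρ') : p.restr ρ' ≤ p.restr ρ := by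
  intro y hy
  rw [Cond.mem_restr] at hy ⊢
  exact fun i hi hlt => hy i hi (lt_of_lt_of_le hlt h)

theorem Cond.restr_restr (p : Cond I) {ρ ρ' : I} (h : ρ ≤ ρ') :
    (p.restr ρ').restr ρ = p.restr ρ := by
  apply Cond.ext'
  · funext i y
    by_cases h1 : i < ρ
    · simp [Cond.restr, h1, lt_of_lt_of_le h1 h]
    · simp [Cond.restr, h1]
  · ext i
    simp only [Cond.restr, Set.mem_ofPred_eq]
    constructor
    · rintro ⟨⟨h1, _⟩, h2⟩
      exact ⟨h1, h2⟩
    · rintro ⟨h1, h2⟩
      exact ⟨⟨h1, lt_of_lt_of_le h2 h⟩, h2⟩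

theorem Cond.restr_below (p : Cond I) (ρ : I) : (p.restr ρ).Below ρ := fun _ h => h.2

theorem Cond.Below.mono {p : Cond I} {ρ ρ' : I} (h : p.Below ρ) (hρ : ρ ≤ ρ') : p.Below ρ' :=
  fun i hi => lt_of_lt_of_le (h i hi) hρ

theorem Cond.Below.T_eq {p : Cond I} {ρ : I} (h : p.Below ρ) {i : I} (hi : ρ ≤ i) (y : Pt I) :
    p.T i y = Set.univ :=
  p.full' i (fun h' => absurd (h i h') (not_lt.2 hi)) y

theorem Cond.Below.restr_eq {p : Cond I} {ρ : I} (h : p.Below ρ) : p.restr ρ = p := by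
  apply Cond.ext'
  · funext i y
    by_cases h1 : i < ρ
    · simp [Cond.restr, h1]
    · simp [Cond.restr, h1, h.T_eq (not_lt.1 h1) y]
  · ext i
    exact ⟨fun h1 => h1.1, fun h1 => ⟨h1, h i h1⟩⟩

theorem Cond.mem_restr_congr {p : Cond I} {ρ : I} {y y' : Pt I} (h : ∀ i, i < ρ → y i = y' i) :
    y ∈ (p.restr ρ).body ↔ y' ∈ (p.restr ρ).body := by
  rw [Cond.mem_restr, Cond.mem_restr]
  refine forall_congr' fun i => forall_congr' fun _ => forall_congr' fun hi => ?_
  rw [h i hi, p.T_congr (y' := y') (fun j hj => h j (hj.trans hi))]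

theorem Cond.Below.mem_congr {p : Cond I} {ρ : I} (hp : p.Below ρ) {y y' : Pt I}
    (h : ∀ i, i < ρ → y i = y' i) : y ∈ p.body ↔ y' ∈ p.body := by
  have := Cond.mem_restr_congr (p := p) h
  rwa [hp.restr_eq] at this

theorem Cond.glue_below {r p : Cond I} {ρ β : I} (hρ : ρ ≤ β) (hp : p.Below β) :
    (Cond.glue r p ρ).Below β := by
  intro i hi
  rcases hi with hi | hi
  · exact lt_of_lt_of_le hi.2 hρ
  · exact hp i hi.1

theorem Cond.glue_T_lt (r p : Cond I) {ρ i : I} (h : i < ρ) :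
    (Cond.glue r p ρ).T i = r.T i := by
  funext y
  simp [Cond.glue, h]

theorem Cond.glue_T_ge (r p : Cond I) {ρ i : I} (h : ρ ≤ i) :
    (Cond.glue r p ρ).T i = p.T i := by
  funext y
  simp [Cond.glue, not_lt.2 h]

theorem Cond.mem_glue {r p : Cond I} {ρ : I} {y : Pt I} :
    y ∈ (Cond.glue r p ρ).body ↔ (∀ i ∈ r.S, i < ρ → y i ∈ bd (ty i) (r.T i y)) ∧
      (∀ i ∈ p.S, ρ ≤ i → y i ∈ bd (ty i) (p.T i y)) := by
  constructor
  · intro h
    refine ⟨fun i hi hlt => ?_, fun i hi hge => ?_⟩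
    · have := h i (Or.inl ⟨hi, hlt⟩)
      rwa [Cond.glue_T_lt r p hlt] at this
    · have := h i (Or.inr ⟨hi, not_lt.2 hge⟩)
      rwa [Cond.glue_T_ge r p hge] at this
  · rintro ⟨h1, h2⟩ i hi
    rcases hi with hi | hi
    · rw [Cond.glue_T_lt r p hi.2]
      exact h1 i hi.1 hi.2
    · rw [Cond.glue_T_ge r p (not_lt.1 hi.2)]
      exact h2 i hi.1 (not_lt.1 hi.2)

theorem Cond.glue_le_left {r p : Cond I} {ρ : I} (hr : r.Below ρ) : Cond.glue r p ρ ≤ r := by
  intro y hy
  rw [Cond.mem_glue] at hy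
  exact fun i hi => hy.1 i hi (hr i hi)

theorem Cond.glue_le_right {r p : Cond I} {ρ : I} (h : r.restr ρ ≤ p.restr ρ) :
    Cond.glue r p ρ ≤ p := by
  intro y hy
  rw [Cond.mem_glue] at hy
  have h1 : y ∈ (p.restr ρ).body := h (Cond.mem_restr.2 hy.1)
  rw [Cond.mem_restr] at h1
  intro i hi
  rcases lt_or_ge i ρ with h2 | h2
  · exact h1 i hi h2
  · exact hy.2 i hi h2

theorem Cond.glue_restr (r p : Cond I) {ρ ρ' : I} (h : ρ' ≤ ρ) :
    (Cond.glue r p ρ).restr ρ' = r.restr ρ' := by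
  apply Cond.ext'
  · funext i y
    by_cases h1 : i < ρ'
    · simp [Cond.restr, Cond.glue, h1, lt_of_lt_of_le h1 h]
    · simp [Cond.restr, h1]
  · ext i
    simp only [Cond.restr, Cond.glue, Set.mem_ofPred_eq]
    constructor
    · rintro ⟨h1 | h1, h2⟩
      · exact ⟨h1.1, h2⟩
      · exact absurd (lt_of_lt_of_le h2 h) h1.2
    · rintro ⟨h1, h2⟩
      exact ⟨Or.inl ⟨h1, lt_of_lt_of_le h2 h⟩, h2⟩

theorem Cond.glue_self (p : Cond I) (ρ : I) : Cond.glue p p ρ = p := by
  apply Cond.ext'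
  · funext i y
    simp [Cond.glue]
  · ext i
    simp only [Cond.glue, Set.mem_ofPred_eq]
    tauto

theorem Cond.Ext.refl (ρ : I) (r : Cond I) : Cond.Ext ρ r r :=
  ⟨fun _ _ => rfl, fun _ _ => Iff.rfl⟩

theorem Cond.Ext.restr_eq {ρ : I} {r q : Cond I} (h : Cond.Ext ρ r q) : q.restr ρ = r.restr ρ := by
  apply Cond.ext'
  · funext i y
    by_cases h1 : i < ρ
    · simp [Cond.restr, h1, h.1 i h1]
    · simp [Cond.restr, h1]
  · ext i
    simp only [Cond.restr, Set.mem_ofPred_eq]
    constructor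
    · rintro ⟨h1, h2⟩
      exact ⟨(h.2 i h2).1 h1, h2⟩
    · rintro ⟨h1, h2⟩
      exact ⟨(h.2 i h2).2 h1, h2⟩

theorem Cond.Ext.le {ρ : I} {r q : Cond I} (h : Cond.Ext ρ r q) (hr : r.Below ρ) : q ≤ r := by
  have h1 : q ≤ q.restr ρ := Cond.le_restr q ρ
  rwa [h.restr_eq, hr.restr_eq] at h1

theorem Cond.Ext.mono {ρ ρ' : I} {r q : Cond I} (h : Cond.Ext ρ' r q) (hρ : ρ ≤ ρ') :
    Cond.Ext ρ r q :=
  ⟨fun i hi => h.1 i (lt_of_lt_of_le hi hρ), fun i hi => h.2 i (lt_of_lt_of_le hi hρ)⟩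

theorem Cond.Ext.trans {ρ ρ' : I} {r q s : Cond I} (h : Cond.Ext ρ r q) (h' : Cond.Ext ρ' q s)
    (hρ : ρ ≤ ρ') : Cond.Ext ρ r s :=
  ⟨fun i hi => (h'.1 i (lt_of_lt_of_le hi hρ)).trans (h.1 i hi),
    fun i hi => (h'.2 i (lt_of_lt_of_le hi hρ)).trans (h.2 i hi)⟩

open Classical in
/-- Replace the tree at the coordinate `i` (by `T'` where this is a good tree, by the set of all
nodes otherwise) and put `i` into the support. -/
noncomputable def Cond.setT (p : Cond I) (i : I) (T' : Pt I → Set Node) (h1 : Measurable T')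
    (h2 : Dep i T') : Cond I where
  T := fun j y => if j = i then (if Good (ty i) (T' y) then T' y else Set.univ) else p.T j y
  S := insert i p.S
  good := by
    intro j y
    split_ifs with h h'
    · rw [h]; exact h'
    · exact good_univ _
    · exact p.good j y
  scount := p.scount.insert i
  full' := by
    intro j hj y
    have hji : j ≠ i := by
      rintro rfl
      exact hj (Set.mem_insert _ _)
    rw [if_neg hji]
    exact p.full' j (fun h => hj (Set.mem_insert_of_mem _ h)) y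
  dep := by
    intro j y y' h
    by_cases hj : j = i
    · subst hj
      simp only [if_true, h2 y y' h]
    · simp only [hj, if_false, p.dep j y y' h]
  meas := by
    intro j
    by_cases hj : j = i
    · subst hj
      simp only [if_true]
      exact Measurable.ite ((measurableSet_good _).preimage h1) h1 measurable_const
    · simp only [hj, if_false]
      exact p.meas j

theorem Cond.setT_T_ne (p : Cond I) {i j : I} (T' : Pt I → Set Node) (h1 : Measurable T')
    (h2 : Dep i T') (hj : j ≠ i) : (p.setT i T' h1 h2).T j = p.T j := by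
  funext y
  simp [Cond.setT, hj]

theorem Cond.setT_T_self (p : Cond I) {i : I} (T' : Pt I → Set Node) (h1 : Measurable T')
    (h2 : Dep i T') {y : Pt I} (h : Good (ty i) (T' y)) : (p.setT i T' h1 h2).T i y = T' y := by
  simp [Cond.setT, h]

theorem Cond.setT_S (p : Cond I) {i : I} (T' : Pt I → Set Node) (h1 : Measurable T')
    (h2 : Dep i T') : (p.setT i T' h1 h2).S = insert i p.S := rfl

theorem Cond.setT_restr (p : Cond I) {i ρ : I} (T' : Pt I → Set Node) (h1 : Measurable T')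
    (h2 : Dep i T') (hρ : ρ ≤ i) : (p.setT i T' h1 h2).restr ρ = p.restr ρ := by
  apply Cond.ext'
  · funext j y
    by_cases hj : j < ρ
    · have hne : j ≠ i := (lt_of_lt_of_le hj hρ).ne
      simp [Cond.restr, hj, Cond.setT_T_ne p T' h1 h2 hne]
    · simp [Cond.restr, hj]
  · ext j
    simp only [Cond.restr, Cond.setT_S, Set.mem_ofPred_eq, Set.mem_insert_iff]
    constructor
    · rintro ⟨h3 | h3, h4⟩
      · exact absurd h4 (by rw [h3]; exact not_lt.2 hρ)
      · exact ⟨h3, h4⟩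
    · rintro ⟨h3, h4⟩
      exact ⟨Or.inr h3, h4⟩

theorem Cond.setT_le (p : Cond I) {i : I} (T' : Pt I → Set Node) (h1 : Measurable T')
    (h2 : Dep i T') (h : ∀ y ∈ (p.restr i).body, Good (ty i) (T' y) ∧ T' y ⊆ p.T i y) :
    p.setT i T' h1 h2 ≤ p := by
  intro y hy
  have hyr : y ∈ (p.restr i).body := by
    rw [Cond.mem_restr]
    intro j hj hji
    have := hy j (Set.mem_insert_of_mem _ hj)
    rwa [Cond.setT_T_ne p T' h1 h2 hji.ne] at this
  intro j hj
  by_cases hji : j = i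
  · subst hji
    have := hy j (Set.mem_insert _ _)
    rw [Cond.setT_T_self p T' h1 h2 (h y hyr).1] at this
    exact bd_mono (h y hyr).2 this
  · have := hy j (Set.mem_insert_of_mem _ hj)
    rwa [Cond.setT_T_ne p T' h1 h2 hji] at this

theorem Cond.measurableSet_body (p : Cond I) : MeasurableSet p.body := by
  have : p.body = ⋂ i ∈ p.S, {y | y i ∈ bd (ty i) (p.T i y)} := by
    ext y
    simp only [Cond.mem_body_iff, Set.mem_iInter, Set.mem_ofPred_eq]
  rw [this]
  exact MeasurableSet.biInter p.scount fun i _ =>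
    measurableSet_mem_bd (measurable_pi_apply i) (p.meas i) (ty i)

/-- The support together with all the coordinates on which the trees depend is countable. -/
theorem Cond.exists_supp (p : Cond I) : ∃ C : Set I, C.Countable ∧ p.S ⊆ C ∧
    ∀ i, DepOn (C ∩ Set.Iio i) (p.T i) := by
  have h : ∀ i, ∃ C : Set I, C ⊆ Set.Iio i ∧ C.Countable ∧ DepOn C (p.T i) := by
    intro i
    obtain ⟨C, h1, h2, h3⟩ := exists_countable_dep_node (p.meas i) (Set.Iio i)
      (dep_iff_depOn.1 (p.dep i))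
    exact ⟨C, h1, h2, h3⟩
  choose C h1 h2 h3 using h
  refine ⟨p.S ∪ ⋃ i ∈ p.S, C i, p.scount.union (p.scount.biUnion fun i _ => h2 i),
    Set.subset_union_left, fun i => ?_⟩
  by_cases hi : i ∈ p.S
  · refine (h3 i).mono ?_
    intro j hj
    exact ⟨Or.inr (Set.mem_biUnion hi hj), h1 i hj⟩
  · intro y y' _
    rw [p.full' i hi, p.full' i hi]

theorem Cond.depOn_restr_body {p : Cond I} {Z : Set I} (hS : p.S ⊆ Z)
    (hT : ∀ i, DepOn (Z ∩ Set.Iio i) (p.T i)) (ρ : I) :
    DepOn (Z ∩ Set.Iio ρ) (fun y => y ∈ (p.restr ρ).body) := by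
  intro y y' h
  simp only [eq_iff_iff]
  rw [Cond.mem_restr, Cond.mem_restr]
  refine forall_congr' fun i => forall_congr' fun hi => forall_congr' fun hlt => ?_
  rw [h i ⟨hS hi, hlt⟩, hT i y y' (fun j hj => h j ⟨hj.1, lt_trans hj.2 hlt⟩)]

theorem Cond.Ext.le_iff_aux {α : ℕ → I} (hα : ∀ n, α n ≤ α (n + 1)) {q : ℕ → Cond I}
    (hE : ∀ n, Cond.Ext (α n) (q n) (q (n + 1))) {m n : ℕ} (h : m ≤ n) :
    α m ≤ α n ∧ Cond.Ext (α m) (q m) (q n) := by
  induction n, h using Nat.le_induction with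
  | base => exact ⟨le_rfl, Cond.Ext.refl _ _⟩
  | succ n _ ih => exact ⟨ih.1.trans (hα n), ih.2.trans (hE n) ih.1⟩

/-- Union of a coherent sequence of conditions. -/
theorem Cond.exists_union (β : I) (α : ℕ → I) (hα : ∀ n, α n ≤ α (n + 1)) (hβ : ∀ n, α n ≤ β)
    (q : ℕ → Cond I) (hq : ∀ n, (q n).Below (α n)) (hE : ∀ n, Cond.Ext (α n) (q n) (q (n + 1))) :
    ∃ p : Cond I, p.Below β ∧ (∀ n, Cond.Ext (α n) (q n) p) ∧
      (∀ i, (∀ n, α n ≤ i) → i ∉ p.S) := by
  classical
  have hE' : ∀ {m n : ℕ}, m ≤ n → α m ≤ α n ∧ Cond.Ext (α m) (q m) (q n) :=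
    fun h => Cond.Ext.le_iff_aux hα hE h
  -- the first index
  let N : I → ℕ := fun i => if h : ∃ n, i < α n then Nat.find h else 0
  have hN : ∀ i, (∃ n, i < α n) → i < α (N i) := by
    intro i h
    simp only [N, h, dif_pos]
    exact Nat.find_spec h
  have hN2 : ∀ i n, i < α n → N i ≤ n := by
    intro i n h
    have h' : ∃ n, i < α n := ⟨n, h⟩
    simp only [N, h', dif_pos]
    exact Nat.find_min' h' h
  have hTn : ∀ i n, i < α n → (q n).T i = (q (N i)).T i := by
    intro i n h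
    exact (hE' (hN2 i n h)).2.1 i (hN i ⟨n, h⟩)
  have hSn : ∀ i n, i < α n → (i ∈ (q n).S ↔ i ∈ (q (N i)).S) := by
    intro i n h
    exact (hE' (hN2 i n h)).2.2 i (hN i ⟨n, h⟩)
  let S : Set I := {i | (∃ n, i < α n) ∧ i ∈ (q (N i)).S}
  refine ⟨⟨fun i y => if ∃ n, i < α n then (q (N i)).T i y else Set.univ, S, ?_, ?_, ?_, ?_, ?_⟩,
    ?_, ?_, ?_⟩
  · intro i y
    split_ifs
    · exact (q (N i)).good i y
    · exact good_univ _
  · refine (Set.countable_iUnion fun n => (q n).scount).mono ?_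
    intro i hi
    exact Set.mem_iUnion.2 ⟨_, hi.2⟩
  · intro i hi y
    split_ifs with h
    · exact (q (N i)).full' i (fun h' => hi ⟨h, h'⟩) y
    · rfl
  · intro i y y' h
    simp only [(q (N i)).dep i y y' h]
  · intro i
    by_cases h : ∃ n, i < α n
    · simpa only [h, if_true] using (q (N i)).meas i
    · simp only [h, if_false]
      exact measurable_const
  · rintro i ⟨⟨n, hn⟩, _⟩
    exact lt_of_lt_of_le hn (hβ n)
  · intro n
    refine ⟨fun i hi => ?_, fun i hi => ?_⟩
    · funext y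
      have h : ∃ n, i < α n := ⟨n, hi⟩
      simp only [h, if_true]
      rw [hTn i n hi]
    · change ((∃ n, i < α n) ∧ i ∈ (q (N i)).S) ↔ _
      rw [hSn i n hi]
      exact ⟨fun h => h.2, fun h => ⟨⟨n, hi⟩, h⟩⟩
  · rintro i hi ⟨⟨n, hn⟩, _⟩
    exact absurd hn (not_lt.2 (hi n))

/-- A point is in the body of a condition when it is in all the restrictions to a cofinal
sequence. -/
theorem Cond.mem_body_of_restr {p : Cond I} {α : ℕ → I} (h : ∀ i ∈ p.S, ∃ n, i < α n) {y : Pt I}
    (hy : ∀ n, y ∈ (p.restr (α n)).body) : y ∈ p.body := by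
  intro i hi
  obtain ⟨n, hn⟩ := h i hi
  exact Cond.mem_restr.1 (hy n) i hi hn

end Pool.Agent.MG
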