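import Pool.Agent.Helper56_MG.AdaptBase
import Pool.Agent.Helper93_MEN.Generic

/-!
# The facts on the iteration in the form of the generic interface
-/

open MeasureTheory Set

namespace Pool.Agent.MG

open Pool.Agent.FL (Ix)
open Pool.Agent.Men (iv iv2)
open Pool.Agent.MenG (Fam PLevel)

/-! ### Measurability of the enumerations -/

theorem measurable_nxt (n : ℕ) : Measurable (fun x : R => nxt x n) := by
  have hset : ∀ k : ℕ, MeasurableSet {x : R | x k = true} := fun k =>
    (measurable_pi_apply k : Measurable fun x : R => x k) (measurableSet_singleton true)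
  refine measurable_to_countable' fun m => ?_
  have h : (fun x : R => nxt x n) ⁻¹' {m} =
      ({x | n ≤ m} ∩ {x : R | x m = true} ∩ ⋂ j : ℕ, {x : R | j < m → n ≤ j → ¬ x j = true}) ∪
      ({x | m = 0} ∩ ⋂ j : ℕ, {x : R | n ≤ j → ¬ x j = true}) := by
    ext x
    simp only [Set.mem_preimage, Set.mem_singleton_iff, Set.mem_union, Set.mem_inter_iff,
      Set.mem_iInter, Set.mem_ofPred_eq]
    by_cases hne : {k | n ≤ k ∧ x k = true}.Nonempty
    · have h1 := Nat.sInf_mem hne
      have h2 : ∀ j, j < nxt x n → n ≤ j → ¬ x j = true := fun j hj hn hx =>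
        Nat.notMem_of_lt_sInf hj ⟨hn, hx⟩
      constructor
      · intro h
        subst h
        exact Or.inl ⟨⟨h1.1, h1.2⟩, h2⟩
      · rintro (⟨⟨h3, h4⟩, h5⟩ | ⟨_, h5⟩)
        · apply le_antisymm
          · exact Nat.sInf_le ⟨h3, h4⟩
          · by_contra hcon
            rw [not_le] at hcon
            exact h5 _ hcon h1.1 h1.2
        · exact (h5 _ h1.1 h1.2).elim
    · have h0 : {k | n ≤ k ∧ x k = true} = ∅ := Set.not_nonempty_iff_eq_empty.1 hne
      have h1 : nxt x n = 0 := by
        unfold nxt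
        rw [h0]
        exact Nat.sInf_empty
      have h2 : ∀ j, n ≤ j → ¬ x j = true := fun j hj hx => by
        have : j ∈ {k | n ≤ k ∧ x k = true} := ⟨hj, hx⟩
        rw [h0] at this
        exact this
      constructor
      · intro h
        exact Or.inr ⟨h.symm.trans h1, h2⟩
      · rintro (⟨⟨h3, h4⟩, _⟩ | ⟨h5, _⟩)
        · exact (h2 _ h3 h4).elim
        · rw [h1, h5]
  rw [h]
  refine MeasurableSet.union (MeasurableSet.inter (MeasurableSet.inter (.const _) (hset m))
    (MeasurableSet.iInter fun j => ?_)) (MeasurableSet.inter (.const _)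
      (MeasurableSet.iInter fun j => ?_))
  · by_cases h1 : j < m ∧ n ≤ j
    · have : {x : R | j < m → n ≤ j → ¬ x j = true} = {x : R | x j = true}ᶜ := by
        ext x
        simp only [Set.mem_ofPred_eq, Set.mem_compl_iff]
        exact ⟨fun h => h h1.1 h1.2, fun h _ _ => h⟩
      rw [this]
      exact (hset j).compl
    · have : {x : R | j < m → n ≤ j → ¬ x j = true} = Set.univ := by
        ext x
        simp only [Set.mem_ofPred_eq, Set.mem_univ, iff_true]
        exact fun h2 h3 => (h1 ⟨h2, h3⟩).elim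
      rw [this]
      exact MeasurableSet.univ
  · by_cases h1 : n ≤ j
    · have : {x : R | n ≤ j → ¬ x j = true} = {x : R | x j = true}ᶜ := by
        ext x
        simp only [Set.mem_ofPred_eq, Set.mem_compl_iff]
        exact ⟨fun h => h h1, fun h _ => h⟩
      rw [this]
      exact (hset j).compl
    · have : {x : R | n ≤ j → ¬ x j = true} = Set.univ := by
        ext x
        simp only [Set.mem_ofPred_eq, Set.mem_univ, iff_true]
        exact fun h2 => (h1 h2).elim
      rw [this]
      exact MeasurableSet.univ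

theorem count_eq_pre (x : R) (m : ℕ) :
    Nat.count (fun k => x k = true) m = (pre x m).count true := by
  induction m with
  | zero => simp
  | succ m ih =>
    rw [Nat.count_succ, pre_succ, List.count_append, ih]
    cases h : x m <;> simp

theorem measurable_el (n : ℕ) : Measurable (fun x : R => el x n) := by
  have hset : ∀ k : ℕ, MeasurableSet {x : R | x k = true} := fun k =>
    (measurable_pi_apply k : Measurable fun x : R => x k) (measurableSet_singleton true)
  have hcnt : ∀ m : ℕ, MeasurableSet {x : R | Nat.count (fun k => x k = true) m = n} := by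
    intro m
    have : {x : R | Nat.count (fun k => x k = true) m = n} =
        ⋃ s ∈ {s : Node | s.count true = n}, {x : R | pre x m = s} := by
      ext x
      simp only [Set.mem_ofPred_eq, Set.mem_iUnion, exists_prop]
      rw [count_eq_pre]
      exact ⟨fun h => ⟨_, h, rfl⟩, fun ⟨s, h, h'⟩ => by rw [h']; exact h⟩
    rw [this]
    exact MeasurableSet.biUnion (Set.to_countable _) fun s _ => measurableSet_pre_eq m s
  have hA : ∀ m : ℕ, MeasurableSet {x : R | x m = true ∧ Nat.count (fun k => x k = true) m = n} :=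
    fun m => (hset m).inter (hcnt m)
  refine measurable_to_countable' fun m => ?_
  have h : (fun x : R => el x n) ⁻¹' {m} =
      {x : R | x m = true ∧ Nat.count (fun k => x k = true) m = n} ∪
      ({x | m = 0} ∩ ⋂ j : ℕ, {x : R | x j = true ∧ Nat.count (fun k => x k = true) j = n}ᶜ) := by
    ext x
    simp only [Set.mem_preimage, Set.mem_singleton_iff, Set.mem_union, Set.mem_inter_iff,
      Set.mem_iInter, Set.mem_ofPred_eq, Set.mem_compl_iff]
    by_cases hne : ∃ j, x j = true ∧ Nat.count (fun k => x k = true) j = n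
    · obtain ⟨j, hj1, hj2⟩ := hne
      have h1 : el x n = j := by
        unfold el
        rw [← hj2]
        exact Nat.nth_count hj1
      constructor
      · intro h
        rw [h1] at h
        subst h
        exact Or.inl ⟨hj1, hj2⟩
      · rintro (⟨h3, h4⟩ | ⟨_, h5⟩)
        · unfold el
          rw [← h4]
          exact Nat.nth_count h3
        · exact (h5 j ⟨hj1, hj2⟩).elim
    · have h1 : el x n = 0 := by
        unfold el
        by_contra hcon
        apply hne
        by_cases hf : ∃ hf : (Set.ofPred fun k => x k = true).Finite, hf.toFinset.card ≤ n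
        · obtain ⟨hf, hc⟩ := hf
          exact (hcon (Nat.nth_of_card_le hf hc)).elim
        · push Not at hf
          exact ⟨_, Nat.nth_mem n hf, Nat.count_nth hf⟩
      constructor
      · intro h
        exact Or.inr ⟨h.symm.trans h1, fun j hj => hne ⟨j, hj⟩⟩
      · rintro (h3 | ⟨h5, _⟩)
        · exact (hne ⟨m, h3⟩).elim
        · rw [h1, h5]
  rw [h]
  exact (hA m).union (MeasurableSet.inter (.const _) (MeasurableSet.iInter fun j => (hA j).compl))

/-! ### The data -/

/-- The data of the interface. -/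
noncomputable def DD : Fam PT PP (Ix × Finset ℕ) (Bool × Ix × Finset ℕ) Ix where
  rb := rbT
  xr := fun i z => fX i (exT z)
  yr := fun j z => fY j (exT z)
  tt := fun γ z n => nxt (exT z (JJ.m γ)) n
  dm := fun b z n => el (exT z (JJ.m b)) n

section
variable (rel : PP → (PT → ℝ) → Prop)

/-- Transfer of relations. -/
def tr (r : PP) (f : PJ → ℝ) : Prop := rel r (fun z => f (exT z))

theorem tr_reT {r : PP} {f : PT → ℝ} : tr rel r (fun y => f (reT y)) ↔ rel r f := by
  unfold tr
  simp only [reT_exT]

theorem cov_iff {d : PP} {c : PJ → ℕ → ℕ} (hc : Dep te c) :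
    JCov (tr rel) d c ↔ MenG.Cov DD rel d (fun z => c (exT z)) := by
  constructor
  · intro h d' hd f hf hr n hcon
    refine h d' hd (fun y => f (reT y)) (nm_comp_reT hf) ((tr_reT rel).2 hr) n ?_
    intro y hy k
    have h1 := hcon (reT y) (reT_mem.2 hy) k
    beta_reduce at h1
    rwa [show c (exT (reT y)) = c y from dep_exT_reT hc y] at h1
  · intro h d' hd f hf hr n hcon
    exact h d' hd (fun z => f (exT z)) hf.comp_exT hr n fun z hz k => hcon (exT z) hz k

theorem covH_iff {d : PP} {c h : PJ → ℕ → ℕ} (hc : Dep te c) (hh : Dep te h) :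
    JCovH (tr rel) d c h ↔ MenG.CovH DD rel d (fun z => c (exT z)) (fun z => h (exT z)) := by
  constructor
  · intro H d' hd f hf hr hcon
    refine H d' hd (fun y => f (reT y)) (nm_comp_reT hf) ((tr_reT rel).2 hr) ?_
    intro y hy n k hk
    have h1 := hcon (reT y) (reT_mem.2 hy) n k (by
      show k ≤ h (exT (reT y)) n
      rwa [show h (exT (reT y)) = h y from dep_exT_reT hh y])
    beta_reduce at h1
    rwa [show c (exT (reT y)) = c y from dep_exT_reT hc y] at h1
  · intro H d' hd f hf hr hcon
    exact H d' hd (fun z => f (exT z)) hf.comp_exT hr fun z hz n k hk => hcon (exT z) hz n k hk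

theorem menRel_tr {e : PP} (h : MenG.MenRel DD rel e) : JMenRel (tr rel) e := by
  intro d hd c hc hcov
  obtain ⟨d', hd', h', hh', hcovh⟩ := h d hd (fun z => c (exT z)) hc.comp_exT
    ((cov_iff rel hc.2).1 hcov)
  refine ⟨d', hd', fun y => h' (reT y), nm_comp_reT hh', ?_⟩
  rw [covH_iff rel hc.2 (nm_comp_reT hh').2]
  simpa only [reT_exT] using hcovh

end

theorem menFam_tr {κ : Type} (fr : κ → PJ → ℝ) (hfr : ∀ i, Dep te (fr i)) (h : JMenFam fr) :
    MenG.MenFam DD (fun i z => fr i (exT z)) := by
  intro e c hc hcov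
  obtain ⟨h', hh', hcovh⟩ := h e (fun y => c (reT y)) (nm_comp_reT hc) (by
    intro i d hd n hcon
    refine hcov i d hd n fun z hz k => ?_
    have h1 := hcon (exT z) hz k
    simpa only [reT_exT] using h1)
  refine ⟨fun z => h' (exT z), hh'.comp_exT, ?_⟩
  intro i d hd hcon
  refine hcovh i d hd fun y hy n k hk => ?_
  have h1 := hcon (reT y) (reT_mem.2 hy) n k (by
    show k ≤ h' (exT (reT y)) n
    rwa [show h' (exT (reT y)) = h' y from dep_exT_reT hh'.2 y])
  change fr i (exT (reT y)) ∉ _ at h1
  rwa [show fr i (exT (reT y)) = fr i y from dep_exT_reT (hfr i) y] at h1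

theorem fX_nm (hEx : JExStmt) (i : Ix × Finset ℕ) : Nm (fX i) :=
  ⟨(hEx.1 i).1, (hEx.1 i).2.mono (le_of_lt (by simp))⟩

theorem fY_nm (hEx : JExStmt) (i : Bool × Ix × Finset ℕ) : Nm (fY i) :=
  ⟨(hEx.2 i).1, (hEx.2 i).2.mono (le_of_lt (by simp))⟩

/-- All the facts on the iteration give the interface of the final part. -/
theorem adapt (hDec : JDecStmt) (hBr : JBrStmt) (hReap : JReapStmt) (hGpl : JGplStmt)
    (hEx : JExStmt) (hND : JNDomStmt) (hDom : JDomStmt) (hAdd : JAddStmt) (hX : JXmenStmt)
    (hY : JYmenStmt) (hNP : JNProdStmt) : PLevel DD where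
  nonempty := ⟨⟨Cond.one JJ, by
    rw [VB_iff]
    refine ⟨fun i hi => hi.elim, fun i _ _ p0 hp0 hle => ?_⟩
    refine ⟨p0, le_rfl, hp0, bt, fun _ => Set.univ, bt_le _, measurable_const, fun _ _ _ => rfl,
      ?_, fun y _ => rfl⟩
    rw [Fr_iff]
    intro ε hε
    exact absurd hε (not_lt.2 (bt_le ε))⟩⟩
  pf := ⟨measurableSet_rbT, rbT_nonempty, fun p q => rbT_le⟩
  dec := by
    intro r A hA
    obtain ⟨r', hr', h⟩ := hDec r {y | reT y ∈ A} ⟨measurable_reT hA, fun y y' h => by
      show (reT y ∈ A) = (reT y' ∈ A)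
      rw [reT_congr h]⟩
    refine ⟨r', hr', h.imp (fun h z hz => ?_) (fun h z hz => ?_)⟩
    · have h1 : reT (exT z) ∈ A := h hz
      rwa [reT_exT] at h1
    · have h1 : reT (exT z) ∉ A := h hz
      rwa [reT_exT] at h1
  br := by
    intro r D h1 h2
    obtain ⟨r', hr', h⟩ := hBr r D h1 h2
    refine ⟨r', hr', fun i => ?_⟩
    obtain ⟨E, hE1, hE2, hE3⟩ := h i
    refine ⟨E, hE1, hE2, fun z hz => ?_⟩
    have h4 := hE3 hz
    simp only [Set.mem_iUnion, exists_prop] at h4 ⊢
    exact h4
  gpl := by
    intro W cd hcd ops D h1 h2 p W0 hW0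
    obtain ⟨H, h3, h4, h5, h6, g, hg, h7⟩ := hGpl W cd hcd ops D h1 h2 p W0 hW0
    refine ⟨H, h3, h4, h5, h6, reT g, reT_mem.2 hg, fun i l hl => ?_⟩
    obtain ⟨d, hd1, hd2, hd3⟩ := h7 i l hl
    exact ⟨d, hd1, hd2, reT_mem.2 hd3⟩
  reap := by
    intro r S hS
    obtain ⟨r', hr', A, hA, h⟩ := hReap r (fun y => S (reT y)) (nm_comp_reT hS)
    refine ⟨r', hr', A, hA, h.imp (fun h z hz => ?_) (fun h z hz => ?_)⟩
    · have h1 := h (exT z) hz
      rwa [reT_exT] at h1
    · have h1 := h (exT z) hz
      rwa [reT_exT] at h1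
  mtt := by
    intro γ
    refine measurable_pi_lambda _ fun n => ?_
    exact (measurable_nxt n).comp ((measurable_pi_apply (JJ.m γ)).comp measurable_exT)
  ndom := by
    intro ι hι rel hmono e hdense
    obtain ⟨γ, hγ⟩ := hND ι hι (fun i r f => rel i r (fun z => f (exT z)))
      (fun i r r' f hr h => hmono i r r' _ hr h) e (by
        intro i r hr
        obtain ⟨r', hr', f, hf, h⟩ := hdense i r hr
        refine ⟨r', hr', fun y => f (reT y), nm_comp_reT hf, ?_⟩
        simpa only [reT_exT] using h)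
    refine ⟨γ, fun i r hr m => ?_⟩
    obtain ⟨r', hr', f, hf, hrel, n, hn, h⟩ := hγ i r hr m
    exact ⟨r', hr', fun z => f (exT z), hf.comp_exT, hrel, n, hn, fun z hz => h (exT z) hz⟩
  mdm := by
    intro b
    refine measurable_pi_lambda _ fun n => ?_
    exact (measurable_el n).comp ((measurable_pi_apply (JJ.m b)).comp measurable_exT)
  dom := by
    intro h hh r
    obtain ⟨r', hr', b, _, h1⟩ := hDom (fun y => h (reT y)) (nm_comp_reT hh) r ixb
    refine ⟨r', hr', b, fun z hz n => ?_⟩
    have h2 := (h1 (exT z) hz).2 n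
    rwa [reT_exT] at h2
  add := by
    intro ι hι rel hmono _ e hmen c hc hcov
    obtain ⟨h, hh, hcovh⟩ := hAdd ι hι (fun i => tr (rel i)) (fun i r r' f hr h =>
      hmono i r r' _ hr h) e (fun i => menRel_tr (rel i) (hmen i)) (fun y => c (reT y))
      (nm_comp_reT hc) (fun i => by
        rw [cov_iff (rel i) (nm_comp_reT hc).2]
        simpa only [reT_exT] using hcov i)
    refine ⟨fun z => h (exT z), hh.comp_exT, fun i => ?_⟩
    have h1 := (covH_iff (rel i) (nm_comp_reT hc).2 hh.2).1 (hcovh i)
    simpa only [reT_exT] using h1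
  mx := fun i => (fX_nm hEx i).comp_exT
  my := fun i => (fY_nm hEx i).comp_exT
  menx := menFam_tr fX (fun i => (fX_nm hEx i).2) hX
  meny := menFam_tr fY (fun i => (fY_nm hEx i).2) hY
  nprod := by
    obtain ⟨cc, h1, h2⟩ := hNP
    refine ⟨cc, fun i j r n => ?_, fun h hh r => ?_⟩
    · obtain ⟨r', hr', k, hk⟩ := h1 i j r n
      exact ⟨r', hr', k, fun z hz => hk (exT z) hz⟩
    · obtain ⟨r', hr', i, j, hij⟩ := h2 (fun y => h (reT y)) (nm_comp_reT hh) r
      refine ⟨r', hr', i, j, fun z hz n k hk => ?_⟩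
      refine hij (exT z) hz n k ?_
      rwa [reT_exT]

end Pool.Agent.MG
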