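import Pool.Agent.Helper56_MG.Base2
import Pool.Agent.Helper56_MG.Stmts2

/-!
# Points with coordinates below `te` only
-/

open Set

namespace Pool.Agent.MG

open Pool.Agent.FL (Ix)

/-- Coordinates of the iteration. -/
abbrev JT : Type := {i : JJ // i < te}

/-- Points of the iteration. -/
abbrev PT : Type := JT → R

open Classical in
/-- Extension of a point. -/
noncomputable def exT (z : PT) : PJ := fun i => if h : i < te then z ⟨i, h⟩ else fun _ => false

/-- Restriction of a point. -/
def reT (y : PJ) : PT := fun i => y i.1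

theorem reT_exT (z : PT) : reT (exT z) = z := by
  funext i
  simp [reT, exT, i.2]

theorem exT_reT (y : PJ) {i : JJ} (h : i < te) : exT (reT y) i = y i := by
  simp [reT, exT, h]

theorem measurable_reT : Measurable reT := measurable_pi_lambda _ fun i => measurable_pi_apply i.1

theorem measurable_exT : Measurable exT := by
  refine measurable_pi_lambda _ fun i => ?_
  by_cases h : i < te
  · have : (fun z : PT => exT z i) = fun z => z ⟨i, h⟩ := by
      funext z
      simp [exT, h]
    rw [this]
    exact measurable_pi_apply _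
  · have : (fun z : PT => exT z i) = fun _ => fun _ => false := by
      funext z
      simp [exT, h]
    rw [this]
    exact measurable_const

theorem reT_congr {y y' : PJ} (h : ∀ i, i < te → y i = y' i) : reT y = reT y' := by
  funext i
  exact h i.1 i.2

theorem nm_comp_reT {X : Type*} [MeasurableSpace X] {f : PT → X} (hf : Measurable f) :
    Nm (fun y => f (reT y)) :=
  ⟨hf.comp measurable_reT, fun y y' h => by show f _ = f _; rw [reT_congr h]⟩

theorem Nm.comp_exT {X : Type*} [MeasurableSpace X] {f : PJ → X} (hf : Nm f) :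
    Measurable (fun z => f (exT z)) := hf.1.comp measurable_exT

theorem dep_exT_reT {β : Sort*} {f : PJ → β} (hf : Dep te f) (y : PJ) :
    f (exT (reT y)) = f y := hf _ _ fun _ h => exT_reT y h

/-- The set of points of a condition. -/
def rbT (r : PP) : Set PT := {z | exT z ∈ r.1.body}

theorem PP.below (r : PP) : r.1.Below te := ((VB_iff te r.1).1 r.2).1

theorem mem_rbT {r : PP} {z : PT} : z ∈ rbT r ↔ exT z ∈ r.1.body := Iff.rfl

theorem reT_mem {r : PP} {y : PJ} : reT y ∈ rbT r ↔ y ∈ r.1.body := by
  rw [mem_rbT]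
  exact r.below.mem_congr fun i h => exT_reT y h

theorem rbT_le {r r' : PP} : r ≤ r' ↔ rbT r ⊆ rbT r' := by
  rw [PP.le_def]
  constructor
  · intro h z hz
    exact h hz
  · intro h y hy
    exact reT_mem.1 (h (reT_mem.2 hy))

theorem rbT_nonempty (r : PP) : (rbT r).Nonempty := by
  obtain ⟨y, hy⟩ := r.1.body_nonempty
  exact ⟨reT y, reT_mem.2 hy⟩

theorem measurableSet_rbT (r : PP) : MeasurableSet (rbT r) :=
  measurable_exT r.1.measurableSet_body

theorem forall_rbT {r : PP} {φ : PJ → Prop} (hφ : Dep te φ) :
    (∀ z ∈ rbT r, φ (exT z)) ↔ ∀ y ∈ r.1.body, φ y := by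
  constructor
  · intro h y hy
    have h1 := h (reT y) (reT_mem.2 hy)
    rwa [dep_exT_reT hφ] at h1
  · intro h z hz
    exact h _ hz

theorem forall_rbT' {r : PP} {φ : PT → Prop} :
    (∀ z ∈ rbT r, φ z) ↔ ∀ y ∈ r.1.body, φ (reT y) := by
  constructor
  · intro h y hy
    exact h _ (reT_mem.2 hy)
  · intro h z hz
    have h1 := h _ hz
    rwa [reT_exT] at h1

end Pool.Agent.MG
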