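import Pool.Agent.Helper56_MG.Defs

/-!
# Base 1: nodes, branches, trees, measurability
-/

open Set

namespace Pool.Agent.MG

/-! ### Nodes and branches -/

@[simp] theorem pre_zero (x : R) : pre x 0 = [] := rfl

theorem pre_succ (x : R) (n : ℕ) : pre x (n + 1) = pre x n ++ [x n] := by
  simp [pre, List.range_succ]

@[simp] theorem length_pre (x : R) (n : ℕ) : (pre x n).length = n := by
  simp [pre]

theorem getElem_pre (x : R) (n i : ℕ) (h : i < (pre x n).length) : (pre x n)[i] = x i := by
  simp [pre]

theorem pre_isPrefix (x : R) {m n : ℕ} (h : m ≤ n) : pre x m <+: pre x n := by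
  induction n, h using Nat.le_induction with
  | base => exact List.prefix_rfl
  | succ n _ ih => rw [pre_succ]; exact ih.trans (List.prefix_append _ _)

theorem pre_eq_pre_iff {x x' : R} {n : ℕ} : pre x n = pre x' n ↔ ∀ i < n, x i = x' i := by
  simp [pre]

theorem take_pre (x : R) {m n : ℕ} (h : m ≤ n) : (pre x n).take m = pre x m := by
  obtain ⟨l, hl⟩ := pre_isPrefix x h
  rw [← hl, List.take_append_of_le_length (by simp)]
  simp

theorem eq_of_pre {x x' : R} (h : ∀ n, pre x n = pre x' n) : x = x' := by
  funext i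
  exact pre_eq_pre_iff.1 (h (i + 1)) i (Nat.lt_succ_self i)

theorem on_iff_prefix {s : Node} {x : R} {n : ℕ} (h : s.length ≤ n) : On s x ↔ s <+: pre x n := by
  constructor
  · intro h1
    have h2 := pre_isPrefix x h
    rw [h1] at h2
    exact h2
  · intro h1
    have h2 : s = (pre x n).take s.length := (List.prefix_iff_eq_take.1 h1)
    rw [take_pre x h] at h2
    exact h2.symm

theorem On.of_prefix {s t : Node} {x : R} (h : On t x) (hst : s <+: t) : On s x := by
  rw [on_iff_prefix (n := t.length) hst.length_le]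
  rw [h]
  exact hst

/-- Two nodes of the same branch are comparable. -/
theorem On.comparable {s t : Node} {x : R} (hs : On s x) (ht : On t x) : s <+: t ∨ t <+: s := by
  rcases le_total s.length t.length with h | h
  · left
    have h1 := (on_iff_prefix h).1 hs
    rw [ht] at h1
    exact h1
  · right
    have h1 := (on_iff_prefix h).1 ht
    rw [hs] at h1
    exact h1

theorem on_nil (x : R) : On [] x := rfl

theorem on_pre (x : R) (n : ℕ) : On (pre x n) x := by
  unfold On
  rw [length_pre]

theorem chain_prefix {s : ℕ → Node} (h : ∀ n, s n <+: s (n + 1)) {m n : ℕ} (hmn : m ≤ n) :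
    s m <+: s n := by
  induction n, hmn using Nat.le_induction with
  | base => exact List.prefix_rfl
  | succ n _ ih => exact ih.trans (h n)

/-- The limit of an increasing sequence of nodes with lengths tending to infinity. -/
theorem exists_limit (s : ℕ → Node) (h : ∀ n, s n <+: s (n + 1)) (hl : ∀ n, n ≤ (s n).length) :
    ∃ x : R, ∀ n, On (s n) x := by
  refine ⟨fun i => (s (i + 1)).getD i false, fun n => ?_⟩
  unfold On
  apply List.ext_getElem
  · simp
  · intro i h1 h2
    rw [getElem_pre]
    have h3 : i < (s (i + 1)).length := lt_of_lt_of_le (Nat.lt_succ_self i) (hl (i + 1))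
    rw [List.getD_eq_getElem _ _ h3]
    rcases le_total n (i + 1) with hn | hn
    · exact ((chain_prefix h hn).getElem h2).symm
    · exact (chain_prefix h hn).getElem h3

theorem down_of_prefix {T : Set Node} (hd : ∀ s a, s ++ [a] ∈ T → s ∈ T) {s t : Node}
    (h : s <+: t) (ht : t ∈ T) : s ∈ T := by
  obtain ⟨l, rfl⟩ := h
  induction l using List.reverseRecOn with
  | nil => simpa using ht
  | append_singleton l a ih =>
    rw [← List.append_assoc] at ht
    exact ih (hd _ _ ht)

/-- A proper extension of a node passes through one of the two successors. -/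
theorem exists_succ_prefix {s t : Node} (h : s <+: t) (hl : s.length < t.length) :
    ∃ a : Bool, s ++ [a] <+: t := by
  obtain ⟨l, rfl⟩ := h
  cases l with
  | nil => simp at hl
  | cons a l => exact ⟨a, l, by simp⟩

/-- Compactness: a downward closed set of nodes with arbitrarily long elements has a branch. -/
theorem exists_branch_of_infinite (T : Set Node) (hd : ∀ s a, s ++ [a] ∈ T → s ∈ T)
    (hinf : ∀ n, ∃ s ∈ T, s.length = n) : ∃ x, x ∈ bS T := by
  classical
  let P : Node → Prop := fun s => ∀ n, ∃ t ∈ T, s <+: t ∧ n ≤ t.length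
  have h0 : P [] := fun n => by
    obtain ⟨s, h1, h2⟩ := hinf n
    exact ⟨s, h1, List.nil_prefix, h2.ge⟩
  have h1 : ∀ s, P s → ∃ a : Bool, P (s ++ [a]) := by
    intro s hs
    by_contra hcon
    push Not at hcon
    have h2 := hcon false
    have h3 := hcon true
    simp only [P, not_forall] at h2 h3
    obtain ⟨n0, h2⟩ := h2
    obtain ⟨n1, h3⟩ := h3
    obtain ⟨t, ht, hst, hn⟩ := hs (max (max n0 n1) (s.length + 1))
    obtain ⟨a, ha⟩ := exists_succ_prefix hst (by
      have := le_max_right (max n0 n1) (s.length + 1)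
      omega)
    have hn0 : n0 ≤ t.length := le_trans (le_trans (le_max_left _ _) (le_max_left _ _)) hn
    have hn1 : n1 ≤ t.length := le_trans (le_trans (le_max_right _ _) (le_max_left _ _)) hn
    cases a
    · exact h2 ⟨t, ht, ha, hn0⟩
    · exact h3 ⟨t, ht, ha, hn1⟩
  choose! a ha using h1
  let g : ℕ → Node := fun k => Nat.rec [] (fun _ s => s ++ [a s]) k
  have hgs : ∀ k, g (k + 1) = g k ++ [a (g k)] := fun k => rfl
  have hgP : ∀ k, P (g k) := by
    intro k
    induction k with
    | zero => exact h0
    | succ k ih => rw [hgs]; exact ha _ ih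
  have hgl : ∀ k, (g k).length = k := by
    intro k
    induction k with
    | zero => rfl
    | succ k ih => rw [hgs]; simp [ih]
  obtain ⟨x, hx⟩ := exists_limit g (fun n => by rw [hgs]; exact List.prefix_append _ _)
    (fun n => (hgl n).ge)
  refine ⟨x, fun n => ?_⟩
  have h2 := hx n
  unfold On at h2
  rw [hgl] at h2
  rw [h2]
  obtain ⟨t, ht, hst, _⟩ := hgP n 0
  exact down_of_prefix hd hst ht

/-! ### Good trees -/

theorem Good.mem_of_isPrefix {b : Bool} {T : Set Node} (hT : Good b T) {s t : Node} (h : s <+: t)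
    (ht : t ∈ T) : s ∈ T :=
  down_of_prefix hT.down h ht

/-- Splitting nodes have extensions which end with a one. -/
theorem Good.exists_one {b : Bool} {T : Set Node} (hT : Good b T) {s : Node} (hs : s ∈ T) :
    ∃ u, s <+: u ∧ u ++ [true] ∈ T := by
  obtain ⟨t, ht, hst, hsp⟩ := hT.spl s hs
  cases b with
  | false => exact ⟨t, hst, hsp.2⟩
  | true =>
    obtain ⟨k, _, hk⟩ := hsp 0
    exact ⟨t ++ List.replicate k false, hst.trans (List.prefix_append _ _), hk⟩

/-- Every node of a good tree lies on a branch of the body. -/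
theorem Good.exists_branch {b : Bool} {T : Set Node} (hT : Good b T) {s : Node} (h : s ∈ T) :
    ∃ x ∈ bd b T, On s x := by
  classical
  have h1 : ∀ t : Node, ∃ u : Node, t ∈ T → t <+: u ∧ u ++ [true] ∈ T := by
    intro t
    by_cases ht : t ∈ T
    · obtain ⟨u, hu⟩ := hT.exists_one ht
      exact ⟨u, fun _ => hu⟩
    · exact ⟨[], fun h => absurd h ht⟩
  choose e he using h1
  let g : ℕ → Node := fun k => Nat.rec s (fun _ t => e t ++ [true]) k
  have hgs : ∀ k, g (k + 1) = e (g k) ++ [true] := fun k => rfl
  have hgT : ∀ k, g k ∈ T := by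
    intro k
    induction k with
    | zero => exact h
    | succ k ih => rw [hgs]; exact (he _ ih).2
  have hpe : ∀ k, g k <+: e (g k) := fun k => (he _ (hgT k)).1
  have hp : ∀ k, g k <+: g (k + 1) := fun k => by
    rw [hgs]
    exact (hpe k).trans (List.prefix_append _ _)
  have hgl : ∀ k, k ≤ (g k).length := by
    intro k
    induction k with
    | zero => exact Nat.zero_le _
    | succ k ih =>
      rw [hgs, List.length_append, List.length_singleton]
      have := (hpe k).length_le
      omega
  obtain ⟨x, hx⟩ := exists_limit g hp hgl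
  refine ⟨x, ⟨fun n => ?_, fun _ n => ?_⟩, hx 0⟩
  · have h2 : pre x n <+: g n := by
      have h3 := pre_isPrefix x (hgl n)
      rw [hx n] at h3
      exact h3
    exact hT.mem_of_isPrefix h2 (hgT n)
  · refine ⟨(e (g n)).length, (hgl n).trans (hpe n).length_le, ?_⟩
    have h2 := hx (n + 1)
    unfold On at h2
    have h3 : (e (g n)).length < (g (n + 1)).length := by
      rw [hgs, List.length_append, List.length_singleton]
      omega
    have h4 : (pre x (g (n + 1)).length)[(e (g n)).length]'(by simpa using h3) =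
        (g (n + 1))[(e (g n)).length] := by
      simp only [h2]
    rw [getElem_pre] at h4
    rw [h4]
    simp [hgs]

theorem Good.bd_nonempty {b : Bool} {T : Set Node} (hT : Good b T) : (bd b T).Nonempty := by
  obtain ⟨x, hx, _⟩ := hT.exists_branch hT.nil
  exact ⟨x, hx⟩

theorem bS_mono {T T' : Set Node} (h : T ⊆ T') : bS T ⊆ bS T' := fun _ hx n => h (hx n)

theorem bd_mono {b : Bool} {T T' : Set Node} (h : T ⊆ T') : bd b T ⊆ bd b T' :=
  fun _ hx => ⟨bS_mono h hx.1, hx.2⟩

theorem bd_subset_bS {b : Bool} {T : Set Node} : bd b T ⊆ bS T := fun _ h => h.1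

theorem bd_false {T : Set Node} : bd false T = bS T := by
  ext x
  exact ⟨fun h => h.1, fun h => ⟨h, fun h' => by simp at h'⟩⟩

theorem Good.subset_of_bd {b : Bool} {T T' : Set Node} (hT : Good b T) (h : bd b T ⊆ bS T') :
    T ⊆ T' := by
  intro s hs
  obtain ⟨x, hx, h1⟩ := hT.exists_branch hs
  have h2 := h hx s.length
  rw [h1] at h2
  exact h2

/-- The part of a good tree compatible with one of its nodes is a good tree. -/
theorem Good.subT {b : Bool} {T : Set Node} (hT : Good b T) {t : Node} (ht : t ∈ T) :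
    Good b (MG.subT T t) := by
  refine ⟨⟨hT.nil, Or.inl List.nil_prefix⟩, ?_, ?_⟩
  · rintro s a ⟨h1, h2⟩
    refine ⟨hT.down _ _ h1, ?_⟩
    rcases h2 with h2 | h2
    · exact Or.inl ((List.prefix_append _ _).trans h2)
    · rcases List.prefix_concat_iff.1 h2 with h3 | h3
      · left
        rw [h3]
        exact List.prefix_append _ _
      · exact Or.inr h3
  · rintro s ⟨h1, h2⟩
    obtain ⟨s', hs', h3, h4⟩ : ∃ s' ∈ T, s <+: s' ∧ t <+: s' := by
      rcases h2 with h2 | h2
      · exact ⟨t, ht, h2, List.prefix_rfl⟩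
      · exact ⟨s, h1, List.prefix_rfl, h2⟩
    obtain ⟨u, hu, h5, h6⟩ := hT.spl s' hs'
    have h7 := h4.trans h5
    refine ⟨u, ⟨hu, Or.inr h7⟩, h3.trans h5, ?_⟩
    cases b with
    | false =>
      exact ⟨⟨h6.1, Or.inr (h7.trans (List.prefix_append _ _))⟩,
        ⟨h6.2, Or.inr (h7.trans (List.prefix_append _ _))⟩⟩
    | true =>
      intro n
      obtain ⟨k, hk, h8⟩ := h6 n
      exact ⟨k, hk, h8, Or.inr ((h7.trans (List.prefix_append _ _)).trans
        (List.prefix_append _ _))⟩

theorem mem_bS_subT_iff {T : Set Node} {t : Node} {x : R} :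
    x ∈ bS (subT T t) ↔ x ∈ bS T ∧ On t x := by
  constructor
  · intro h
    refine ⟨fun n => (h n).1, ?_⟩
    have h1 := (h t.length).2
    rcases h1 with h1 | h1
    · exact h1.eq_of_length (by simp)
    · exact (h1.eq_of_length (by simp)).symm
  · rintro ⟨h1, h2⟩ n
    exact ⟨h1 n, On.comparable (on_pre x n) h2⟩

theorem bd_subT {b : Bool} {T : Set Node} {t : Node} :
    bd b (subT T t) = {x | x ∈ bd b T ∧ On t x} := by
  ext x
  constructor
  · intro h
    have h1 := mem_bS_subT_iff.1 h.1
    exact ⟨⟨h1.1, h.2⟩, h1.2⟩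
  · rintro ⟨h1, h2⟩
    exact ⟨mem_bS_subT_iff.2 ⟨h1.1, h2⟩, h1.2⟩

theorem mem_bS_subT {T : Set Node} {t : Node} {x : R} (hx : x ∈ bS (subT T t)) :
    x ∈ bS T ∧ On t x := mem_bS_subT_iff.1 hx

/-! ### Measurability -/

theorem measurableSet_mem_node (s : Node) : MeasurableSet {T : Set Node | s ∈ T} :=
  measurableSet_setOfPred.2 (measurable_set_mem s)

theorem measurableSet_mem_pair (s : Node × Node) :
    MeasurableSet {H : Set (Node × Node) | s ∈ H} :=
  measurableSet_setOfPred.2 (measurable_set_mem s)

theorem measurable_set_iff' {Ω α : Type*} [MeasurableSpace Ω] {T : Ω → Set α} :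
    Measurable T ↔ ∀ s, MeasurableSet {w | s ∈ T w} :=
  measurable_set_iff.trans (forall_congr' fun _ => measurableSet_setOfPred.symm)

/-- A function to sets of nodes is measurable as soon as membership of every node is. -/
theorem measurable_node_iff {Ω : Type*} [MeasurableSpace Ω] {T : Ω → Set Node} :
    Measurable T ↔ ∀ s, MeasurableSet {w | s ∈ T w} := measurable_set_iff'

theorem measurable_pair_iff {Ω : Type*} [MeasurableSpace Ω] {T : Ω → Set (Node × Node)} :
    Measurable T ↔ ∀ s, MeasurableSet {w | s ∈ T w} := measurable_set_iff'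

theorem measurable_nat_iff {Ω : Type*} [MeasurableSpace Ω] {T : Ω → Set ℕ} :
    Measurable T ↔ ∀ n, MeasurableSet {w | n ∈ T w} := measurable_set_iff'

theorem measurableSet_coord_eq (n : ℕ) (a : Bool) : MeasurableSet {x : R | x n = a} := by
  have h : Measurable (fun x : R => x n) := measurable_pi_apply n
  exact h (measurableSet_singleton a)

theorem measurableSet_pre_eq (n : ℕ) (s : Node) : MeasurableSet {x : R | pre x n = s} := by
  by_cases h : n = s.length
  · have : {x : R | pre x n = s} = ⋂ i : Fin n, {x : R | x i = s.getD i false} := by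
      ext x
      simp only [Set.mem_ofPred_eq, Set.mem_iInter]
      constructor
      · rintro rfl i
        rw [List.getD_eq_getElem _ _ (by simp), getElem_pre]
      · intro hi
        apply List.ext_getElem
        · simpa using h
        · intro i h1 h2
          have h3 := hi ⟨i, by simpa using h1⟩
          rw [getElem_pre]
          rw [List.getD_eq_getElem _ _ h2] at h3
          exact h3
    rw [this]
    exact MeasurableSet.iInter fun i => measurableSet_coord_eq (i : ℕ) (s.getD i false)
  · have : {x : R | pre x n = s} = ∅ := by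
      ext x
      simp only [Set.mem_ofPred_eq, Set.mem_empty_iff_false, iff_false]
      rintro rfl
      exact h (by simp)
    rw [this]
    exact MeasurableSet.empty

theorem measurableSet_on (s : Node) : MeasurableSet {x : R | On s x} :=
  measurableSet_pre_eq s.length s

theorem measurableSet_inf1 : MeasurableSet {x : R | Inf1 x} := by
  have : {x : R | Inf1 x} = ⋂ n : ℕ, ⋃ k : ℕ, {x : R | n ≤ k ∧ x k = true} := by
    ext x
    simp [Inf1]
  rw [this]
  refine MeasurableSet.iInter fun n => MeasurableSet.iUnion fun k => ?_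
  by_cases h : n ≤ k
  · have : {x : R | n ≤ k ∧ x k = true} = {x : R | x k = true} := by
      ext x
      simp [h]
    rw [this]
    exact measurableSet_coord_eq k true
  · have : {x : R | n ≤ k ∧ x k = true} = ∅ := by
      ext x
      simp [h]
    rw [this]
    exact MeasurableSet.empty

theorem measurableSet_pre_mem {Ω : Type*} [MeasurableSpace Ω] {f : Ω → R} {T : Ω → Set Node}
    (hf : Measurable f) (hT : Measurable T) (m : ℕ) : MeasurableSet {w | pre (f w) m ∈ T w} := by
  have : {w | pre (f w) m ∈ T w} = ⋃ s : Node, {w | pre (f w) m = s} ∩ {w | s ∈ T w} := by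
    ext w
    simp
  rw [this]
  exact MeasurableSet.iUnion fun s =>
    (hf (measurableSet_pre_eq m s)).inter (hT (measurableSet_mem_node s))

theorem measurableSet_mem_bS {Ω : Type*} [MeasurableSpace Ω] {f : Ω → R} {T : Ω → Set Node}
    (hf : Measurable f) (hT : Measurable T) : MeasurableSet {w | f w ∈ bS (T w)} := by
  have : {w | f w ∈ bS (T w)} = ⋂ m, {w | pre (f w) m ∈ T w} := by
    ext w
    simp [bS]
  rw [this]
  exact MeasurableSet.iInter fun m => measurableSet_pre_mem hf hT m

theorem measurableSet_mem_bd {Ω : Type*} [MeasurableSpace Ω] {f : Ω → R} {T : Ω → Set Node}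
    (hf : Measurable f) (hT : Measurable T) (b : Bool) : MeasurableSet {w | f w ∈ bd b (T w)} := by
  cases b with
  | false =>
    have : {w | f w ∈ bd false (T w)} = {w | f w ∈ bS (T w)} := by
      ext w
      simp [bd_false]
    rw [this]
    exact measurableSet_mem_bS hf hT
  | true =>
    have : {w | f w ∈ bd true (T w)} = {w | f w ∈ bS (T w)} ∩ {w | Inf1 (f w)} := by
      ext w
      simp [bd]
    rw [this]
    exact (measurableSet_mem_bS hf hT).inter (hf measurableSet_inf1)

theorem measurableSet_mem_rb {Ω : Type*} [MeasurableSpace Ω] {f g : Ω → R}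
    {H : Ω → Set (Node × Node)} (hf : Measurable f) (hg : Measurable g) (hH : Measurable H) :
    MeasurableSet {w | (f w, g w) ∈ rb (H w)} := by
  have : {w | (f w, g w) ∈ rb (H w)} = ⋂ n : ℕ, ⋃ s : Node, ⋃ t : Node,
      ({w | pre (f w) n = s} ∩ {w | pre (g w) n = t}) ∩ {w | (s, t) ∈ H w} := by
    ext w
    simp [rb]
  rw [this]
  exact MeasurableSet.iInter fun n => MeasurableSet.iUnion fun s => MeasurableSet.iUnion fun t =>
    ((hf (measurableSet_pre_eq n s)).inter (hg (measurableSet_pre_eq n t))).inter
      (hH (measurableSet_mem_pair (s, t)))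

theorem measurable_spl (b : Bool) (t : Node) : Measurable (fun T : Set Node => Spl b T t) := by
  cases b with
  | false => exact (measurable_set_mem _).and (measurable_set_mem _)
  | true =>
    exact Measurable.forall fun n => Measurable.exists fun k =>
      measurable_const.and (measurable_set_mem _)

theorem measurableSet_good (b : Bool) : MeasurableSet {T : Set Node | Good b T} := by
  have : {T : Set Node | Good b T} = {T : Set Node | [] ∈ T ∧ (∀ s a, s ++ [a] ∈ T → s ∈ T) ∧
      ∀ s, s ∈ T → ∃ t, t ∈ T ∧ s <+: t ∧ Spl b T t} := by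
    ext T
    exact ⟨fun h => ⟨h.nil, h.down, h.spl⟩, fun h => ⟨h.1, h.2.1, h.2.2⟩⟩
  rw [this]
  refine measurableSet_setOfPred.2 ((measurable_set_mem _).and (Measurable.and ?_ ?_))
  · exact Measurable.forall fun s => Measurable.forall fun a =>
      (measurable_set_mem _).imp (measurable_set_mem _)
  · exact Measurable.forall fun s => (measurable_set_mem _).imp
      (Measurable.exists fun t => (measurable_set_mem _).and
        (measurable_const.and (measurable_spl b t)))

theorem measurable_subT (t : Node) : Measurable (fun T : Set Node => subT T t) := by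
  rw [measurable_node_iff]
  intro s
  exact measurableSet_setOfPred.2 ((measurable_set_mem s).and measurable_const)

/-! ### Functions with countable range and measurable fibres -/

/-- A property which depends on a parameter with countable range. -/
theorem MeasC.setOf {Ω X : Type*} [MeasurableSpace Ω] {f : Ω → X} (hf : MeasC f)
    {P : X → Ω → Prop} (hP : ∀ x, MeasurableSet {w | P x w}) : MeasurableSet {w | P (f w) w} := by
  have : {w | P (f w) w} = ⋃ x ∈ Set.range f, {w | f w = x} ∩ {w | P x w} := by
    ext w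
    simp only [Set.mem_ofPred_eq, Set.mem_iUnion, Set.mem_inter_iff, exists_prop]
    constructor
    · intro h
      exact ⟨f w, ⟨w, rfl⟩, rfl, h⟩
    · rintro ⟨x, _, rfl, h⟩
      exact h
  rw [this]
  exact MeasurableSet.biUnion hf.2 fun x _ => (hf.1 x).inter (hP x)

theorem measC_const {Ω X : Type*} [MeasurableSpace Ω] (x : X) : MeasC (fun _ : Ω => x) :=
  ⟨fun _ => MeasurableSet.const _, (Set.countable_singleton x).mono (by
    rintro _ ⟨_, rfl⟩
    rfl)⟩

theorem MeasC.preimage {Ω X : Type*} [MeasurableSpace Ω] {f : Ω → X} (hf : MeasC f) (A : Set X) :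
    MeasurableSet {w | f w ∈ A} :=
  hf.setOf (P := fun x _ => x ∈ A) fun _ => MeasurableSet.const _

theorem MeasC.comp {Ω X Y : Type*} [MeasurableSpace Ω] {f : Ω → X} (hf : MeasC f) (g : X → Y) :
    MeasC (fun w => g (f w)) := by
  refine ⟨fun y => hf.preimage {x | g x = y}, ?_⟩
  have : Set.range (fun w => g (f w)) = g '' Set.range f := by
    rw [← Set.range_comp]
    rfl
  rw [this]
  exact hf.2.image g

theorem MeasC.prodMk {Ω X Y : Type*} [MeasurableSpace Ω] {f : Ω → X} {g : Ω → Y} (hf : MeasC f)
    (hg : MeasC g) : MeasC (fun w => (f w, g w)) := by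
  refine ⟨fun y => ?_, ?_⟩
  · have : {w | (f w, g w) = y} = {w | f w = y.1} ∩ {w | g w = y.2} := by
      ext w
      simp [Prod.ext_iff]
    rw [this]
    exact (hf.1 _).inter (hg.1 _)
  · refine (hf.2.prod hg.2).mono ?_
    rintro _ ⟨w, rfl⟩
    exact ⟨⟨w, rfl⟩, ⟨w, rfl⟩⟩

theorem MeasC.ite {Ω X : Type*} [MeasurableSpace Ω] {f g : Ω → X} {p : Ω → Prop}
    [DecidablePred p] (hp : MeasurableSet {w | p w}) (hf : MeasC f) (hg : MeasC g) :
    MeasC (fun w => if p w then f w else g w) := by
  refine ⟨fun x => ?_, ?_⟩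
  · have : {w | (if p w then f w else g w) = x} =
        ({w | p w} ∩ {w | f w = x}) ∪ ({w | p w}ᶜ ∩ {w | g w = x}) := by
      ext w
      by_cases h : p w <;> simp [h]
    rw [this]
    exact (hp.inter (hf.1 x)).union (hp.compl.inter (hg.1 x))
  · refine (hf.2.union hg.2).mono ?_
    rintro _ ⟨w, rfl⟩
    by_cases h : p w
    · left
      exact ⟨w, by simp [h]⟩
    · right
      exact ⟨w, by simp [h]⟩

/-- A measurable function which depends on a parameter with countable range. -/
theorem MeasC.bind {Ω X Y : Type*} [MeasurableSpace Ω] [MeasurableSpace Y] {f : Ω → X}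
    (hf : MeasC f) {g : X → Ω → Y} (hg : ∀ x, Measurable (g x)) :
    Measurable (fun w => g (f w) w) := by
  intro s hs
  exact hf.setOf (P := fun x w => g x w ∈ s) fun x => hg x hs

theorem MeasC.bindC {Ω X Y : Type*} [MeasurableSpace Ω] {f : Ω → X}
    (hf : MeasC f) {g : X → Ω → Y} (hg : ∀ x, MeasC (g x)) :
    MeasC (fun w => g (f w) w) := by
  refine ⟨fun y => hf.setOf (P := fun x w => g x w = y) fun x => (hg x).1 y, ?_⟩
  refine (Set.Countable.biUnion hf.2 fun x _ => (hg x).2).mono ?_
  rintro _ ⟨w, rfl⟩
  simp only [Set.mem_iUnion]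
  exact ⟨f w, ⟨w, rfl⟩, ⟨w, rfl⟩⟩

theorem MeasC.measurable {Ω X : Type*} [MeasurableSpace Ω] [MeasurableSpace X] {f : Ω → X}
    (hf : MeasC f) : Measurable f := fun s _ => hf.preimage s

theorem measC_of_countable {Ω X : Type*} [MeasurableSpace Ω] [Countable X] {f : Ω → X}
    (hf : ∀ x, MeasurableSet {w | f w = x}) : MeasC f := ⟨hf, Set.to_countable _⟩

/-- Measurable selection of an element of a countable set, depending only on the coordinates in
`C` when the property does. -/
theorem exists_sel {I : Type} {X : Type*} [Nonempty X] (N : Set X) (hN : N.Countable)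
    (P : X → Pt I → Prop) (hP : ∀ x ∈ N, MeasurableSet {y | P x y}) (C : Set I)
    (hC : ∀ x ∈ N, DepOn C (P x)) :
    ∃ c : Pt I → X, MeasC c ∧ DepOn C c ∧ ∀ y, (∃ x ∈ N, P x y) → c y ∈ N ∧ P (c y) y := by
  classical
  rcases N.eq_empty_or_nonempty with rfl | hne
  · refine ⟨fun _ => Classical.arbitrary X, measC_const _, fun _ _ _ => rfl, ?_⟩
    rintro y ⟨x, hx, _⟩
    exact absurd hx (Set.notMem_empty x)
  obtain ⟨e, he⟩ := hN.exists_eq_range hne
  have heN : ∀ n, e n ∈ N := fun n => by rw [he]; exact ⟨n, rfl⟩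
  let Q : ℕ → Pt I → Prop := fun m y =>
    (P (e m) y ∧ ∀ j, j < m → ¬ P (e j) y) ∨ (m = 0 ∧ ∀ n, ¬ P (e n) y)
  let k : Pt I → ℕ := fun y => if h : ∃ n, P (e n) y then Nat.find h else 0
  have hk : ∀ y m, k y = m ↔ Q m y := by
    intro y m
    by_cases h : ∃ n, P (e n) y
    · have h1 : k y = Nat.find h := by simp only [k, dif_pos h]
      rw [h1]
      constructor
      · rintro rfl
        exact Or.inl ⟨Nat.find_spec h, fun j hj => Nat.find_min h hj⟩
      · rintro (⟨h2, h3⟩ | ⟨_, h3⟩)
        · exact (Nat.find_eq_iff h).2 ⟨h2, fun j hj => h3 j hj⟩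
        · obtain ⟨n, hn⟩ := h
          exact absurd hn (h3 n)
    · have h1 : k y = 0 := by simp only [k, dif_neg h]
      rw [h1]
      constructor
      · rintro rfl
        exact Or.inr ⟨rfl, not_exists.1 h⟩
      · rintro (⟨h2, _⟩ | ⟨h2, _⟩)
        · exact absurd ⟨m, h2⟩ h
        · exact h2.symm
  have hmP : ∀ n, Measurable (fun y => P (e n) y) := fun n =>
    measurableSet_setOfPred.1 (hP _ (heN n))
  have hkM : MeasC k := by
    refine measC_of_countable fun m => ?_
    have : {w | k w = m} = {w | Q m w} := by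
      ext w
      exact hk w m
    rw [this]
    refine measurableSet_setOfPred.2 (Measurable.or ?_ ?_)
    · exact (hmP m).and (Measurable.forall fun j => measurable_const.imp (hmP j).not)
    · exact measurable_const.and (Measurable.forall fun n => (hmP n).not)
  refine ⟨fun y => e (k y), hkM.comp e, ?_, ?_⟩
  · intro y y' h
    have h1 : k y = k y' := by
      rw [hk]
      have h2 := (hk y' (k y')).1 rfl
      have h3 : ∀ n, P (e n) y = P (e n) y' := fun n => hC _ (heN n) y y' h
      simp only [Q, h3]
      exact h2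
    change e (k y) = e (k y')
    rw [h1]
  · rintro y ⟨x, hx, hxP⟩
    refine ⟨heN _, ?_⟩
    rw [he] at hx
    obtain ⟨n, rfl⟩ := hx
    rcases (hk y (k y)).1 rfl with h | h
    · exact h.1
    · exact absurd hxP (h.2 n)

/-! ### Dependence on countably many coordinates -/

theorem exists_countable_dep_aux {I : Type} {A : Set (Pt I)} (hA : MeasurableSet A) :
    ∃ C : Set I, C.Countable ∧ DepOn C (fun y => y ∈ A) := by
  have h0 : (MeasurableSpace.pi : MeasurableSpace (Pt I)) =
      MeasurableSpace.generateFrom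
        {B : Set (Pt I) | ∃ (i : I) (s : Set R), MeasurableSet s ∧ B = {y | y i ∈ s}} := by
    apply le_antisymm
    · apply iSup_le
      intro i
      rintro B ⟨s, hs, rfl⟩
      exact MeasurableSpace.measurableSet_generateFrom ⟨i, s, hs, rfl⟩
    · apply MeasurableSpace.generateFrom_le
      rintro B ⟨i, s, hs, rfl⟩
      exact measurable_pi_apply i hs
  have hA2 : @MeasurableSet _ (MeasurableSpace.generateFrom
        {B : Set (Pt I) | ∃ (i : I) (s : Set R), MeasurableSet s ∧ B = {y | y i ∈ s}}) A := by
    rw [← h0]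
    exact hA
  clear hA h0
  induction A, hA2 using MeasurableSpace.generateFrom_induction with
  | hC B hB =>
    obtain ⟨i, s, _, rfl⟩ := hB
    refine ⟨{i}, Set.countable_singleton i, ?_⟩
    intro y y' h
    simp only [Set.mem_ofPred_eq]
    rw [h i rfl]
  | empty => exact ⟨∅, Set.countable_empty, fun y y' _ => rfl⟩
  | compl B _ ih =>
    obtain ⟨C, h1, h2⟩ := ih
    exact ⟨C, h1, fun y y' h => propext (not_congr (iff_of_eq (h2 y y' h)))⟩
  | iUnion f _ ih =>
    choose C h1 h2 using ih
    refine ⟨⋃ n, C n, Set.countable_iUnion h1, fun y y' h => propext ?_⟩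
    simp only [Set.mem_iUnion]
    exact exists_congr fun n => iff_of_eq (h2 n y y' fun i hi => h i (Set.mem_iUnion.2 ⟨n, hi⟩))

/-- A measurable set of points depends on countably many coordinates; the coordinates can be
chosen in any set `J` on which the set depends. -/
theorem exists_countable_dep_set {I : Type} {A : Set (Pt I)} (hA : MeasurableSet A) (J : Set I)
    (hJ : DepOn J (fun y => y ∈ A)) : ∃ C ⊆ J, C.Countable ∧ DepOn C (fun y => y ∈ A) := by
  classical
  obtain ⟨C, h1, h2⟩ := exists_countable_dep_aux hA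
  refine ⟨C ∩ J, Set.inter_subset_right, h1.mono Set.inter_subset_left, ?_⟩
  intro y y' h
  have ha : (y ∈ A) = ((fun i => if i ∈ J then y i else y' i) ∈ A) := by
    apply hJ
    intro i hi
    simp [hi]
  have hb : ((fun i => if i ∈ J then y i else y' i) ∈ A) = (y' ∈ A) := by
    apply h2
    intro i hi
    by_cases hiJ : i ∈ J
    · simpa [hiJ] using h i ⟨hi, hiJ⟩
    · simp [hiJ]
  exact ha.trans hb

theorem exists_countable_dep_gen {I : Type} {α : Type} [Countable α] {T : Pt I → Set α}
    (hT : Measurable T) (J : Set I) (hJ : DepOn J T) : ∃ C ⊆ J, C.Countable ∧ DepOn C T := by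
  have h1 : ∀ s : α, ∃ C ⊆ J, C.Countable ∧ DepOn C (fun y => y ∈ {y | s ∈ T y}) := by
    intro s
    refine exists_countable_dep_set (measurable_set_iff'.1 hT s) J ?_
    intro y y' h
    have h2 := hJ y y' h
    simp only [Set.mem_ofPred_eq, h2]
  choose C hC1 hC2 hC3 using h1
  refine ⟨⋃ s, C s, Set.iUnion_subset hC1, Set.countable_iUnion hC2, ?_⟩
  intro y y' h
  ext s
  exact iff_of_eq (hC3 s y y' fun i hi => h i (Set.mem_iUnion.2 ⟨s, hi⟩))

theorem exists_countable_dep_node {I : Type} {T : Pt I → Set Node} (hT : Measurable T)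
    (J : Set I) (hJ : DepOn J T) : ∃ C ⊆ J, C.Countable ∧ DepOn C T :=
  exists_countable_dep_gen hT J hJ

theorem exists_countable_dep_pair {I : Type} {T : Pt I → Set (Node × Node)} (hT : Measurable T)
    (J : Set I) (hJ : DepOn J T) : ∃ C ⊆ J, C.Countable ∧ DepOn C T :=
  exists_countable_dep_gen hT J hJ

theorem exists_countable_dep_nat {I : Type} {T : Pt I → Set ℕ} (hT : Measurable T)
    (J : Set I) (hJ : DepOn J T) : ∃ C ⊆ J, C.Countable ∧ DepOn C T :=
  exists_countable_dep_gen hT J hJ

theorem dep_iff_depOn {I : Type} [Idx I] {β : Sort*} {ρ : I} {f : Pt I → β} :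
    Dep ρ f ↔ DepOn (Set.Iio ρ) f := Iff.rfl

theorem Dep.mono {I : Type} [Idx I] {β : Sort*} {ρ ρ' : I} {f : Pt I → β} (h : Dep ρ f)
    (hρ : ρ ≤ ρ') : Dep ρ' f :=
  fun y y' h' => h y y' fun i hi => h' i (lt_of_lt_of_le hi hρ)

theorem DepOn.mono {I : Type} {β : Sort*} {C C' : Set I} {f : Pt I → β} (h : DepOn C f)
    (hC : C ⊆ C') : DepOn C' f :=
  fun y y' h' => h y y' fun i hi => h' i (hC hi)

end Pool.Agent.MG
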