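import Pool.Agent.Helper56_MG.Stmts
import Pool.Agent.Helper56_MG.Base3

/-!
# CST2 and NEW
-/

open Set

namespace Pool.Agent.MG

variable {I : Type} [Idx I]

theorem cst2' : Cst2Stmt I := by
  intro ρ hB hC
  have h3 : ∀ p : Cond I, VB ρ p → ∀ A : ℕ → Set (Pt I), (∀ n, MeasurableSet (A n)) →
      (∀ n, Dep ρ (fun y => y ∈ A n)) → (∀ n q, q ≤ p → VB ρ q → ¬ q.body ⊆ A n) →
      ∃ q, q ≤ p ∧ VB ρ q ∧ ∀ n, Disjoint q.body (A n) := by
    intro p hp A hm hd hA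
    obtain ⟨q, h1, h2, h4⟩ := hB p hp (fun n => {d | Disjoint d.body (A n)}) (by
      intro n q hq hle
      obtain ⟨q', h1, h2, h4⟩ := hC q hq (A n) (hm n) (hd n)
      rcases h4 with h4 | h4
      · exact (hA n q' (h1.trans hle) h2 h4).elim
      · exact ⟨q', h4, h2, h1⟩)
    refine ⟨q, h1, h2, fun n => ?_⟩
    obtain ⟨E, _, hE2, hE3⟩ := h4 n
    rw [Set.disjoint_left]
    intro y hy hyA
    have h5 := hE3 hy
    simp only [Set.mem_iUnion, exists_prop] at h5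
    obtain ⟨d, hd', hyd⟩ := h5
    exact Set.disjoint_left.1 (hE2 d hd').1 hyd hyA
  have h2 : ∀ p : Cond I, VB ρ p → ∀ A : ℕ → Set (Pt I), (∀ n, MeasurableSet (A n)) →
      (∀ n, Dep ρ (fun y => y ∈ A n)) → p.body ⊆ ⋃ n, A n →
      ∃ q, q ≤ p ∧ VB ρ q ∧ ∃ n, q.body ⊆ A n := by
    intro p hp A hm hd hA
    by_contra hcon
    push Not at hcon
    obtain ⟨q, h4, h5, h6⟩ := h3 p hp A hm hd fun n q h1 h2 h => hcon q h1 h2 n h
    obtain ⟨y, hy⟩ := q.body_nonempty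
    obtain ⟨n, hn⟩ := Set.mem_iUnion.1 (hA (h4 hy))
    exact Set.disjoint_left.1 (h6 n) hy hn
  refine ⟨?_, h2, h3, ?_⟩
  · intro p hp X f hf hd
    obtain ⟨y0, hy0⟩ := p.body_nonempty
    obtain ⟨e, he⟩ := hf.2.exists_eq_range ⟨_, y0, rfl⟩
    obtain ⟨q, h4, h5, n, h6⟩ := h2 p hp (fun n => {y | f y = e n}) (fun n => hf.1 (e n))
      (fun n y y' h => by
        show (f y = e n) = (f y' = e n)
        rw [hd y y' h])
      (fun y _ => by
        have h7 : f y ∈ Set.range e := by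
          rw [← he]
          exact ⟨y, rfl⟩
        obtain ⟨n, hn⟩ := h7
        exact Set.mem_iUnion.2 ⟨n, hn.symm⟩)
    exact ⟨q, h4, h5, e n, fun y hy => h6 hy⟩
  · intro p e hp he
    exact hC p hp e.body e.measurableSet_body fun y y' h => propext (he.below.mem_congr h)

theorem new' : NewStmt I := by
  intro β l ρ hty hβ hρ p hp T hm hd hF hG
  have hpl : p.Below l := hp.below.mono hβ
  have hr : p.restr l = p := hpl.restr_eq
  have h3 : ∀ y ∈ (p.restr l).body, Good (ty l) (T y) ∧ T y ⊆ p.T l y := by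
    intro y hy
    rw [hr] at hy
    rw [hty]
    refine ⟨hG y hy, ?_⟩
    rw [hpl.T_eq le_rfl]
    exact Set.subset_univ _
  refine ⟨p.setT l T hm (hd.mono hρ), Cond.setT_le p _ _ _ h3,
    (hp.mono (hβ.trans (lt_nx l).le)).setT (lt_nx l) T hm _ h3
      (fun _ => LV_of_Fr hρ hm hd hF fun y _ => rfl), ?_⟩
  intro y hy
  have hyp : y ∈ (p.restr l).body := Cond.mem_restr_of_mem (Cond.setT_le p _ _ _ h3 hy)
  have h4 := hy l (Set.mem_insert _ _)
  rw [Cond.setT_T_self p T hm _ (h3 y hyp).1] at h4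
  exact h4.1

end Pool.Agent.MG
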