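import Pool.Agent.Helper56_MG.Stmts2
import Pool.Agent.Helper56_MG.Base3

/-!
# EXTD
-/

open Set

namespace Pool.Agent.MG

/-- Two extensions of a splitting node differ. -/
theorem exists_two {b : Bool} {T : Set Node} (hT : Good b T) (L : ℕ) :
    ∃ N, L ≤ N ∧ ∀ c : Bool, ∃ t ∈ T, ∃ h : N < t.length, t[N] = c := by
  -- a long node
  obtain ⟨x, hx⟩ := hT.bd_nonempty
  have h1 : pre x L ∈ T := hx.1 L
  obtain ⟨t, ht, hLt, hs⟩ := hT.spl _ h1
  have hl : L ≤ t.length := by
    have := hLt.length_le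
    simpa using this
  cases b with
  | false =>
    refine ⟨t.length, hl, fun c => ?_⟩
    cases c
    · exact ⟨_, hs.1, by simp, by simp⟩
    · exact ⟨_, hs.2, by simp, by simp⟩
  | true =>
    obtain ⟨k, -, hk⟩ := hs 0
    obtain ⟨k', hk', hk2⟩ := hs (k + 1)
    refine ⟨t.length + k, by omega, fun c => ?_⟩
    cases c
    · refine ⟨_, hk2, by simp; omega, ?_⟩
      rw [List.getElem_append_left (by simp; omega), List.getElem_append_right (by omega)]
      simp
    · exact ⟨_, hk, by simp, by simp⟩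

theorem extd (hJ : JConstStmt) : ExtdStmt := by
  classical
  intro i hi p w hw hd L
  let P : Node × ℕ → PJ → Prop := fun z y =>
    z.1 ∈ p.1.T i y ∧ L ≤ z.2 ∧ ∃ h : z.2 < z.1.length, z.1[z.2] ≠ w y z.2
  have hPm : ∀ z : Node × ℕ, MeasurableSet {y | P z y} := by
    intro z
    refine MeasurableSet.inter (s₁ := {y | z.1 ∈ p.1.T i y})
      (s₂ := {y | L ≤ z.2 ∧ ∃ h : z.2 < z.1.length, z.1[z.2] ≠ w y z.2}) ?_ ?_
    · exact (p.1.meas i) (measurableSet_mem_node z.1)
    · by_cases h : L ≤ z.2 ∧ z.2 < z.1.length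
      · have : {y | L ≤ z.2 ∧ ∃ h : z.2 < z.1.length, z.1[z.2] ≠ w y z.2} =
            {y : PJ | w y z.2 = z.1[z.2]'h.2}ᶜ := by
          ext y
          simp only [Set.mem_ofPred_eq, Set.mem_compl_iff]
          exact ⟨fun h' h2 => h'.2.2 h2.symm, fun h' => ⟨h.1, h.2, fun h2 => h' h2.symm⟩⟩
        rw [this]
        refine MeasurableSet.compl ?_
        exact ((measurable_pi_apply z.2).comp hw) (measurableSet_singleton (z.1[z.2]'h.2))
      · have : {y | L ≤ z.2 ∧ ∃ h : z.2 < z.1.length, z.1[z.2] ≠ w y z.2} = ∅ := by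
          ext y
          simp only [Set.mem_ofPred_eq, Set.mem_empty_iff_false, iff_false]
          exact fun h' => h ⟨h'.1, h'.2.1⟩
        rw [this]
        exact MeasurableSet.empty
  have hPd : ∀ z : Node × ℕ, DepOn (Set.Iio i) (P z) := by
    intro z y y' h
    simp only [P]
    rw [p.1.dep i y y' h, hd y y' h]
  obtain ⟨f, hf, hfd, hfP⟩ := exists_sel (Set.univ : Set (Node × ℕ)) (Set.to_countable _) P
    (fun z _ => hPm z) (Set.Iio i) (fun z _ => hPd z)
  have hex : ∀ y, P (f y) y := by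
    intro y
    refine (hfP y ?_).2
    obtain ⟨N, hN, h⟩ := exists_two (p.1.good i y) L
    obtain ⟨t, ht, hNt, htN⟩ := h (!(w y N))
    exact ⟨(t, N), Set.mem_univ _, ht, hN, hNt, by simp [htN]⟩
  obtain ⟨q0, h1, h2, h3, _, ⟨t, N⟩, h4⟩ := hJ.2.2 te i hi.le p.1 p.2 (Node × ℕ) f hf
    (dep_iff_depOn.2 hfd)
  have hnode : ∀ y ∈ (q0.restr i).body, t ∈ q0.T i y ∧ L ≤ N ∧
      ∃ h : N < t.length, t[N] ≠ w y N := by
    intro y hy
    rw [Cond.mem_restr] at hy
    obtain ⟨y', hy', h5⟩ := q0.exists_ext i y hy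
    have h6 : f y = (t, N) := by
      rw [← h4 y' hy']
      exact (hfd y y' fun j hj => (h5 j hj).symm)
    have h7 := hex y
    rw [h6] at h7
    rw [h3 i le_rfl]
    exact h7
  have hq : VB te (q0.node i t) := h2.node hi fun y hy => (hnode y hy).1
  have hle : q0.node i t ≤ q0 := Cond.node_le fun y hy => (hnode y hy).1
  obtain ⟨y0, hy0⟩ := (q0.restr i).body_nonempty
  refine ⟨⟨q0.node i t, hq⟩, hle.trans h1, N, (hnode y0 hy0).2.1, fun y hy => ?_⟩
  have hyr : y ∈ (q0.restr i).body := Cond.mem_restr_of_mem (hle hy)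
  obtain ⟨h5, -, h6, h7⟩ := hnode y hyr
  have h8 : y i ∈ bd (ty i) ((q0.node i t).T i y) := hy i (Set.mem_insert _ _)
  rw [Cond.node_T hyr h5] at h8
  have h9 : On t (y i) := (mem_bS_subT h8.1).2
  have h10 : t[N] = y i N := by
    have h11 : pre (y i) t.length = t := h9
    have h12 : (pre (y i) t.length)[N]'(by simpa using h6) = t[N] := by
      simp only [h11]
    rw [← h12, getElem_pre]
  rw [← h10]
  exact h7

end Pool.Agent.MG
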