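import Pool.Agent.Helper56_MG.Stmts
import Pool.Agent.Helper56_MG.Base3

/-!
# HULL
-/

open Set

namespace Pool.Agent.MG

universe u

variable {I : Type} [Idx I]

/-! ### Gaps in the supports -/

theorem restr_eq_of_gap {Z : Set I} {e : Cond I} (hS : e.S ⊆ Z) {α α' : I} (h : α ≤ α')
    (hZ : ∀ i ∈ Z, α ≤ i → α' ≤ i) : e.restr α' = e.restr α := by
  apply Cond.ext'
  · funext i y
    by_cases h1 : i < α
    · simp [Cond.restr, h1, lt_of_lt_of_le h1 h]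
    · by_cases h2 : i < α'
      · have hi : i ∉ e.S := fun hi => absurd (hZ i (hS hi) (not_lt.1 h1)) (not_le.2 h2)
        simp [Cond.restr, h1, h2, e.full' i hi]
      · simp [Cond.restr, h1, h2]
  · ext i
    simp only [Cond.restr, Set.mem_ofPred_eq]
    constructor
    · rintro ⟨h1, h2⟩
      refine ⟨h1, ?_⟩
      by_contra h3
      exact absurd (hZ i (hS h1) (not_lt.1 h3)) (not_le.2 h2)
    · rintro ⟨h1, h2⟩
      exact ⟨h1, lt_of_lt_of_le h2 h⟩

theorem glue_eq_of_gap {Z : Set I} {r p : Cond I} (hr : r.S ⊆ Z) (hp : p.S ⊆ Z) {α α' : I}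
    (h : α ≤ α') (hZ : ∀ i ∈ Z, α ≤ i → α' ≤ i) : Cond.glue r p α' = Cond.glue r p α := by
  apply Cond.ext'
  · funext i y
    by_cases h1 : i < α
    · simp [Cond.glue, h1, lt_of_lt_of_le h1 h]
    · by_cases h2 : i < α'
      · have hi : i ∉ Z := fun hi => absurd (hZ i hi (not_lt.1 h1)) (not_le.2 h2)
        simp [Cond.glue, h1, h2, r.full' i (fun h' => hi (hr h')),
          p.full' i (fun h' => hi (hp h'))]
      · simp [Cond.glue, h1, h2]
  · ext i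
    simp only [Cond.glue, Set.mem_ofPred_eq]
    constructor
    · rintro (⟨h1, h2⟩ | ⟨h1, h2⟩)
      · refine Or.inl ⟨h1, ?_⟩
        by_contra h3
        exact absurd (hZ i (hr h1) (not_lt.1 h3)) (not_le.2 h2)
      · exact Or.inr ⟨h1, fun h3 => h2 (lt_of_lt_of_le h3 h)⟩
    · rintro (⟨h1, h2⟩ | ⟨h1, h2⟩)
      · exact Or.inl ⟨h1, lt_of_lt_of_le h2 h⟩
      · exact Or.inr ⟨h1, fun h3 => absurd (hZ i (hp h1) (not_lt.1 h2)) (not_le.2 h3)⟩

theorem glue_eq_self {r p : Cond I} {α : I} (hr : r.Below α) (hp : p.Below α) :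
    Cond.glue r p α = r := by
  apply Cond.ext'
  · funext i y
    by_cases h1 : i < α
    · simp [Cond.glue, h1]
    · simp [Cond.glue, h1, hr.T_eq (not_lt.1 h1), hp.T_eq (not_lt.1 h1)]
  · ext i
    simp only [Cond.glue, Set.mem_ofPred_eq]
    constructor
    · rintro (⟨h1, _⟩ | ⟨h1, h2⟩)
      · exact h1
      · exact absurd (hp i h1) h2
    · intro h1
      exact Or.inl ⟨h1, hr i h1⟩

/-! ### Decisions below a coordinate -/

theorem dec_below (hCst2 : Cst2Stmt I) {α β : I} (hα : α < β) (hB : BRw I α) (hC : Cst I α)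
    {d e : Cond I} (hd : VB β d) (he : VB β e) : ∃ d', VB β d' ∧ d' ≤ d ∧
      (d'.restr α ≤ e.restr α ∨ Disjoint (d'.restr α).body (e.restr α).body) := by
  obtain ⟨q, h1, h2, h3⟩ := (hCst2 α hB hC).2.2.2 (d.restr α) (e.restr α) (hd.restr α)
    (he.restr α)
  have h4 : q.restr α ≤ d.restr α := by rwa [h2.below.restr_eq]
  refine ⟨Cond.glue q d α, h2.glue hd hα.le h4, Cond.glue_le_right h4, ?_⟩
  rw [Cond.glue_restr q d le_rfl, h2.below.restr_eq]
  exact h3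

theorem dec_node {α β : I} (hα : α < β) (hC : Cst I α)
    {d e : Cond I} (hd : VB β d) (t : Node) : ∃ d', VB β d' ∧ d' ≤ d ∧
      ((∀ y ∈ (d'.restr α).body, t ∈ e.T α y) ∨ ∀ y ∈ (d'.restr α).body, t ∉ e.T α y) := by
  obtain ⟨q, h1, h2, h3⟩ := hC (d.restr α) (hd.restr α) {y | t ∈ e.T α y}
    ((e.meas α) (measurableSet_mem_node t)) (fun y y' h => by
      show (t ∈ e.T α y) = (t ∈ e.T α y')
      rw [e.dep α y y' h])
  have h4 : q.restr α ≤ d.restr α := by rwa [h2.below.restr_eq]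
  refine ⟨Cond.glue q d α, h2.glue hd hα.le h4, Cond.glue_le_right h4, ?_⟩
  rw [Cond.glue_restr q d le_rfl, h2.below.restr_eq]
  rcases h3 with h3 | h3
  · exact Or.inl fun y hy => h3 hy
  · exact Or.inr fun y hy => Set.disjoint_left.1 h3 hy

theorem add_mem {α β : I} (hα : α < β) {d : Cond I} (hd : VB β d) :
    ∃ d', VB β d' ∧ d' ≤ d ∧ α ∈ d'.S := by
  have h3 : ∀ y ∈ (d.restr α).body, Good (ty α) (d.T α y) ∧ d.T α y ⊆ d.T α y :=
    fun y _ => ⟨d.good α y, Subset.rfl⟩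
  exact ⟨d.setT α (d.T α) (d.meas α) (d.dep α), hd.setT hα _ _ _ h3 fun hty => hd.lv hty,
    Cond.setT_le d _ _ _ h3, Set.mem_insert _ _⟩

/-! ### The closure rules -/

section
variable {X : Type u}

/-- Objects. -/
abbrev Wt (I : Type) [Idx I] (X : Type u) : Type u := (Cond I ⊕ X) ⊕ I

/-- A condition as an object. -/
abbrev oc (e : Cond I) : Wt I X := Sum.inl (Sum.inl e)

/-- A coordinate as an object. -/
abbrev oz (i : I) : Wt I X := Sum.inr i

/-- Admissible objects. -/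
def OkW (β : I) : Wt I X → Prop
  | Sum.inl (Sum.inl e) => VB β e
  | Sum.inl (Sum.inr _) => True
  | Sum.inr i => i < β

/-- Countable sets of admissible objects. -/
def CO (β : I) (O : Set (Wt I X)) : Prop := O.Countable ∧ ∀ w ∈ O, OkW β w

theorem ex_of {β : I} {A : Type*} (l : List (Wt I X)) (pat : A → List (Wt I X))
    (hinj : Function.Injective pat) (P : A → Set (Wt I X) → Prop)
    (h : ∀ a, pat a = l → ∃ O, CO β O ∧ P a O) :
    ∃ O, CO β O ∧ ∀ a, pat a = l → P a O := by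
  by_cases hex : ∃ a, pat a = l
  · obtain ⟨a, ha⟩ := hex
    obtain ⟨O, h1, h2⟩ := h a ha
    refine ⟨O, h1, fun a' ha' => ?_⟩
    rw [hinj (ha'.trans ha.symm)]
    exact h2
  · exact ⟨∅, ⟨Set.countable_empty, fun _ h => h.elim⟩, fun a ha => (hex ⟨a, ha⟩).elim⟩

def Cl1 (l : List (Wt I X)) (O : Set (Wt I X)) : Prop :=
  ∀ e : Cond I, [oc e] = l → e.S ⊆ {j | oz j ∈ O} ∧ ∀ i, DepOn ({j | oz j ∈ O} ∩ Set.Iio i) (e.T i)

def Cl2 (l : List (Wt I X)) (O : Set (Wt I X)) : Prop :=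
  ∀ i : I, [oz i] = l → ty i = true → ∃ j, oz j ∈ O ∧ ty j = false ∧ nx j = i

def Cl3 (l : List (Wt I X)) (O : Set (Wt I X)) : Prop :=
  ∀ a : (Cond I × Cond I) × I, [oc a.1.1, oc a.1.2, oz a.2] = l →
    a.1.1.restr a.2 ≤ a.1.2.restr a.2 → oc (Cond.glue a.1.1 a.1.2 a.2) ∈ O

def Cl4 (l : List (Wt I X)) (O : Set (Wt I X)) : Prop :=
  ∀ a : Cond I × I, [oc a.1, oz a.2] = l → ∀ t : Node,
    (∀ y ∈ (a.1.restr a.2).body, t ∈ a.1.T a.2 y) → oc (a.1.node a.2 t) ∈ O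

def Cl5 (l : List (Wt I X)) (O : Set (Wt I X)) : Prop :=
  ∀ a : (Cond I × Cond I) × I, [oc a.1.1, oc a.1.2, oz a.2] = l →
    ∃ d', oc d' ∈ O ∧ d' ≤ a.1.2 ∧ (d'.restr a.2 ≤ a.1.1.restr a.2 ∨
      Disjoint (d'.restr a.2).body (a.1.1.restr a.2).body)

def Cl6 (β : I) (l : List (Wt I X)) (O : Set (Wt I X)) : Prop :=
  ∀ a : Cond I × Cond I, [oc a.1, oc a.2] = l → (∃ α, α < β ∧ a.1.Below α ∧ a.2.Below α) →
    ∃ d', oc d' ∈ O ∧ d' ≤ a.2 ∧ (d' ≤ a.1 ∨ Disjoint d'.body a.1.body)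

def Cl7 (l : List (Wt I X)) (O : Set (Wt I X)) : Prop :=
  ∀ a : (Cond I × Cond I) × I, [oc a.1.1, oc a.1.2, oz a.2] = l → ∀ t : Node,
    ∃ d', oc d' ∈ O ∧ d' ≤ a.1.2 ∧ ((∀ y ∈ (d'.restr a.2).body, t ∈ a.1.1.T a.2 y) ∨
      ∀ y ∈ (d'.restr a.2).body, t ∉ a.1.1.T a.2 y)

def Cl8 (l : List (Wt I X)) (O : Set (Wt I X)) : Prop :=
  ∀ a : Cond I × I, [oc a.1, oz a.2] = l → ∃ d', oc d' ∈ O ∧ d' ≤ a.1 ∧ a.2 ∈ d'.S

def Cl9 (l : List (Wt I X)) (O : Set (Wt I X)) : Prop :=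
  ∀ a : (Cond I × I) × I, [oc a.1.1, oz a.1.2, oz a.2] = l → ty a.1.2 = false → ty a.2 = false →
    a.2 < a.1.2 → ∃ d', oc d' ∈ O ∧ d' ≤ a.1.1 ∧ Rk d' a.1.2 a.2

/-- All the closure rules. -/
def ClA (β : I) (l : List (Wt I X)) (O : Set (Wt I X)) : Prop :=
  Cl1 l O ∧ Cl2 l O ∧ Cl3 l O ∧ Cl4 l O ∧ Cl5 l O ∧ Cl6 β l O ∧ Cl7 l O ∧ Cl8 l O ∧ Cl9 l O

theorem ClA.mono {β : I} {l : List (Wt I X)} {O O' : Set (Wt I X)} (h : ClA β l O) (hO : O ⊆ O') :
    ClA β l O' := by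
  obtain ⟨h1, h2, h3, h4, h5, h6, h7, h8, h9⟩ := h
  refine ⟨?_, ?_, ?_, ?_, ?_, ?_, ?_, ?_, ?_⟩
  · intro e he
    obtain ⟨h11, h12⟩ := h1 e he
    refine ⟨fun j hj => hO (h11 hj), fun i => (h12 i).mono ?_⟩
    exact fun j hj => ⟨hO hj.1, hj.2⟩
  · intro i hi ht
    obtain ⟨j, hj, h⟩ := h2 i hi ht
    exact ⟨j, hO hj, h⟩
  · exact fun a ha h => hO (h3 a ha h)
  · exact fun a ha t h => hO (h4 a ha t h)
  · intro a ha
    obtain ⟨d, hd, h⟩ := h5 a ha
    exact ⟨d, hO hd, h⟩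
  · intro a ha hex
    obtain ⟨d, hd, h⟩ := h6 a ha hex
    exact ⟨d, hO hd, h⟩
  · intro a ha t
    obtain ⟨d, hd, h⟩ := h7 a ha t
    exact ⟨d, hO hd, h⟩
  · intro a ha
    obtain ⟨d, hd, h⟩ := h8 a ha
    exact ⟨d, hO hd, h⟩
  · intro a ha h1 h2 h3
    obtain ⟨d, hd, h⟩ := h9 a ha h1 h2 h3
    exact ⟨d, hO hd, h⟩

theorem inj2 : Function.Injective (fun a : Cond I × I => ([oc a.1, oz a.2] : List (Wt I X))) := by
  rintro ⟨a, b⟩ ⟨a', b'⟩ h
  simp only [List.cons.injEq, Sum.inl.injEq, Sum.inr.injEq, and_true] at h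
  rw [h.1, h.2]

theorem inj22 : Function.Injective
    (fun a : Cond I × Cond I => ([oc a.1, oc a.2] : List (Wt I X))) := by
  rintro ⟨a, b⟩ ⟨a', b'⟩ h
  simp only [List.cons.injEq, Sum.inl.injEq, and_true] at h
  rw [h.1, h.2]

theorem inj3 : Function.Injective
    (fun a : (Cond I × Cond I) × I => ([oc a.1.1, oc a.1.2, oz a.2] : List (Wt I X))) := by
  rintro ⟨⟨a, b⟩, c⟩ ⟨⟨a', b'⟩, c'⟩ h
  simp only [List.cons.injEq, Sum.inl.injEq, Sum.inr.injEq, and_true] at h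
  rw [h.1, h.2.1, h.2.2]

theorem inj33 : Function.Injective
    (fun a : (Cond I × I) × I => ([oc a.1.1, oz a.1.2, oz a.2] : List (Wt I X))) := by
  rintro ⟨⟨a, b⟩, c⟩ ⟨⟨a', b'⟩, c'⟩ h
  simp only [List.cons.injEq, Sum.inl.injEq, Sum.inr.injEq, and_true] at h
  rw [h.1, h.2.1, h.2.2]

theorem CO.singleton {β : I} {w : Wt I X} (h : OkW β w) : CO β {w} :=
  ⟨Set.countable_singleton w, fun w' hw' => by rw [Set.mem_singleton_iff.1 hw']; exact h⟩

theorem CO.union {β : I} {O O' : Set (Wt I X)} (h : CO β O) (h' : CO β O') : CO β (O ∪ O') :=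
  ⟨h.1.union h'.1, fun w hw => hw.elim (h.2 w) (h'.2 w)⟩

theorem ex_ClA (hRaise : RaiseStmt I) (hCst2 : Cst2Stmt I) {β : I}
    (hβ : ∀ ρ, ρ < β → BRw I ρ ∧ Cst I ρ) (l : List (Wt I X)) (hl : ∀ w ∈ l, OkW β w) :
    ∃ O, CO β O ∧ ClA β l O := by
  classical
  have k1 : ∃ O, CO β O ∧ Cl1 l O := by
    refine ex_of l (fun e : Cond I => ([oc e] : List (Wt I X))) ?_ _ ?_
    · intro e e' h
      simpa using h
    · rintro e rfl
      have he : VB β e := hl (oc e) (by simp)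
      obtain ⟨C, h1, h2, h3⟩ := e.exists_supp
      refine ⟨(fun i => (oz i : Wt I X)) '' (C ∩ Set.Iio β),
        ⟨(h1.mono Set.inter_subset_left).image _, ?_⟩, ?_, ?_⟩
      · rintro _ ⟨i, hi, rfl⟩
        exact hi.2
      · intro i hi
        exact ⟨i, ⟨h2 hi, he.below i hi⟩, rfl⟩
      · intro i
        rcases lt_or_ge i β with hi | hi
        · refine (h3 i).mono ?_
          intro j hj
          exact ⟨⟨j, ⟨hj.1, lt_trans hj.2 hi⟩, rfl⟩, hj.2⟩
        · intro y y' _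
          rw [he.below.T_eq hi, he.below.T_eq hi]
  have k2 : ∃ O, CO β O ∧ Cl2 l O := by
    refine ex_of l (fun i : I => ([oz i] : List (Wt I X))) ?_ _ ?_
    · intro e e' h
      simpa using h
    · rintro i rfl
      have hi : i < β := hl (oz i) (by simp)
      by_cases ht : ty i = true
      · obtain ⟨j, hj1, hj2⟩ := blk i ht
        refine ⟨{oz j}, CO.singleton ?_, fun _ => ⟨j, rfl, hj1, hj2⟩⟩
        show j < β
        exact lt_trans (by rw [← hj2]; exact lt_nx j) hi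
      · exact ⟨∅, ⟨Set.countable_empty, fun _ h => h.elim⟩, fun h => (ht h).elim⟩
  have k3 : ∃ O, CO β O ∧ Cl3 l O := by
    refine ex_of l _ inj3 _ ?_
    rintro ⟨⟨r, p⟩, α⟩ rfl
    have hr : VB β r := hl (oc r) (by simp)
    have hp : VB β p := hl (oc p) (by simp)
    have hα : α < β := hl (oz α) (by simp)
    by_cases h : r.restr α ≤ p.restr α
    · exact ⟨{oc (Cond.glue r p α)}, CO.singleton (hr.glue hp hα.le h), fun _ => rfl⟩
    · exact ⟨∅, ⟨Set.countable_empty, fun _ h => h.elim⟩, fun h' => (h h').elim⟩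
  have k4 : ∃ O, CO β O ∧ Cl4 l O := by
    refine ex_of l _ inj2 _ ?_
    rintro ⟨e, α⟩ rfl
    have he : VB β e := hl (oc e) (by simp)
    have hα : α < β := hl (oz α) (by simp)
    refine ⟨(fun t => (oc (e.node α t) : Wt I X)) ''
      {t : Node | ∀ y ∈ (e.restr α).body, t ∈ e.T α y},
      ⟨(Set.to_countable _).image _, ?_⟩, fun t ht => ⟨t, ht, rfl⟩⟩
    rintro _ ⟨t, ht, rfl⟩
    exact he.node hα ht
  have k5 : ∃ O, CO β O ∧ Cl5 l O := by
    refine ex_of l _ inj3 _ ?_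
    rintro ⟨⟨e, d⟩, α⟩ rfl
    have he : VB β e := hl (oc e) (by simp)
    have hd : VB β d := hl (oc d) (by simp)
    have hα : α < β := hl (oz α) (by simp)
    obtain ⟨d', h1, h2, h3⟩ := dec_below hCst2 hα (hβ α hα).1 (hβ α hα).2 hd he
    exact ⟨{oc d'}, CO.singleton h1, d', rfl, h2, h3⟩
  have k6 : ∃ O, CO β O ∧ Cl6 β l O := by
    refine ex_of l _ inj22 _ ?_
    rintro ⟨e, d⟩ rfl
    have he : VB β e := hl (oc e) (by simp)
    have hd : VB β d := hl (oc d) (by simp)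
    by_cases hex : ∃ α, α < β ∧ e.Below α ∧ d.Below α
    · obtain ⟨α, hα, h1, h2⟩ := hex
      obtain ⟨d', h3, h4, h5⟩ := (hCst2 α (hβ α hα).1 (hβ α hα).2).2.2.2 d e (hd.of_below h2)
        (he.of_below h1)
      exact ⟨{oc d'}, CO.singleton (h4.mono hα.le), fun _ => ⟨d', rfl, h3, h5⟩⟩
    · exact ⟨∅, ⟨Set.countable_empty, fun _ h => h.elim⟩, fun h' => (hex h').elim⟩
  have k7 : ∃ O, CO β O ∧ Cl7 l O := by
    refine ex_of l _ inj3 _ ?_
    rintro ⟨⟨e, d⟩, α⟩ rfl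
    have he : VB β e := hl (oc e) (by simp)
    have hd : VB β d := hl (oc d) (by simp)
    have hα : α < β := hl (oz α) (by simp)
    choose d' h1 h2 h3 using fun t : Node => dec_node (e := e) hα (hβ α hα).2 hd t
    refine ⟨Set.range fun t => (oc (d' t) : Wt I X), ⟨Set.countable_range _, ?_⟩,
      fun t => ⟨d' t, ⟨t, rfl⟩, h2 t, h3 t⟩⟩
    rintro _ ⟨t, rfl⟩
    exact h1 t
  have k8 : ∃ O, CO β O ∧ Cl8 l O := by
    refine ex_of l _ inj2 _ ?_
    rintro ⟨d, α⟩ rfl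
    have hd : VB β d := hl (oc d) (by simp)
    have hα : α < β := hl (oz α) (by simp)
    obtain ⟨d', h1, h2, h3⟩ := add_mem hα hd
    exact ⟨{oc d'}, CO.singleton h1, d', rfl, h2, h3⟩
  have k9 : ∃ O, CO β O ∧ Cl9 l O := by
    refine ex_of l _ inj33 _ ?_
    rintro ⟨⟨d, α⟩, j⟩ rfl
    have hd : VB β d := hl (oc d) (by simp)
    have hα : α < β := hl (oz α) (by simp)
    by_cases h : ty α = false ∧ ty j = false ∧ j < α
    · obtain ⟨d', h1, h2, h3⟩ := hRaise.2 α h.1 j h.2.1 h.2.2 β hα d hd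
      exact ⟨{oc d'}, CO.singleton h2, fun _ _ _ => ⟨d', rfl, h1, h3⟩⟩
    · exact ⟨∅, ⟨Set.countable_empty, fun _ h => h.elim⟩, fun h1 h2 h3 => (h ⟨h1, h2, h3⟩).elim⟩
  obtain ⟨O1, c1, k1⟩ := k1
  obtain ⟨O2, c2, k2⟩ := k2
  obtain ⟨O3, c3, k3⟩ := k3
  obtain ⟨O4, c4, k4⟩ := k4
  obtain ⟨O5, c5, k5⟩ := k5
  obtain ⟨O6, c6, k6⟩ := k6
  obtain ⟨O7, c7, k7⟩ := k7
  obtain ⟨O8, c8, k8⟩ := k8
  obtain ⟨O9, c9, k9⟩ := k9
  refine ⟨O1 ∪ (O2 ∪ (O3 ∪ (O4 ∪ (O5 ∪ (O6 ∪ (O7 ∪ (O8 ∪ O9))))))),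
    c1.union (c2.union (c3.union (c4.union (c5.union (c6.union (c7.union (c8.union c9))))))), ?_⟩
  refine ⟨?_, ?_, ?_, ?_, ?_, ?_, ?_, ?_, ?_⟩
  · intro e he
    obtain ⟨h11, h12⟩ := k1 e he
    exact ⟨fun j hj => Or.inl (h11 hj), fun i => (h12 i).mono fun j hj => ⟨Or.inl hj.1, hj.2⟩⟩
  · intro i hi ht
    obtain ⟨j, hj, h⟩ := k2 i hi ht
    exact ⟨j, Or.inr (Or.inl hj), h⟩
  · exact fun a ha h => Or.inr (Or.inr (Or.inl (k3 a ha h)))
  · exact fun a ha t h => Or.inr (Or.inr (Or.inr (Or.inl (k4 a ha t h))))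
  · intro a ha
    obtain ⟨d, hd, h⟩ := k5 a ha
    exact ⟨d, Or.inr (Or.inr (Or.inr (Or.inr (Or.inl hd)))), h⟩
  · intro a ha hex
    obtain ⟨d, hd, h⟩ := k6 a ha hex
    exact ⟨d, Or.inr (Or.inr (Or.inr (Or.inr (Or.inr (Or.inl hd))))), h⟩
  · intro a ha t
    obtain ⟨d, hd, h⟩ := k7 a ha t
    exact ⟨d, Or.inr (Or.inr (Or.inr (Or.inr (Or.inr (Or.inr (Or.inl hd)))))), h⟩
  · intro a ha
    obtain ⟨d, hd, h⟩ := k8 a ha
    exact ⟨d, Or.inr (Or.inr (Or.inr (Or.inr (Or.inr (Or.inr (Or.inr (Or.inl hd))))))), h⟩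
  · intro a ha h1 h2 h3
    obtain ⟨d, hd, h⟩ := k9 a ha h1 h2 h3
    exact ⟨d, Or.inr (Or.inr (Or.inr (Or.inr (Or.inr (Or.inr (Or.inr (Or.inr hd))))))), h⟩

end

theorem hull' (hRh : RhStmt.{u}) (hRaise : RaiseStmt I) (hCst2 : Cst2Stmt I) :
    HullStmt.{u} I := by
  classical
  intro β hβ X W0 hW0 hW0v C hC Ru hRu
  let Ru' : ℕ → List (Wt I X) → Set (Wt I X) → Set ℕ → Prop := fun n l O C' =>
    ClA β l O ∧ ∀ l' : List (Cond I ⊕ X), l'.map Sum.inl = l →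
      ∃ O2 : Set (Cond I ⊕ X), (∀ w ∈ O2, Sum.inl w ∈ O) ∧ Ru n l' O2 C'
  obtain ⟨H, B, hHc, hW0H, hHok, hBC, hB, hH⟩ := hRh (Wt I X) (Sum.inl '' W0) (hW0.image _) C hC
    (OkW β) Ru' (by
      rintro _ ⟨w, hw, rfl⟩
      cases w with
      | inl e => exact hW0v e hw
      | inr x => trivial) (by
      intro n l hl C' hC' hCi
      obtain ⟨O1, hO1, hcl⟩ := ex_ClA hRaise hCst2 hβ l hl
      by_cases hex : ∃ l' : List (Cond I ⊕ X), l'.map Sum.inl = l
      · obtain ⟨l', rfl⟩ := hex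
        obtain ⟨O2, h1, h2, C'', h3, h4, h5⟩ := hRu n l' (fun e he =>
          hl (Sum.inl (Sum.inl e)) (List.mem_map_of_mem he)) C' hC' hCi
        refine ⟨O1 ∪ Sum.inl '' O2, hO1.1.union (h1.image _), ?_, C'', h3, h4,
          hcl.mono Set.subset_union_left, ?_⟩
        · rintro w (hw | ⟨w, hw, rfl⟩)
          · exact hO1.2 w hw
          · cases w with
            | inl e => exact h2 e hw
            | inr x => trivial
        · intro l'' hl''
          have : l'' = l' := List.map_injective_iff.2 Sum.inl_injective hl''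
          rw [this]
          exact ⟨O2, fun w hw => Or.inr ⟨w, hw, rfl⟩, h5⟩
      · exact ⟨O1, hO1.1, hO1.2, C', Subset.rfl, hCi, hcl, fun l' hl' => (hex ⟨l', hl'⟩).elim⟩)
  have hcl : ∀ l : List (Wt I X), (∀ w ∈ l, w ∈ H) → ClA β l H := by
    intro l hl
    obtain ⟨O, hO, C', _, _, _, h1, _⟩ := hH 0 l hl
    exact h1.mono hO
  let N : Set (Cond I) := {e | oc e ∈ H}
  let Z : Set I := {i | oz i ∈ H}
  let Y : Set X := {x | Sum.inl (Sum.inr x) ∈ H}
  have m1 : ∀ {e : Cond I}, e ∈ N → ∀ w ∈ ([oc e] : List (Wt I X)), w ∈ H := by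
    intro e he w hw
    rw [List.mem_singleton.1 hw]
    exact he
  have hsupp : ∀ e ∈ N, e.S ⊆ Z := fun e he => ((hcl [oc e] (m1 he)).1 e rfl).1
  have m3 : ∀ {e d : Cond I} {α : I}, e ∈ N → d ∈ N → α ∈ Z →
      ∀ w ∈ ([oc e, oc d, oz α] : List (Wt I X)), w ∈ H := by
    intro e d α he hd hα w hw
    simp only [List.mem_cons, List.not_mem_nil, or_false] at hw
    rcases hw with rfl | rfl | rfl
    · exact he
    · exact hd
    · exact hα
  have m2 : ∀ {e : Cond I} {α : I}, e ∈ N → α ∈ Z →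
      ∀ w ∈ ([oc e, oz α] : List (Wt I X)), w ∈ H := by
    intro e α he hα w hw
    simp only [List.mem_cons, List.not_mem_nil, or_false] at hw
    rcases hw with rfl | rfl
    · exact he
    · exact hα
  -- the next coordinate of `Z`
  have hnext : ∀ α : I, (∃ i ∈ Z, α ≤ i) → ∃ α' ∈ Z, α ≤ α' ∧ ∀ i ∈ Z, α ≤ i → α' ≤ i := by
    intro α hex
    obtain ⟨i, hi, hαi⟩ := hex
    have hne : {i | i ∈ Z ∧ α ≤ i}.Nonempty := ⟨i, hi, hαi⟩
    refine ⟨(wellFounded_lt (α := I)).min {i | i ∈ Z ∧ α ≤ i} hne,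
      ((wellFounded_lt (α := I)).min_mem _ hne).1, ((wellFounded_lt (α := I)).min_mem _ hne).2, ?_⟩
    intro j hj hαj
    have hjm : j ∈ {i | i ∈ Z ∧ α ≤ i} := ⟨hj, hαj⟩
    exact not_lt.1 ((wellFounded_lt (α := I)).not_lt_min _ hjm)
  have hGN : GoodN I β N Z := by
    refine ⟨?_, ?_, ?_, ?_, hsupp, ?_, ?_, ?_, ?_, ?_, ?_, ?_, ?_⟩
    · exact hHc.preimage (f := fun e : Cond I => (oc e : Wt I X))
        (fun e e' h => by simpa using h)
    · exact hHc.preimage (f := fun i : I => (oz i : Wt I X)) (fun e e' h => by simpa using h)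
    · exact fun e he => hHok _ he
    · exact fun i hi => hHok _ hi
    · exact fun e he => ((hcl [oc e] (m1 he)).1 e rfl).2
    · intro i hi ht
      obtain ⟨j, h1, h2, h3⟩ := (hcl [oz i] (by
        intro w hw
        rw [List.mem_singleton.1 hw]
        exact hi)).2.1 i rfl ht
      exact ⟨j, h1, h2, h3⟩
    · intro α hα r hr p hp hle
      by_cases hex : ∃ i ∈ Z, α ≤ i
      · obtain ⟨α', hα'Z, hαα', hmin⟩ := hnext α hex
        have h1 := (hcl [oc r, oc p, oz α'] (m3 hr hp hα'Z)).2.2.1 ((r, p), α') rfl (by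
          show r.restr α' ≤ p.restr α'
          rwa [restr_eq_of_gap (hsupp r hr) hαα' hmin, restr_eq_of_gap (hsupp p hp) hαα' hmin])
        have h2 : Cond.glue r p α' = Cond.glue r p α :=
          glue_eq_of_gap (hsupp r hr) (hsupp p hp) hαα' hmin
        change oc (Cond.glue r p α') ∈ H at h1
        rw [h2] at h1
        exact h1
      · push Not at hex
        rw [glue_eq_self (fun i hi => hex i (hsupp r hr hi)) (fun i hi => hex i (hsupp p hp hi))]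
        exact hr
    · intro α hα e he t ht
      refine ⟨e.node α t, (hcl [oc e, oz α] (m2 he hα)).2.2.2.1 (e, α) rfl t ht,
        Cond.node_le ht, Cond.node_restr e t le_rfl, fun y hy => Cond.node_T hy (ht y hy)⟩
    · intro α hα e he d hd
      by_cases hex : ∃ i ∈ Z, α ≤ i
      · obtain ⟨α', hα'Z, hαα', hmin⟩ := hnext α hex
        obtain ⟨d', h1, h2, h3⟩ :=
          (hcl [oc e, oc d, oz α'] (m3 he hd hα'Z)).2.2.2.2.1 ((e, d), α') rfl
        refine ⟨d', h1, h2, ?_⟩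
        rwa [← restr_eq_of_gap (hsupp d' h1) hαα' hmin, ← restr_eq_of_gap (hsupp e he) hαα' hmin]
      · push Not at hex
        have hb : ∀ e ∈ N, Cond.Below e α := fun e he i hi => hex i (hsupp e he hi)
        obtain ⟨d', h1, h2, h3⟩ := (hcl [oc e, oc d] (by
          intro w hw
          simp only [List.mem_cons, List.not_mem_nil, or_false] at hw
          rcases hw with rfl | rfl
          · exact he
          · exact hd)).2.2.2.2.2.1 (e, d) rfl ⟨α, hα, hb e he, hb d hd⟩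
        refine ⟨d', h1, h2, ?_⟩
        rwa [(hb d' h1).restr_eq, (hb e he).restr_eq]
    · intro α hα e he t d hd
      obtain ⟨d', h1, h2, h3⟩ :=
        (hcl [oc e, oc d, oz α] (m3 he hd hα)).2.2.2.2.2.2.1 ((e, d), α) rfl t
      exact ⟨d', h1, h2, h3⟩
    · intro α hα d hd
      obtain ⟨d', h1, h2, h3⟩ := (hcl [oc d, oz α] (m2 hd hα)).2.2.2.2.2.2.2.1 (d, α) rfl
      exact ⟨d', h1, h2, h3⟩
    · intro α hα hta j hj htj hjα d hd
      obtain ⟨d', h1, h2, h3⟩ := (hcl [oc d, oz α, oz j] (by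
        intro w hw
        simp only [List.mem_cons, List.not_mem_nil, or_false] at hw
        rcases hw with rfl | rfl | rfl
        · exact hd
        · exact hα
        · exact hj)).2.2.2.2.2.2.2.2 ((d, α), j) rfl hta htj hjα
      exact ⟨d', h1, h2, h3⟩
  refine ⟨N, Z, Y, B, hGN, ?_, ?_, ?_, hBC, hB, ?_⟩
  · exact hHc.preimage (f := fun x : X => (Sum.inl (Sum.inr x) : Wt I X))
      (fun e e' h => by simpa using h)
  · exact fun e he => hW0H ⟨_, he, rfl⟩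
  · exact fun x hx => hW0H ⟨_, hx, rfl⟩
  · intro n l hl1 hl2
    obtain ⟨O, hO, C', h1, h2, h3, _, h4⟩ := hH n (l.map Sum.inl) (by
      intro w hw
      rw [List.mem_map] at hw
      obtain ⟨w', hw', rfl⟩ := hw
      cases w' with
      | inl e => exact hl1 e hw'
      | inr x => exact hl2 x hw')
    obtain ⟨O2, h5, h6⟩ := h4 l rfl
    exact ⟨O2, fun e he => hO (h5 _ he), fun x hx => hO (h5 _ hx), C', h1, h2, h3, h6⟩

end Pool.Agent.MG
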