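import Pool.Agent.Helper56_MG.Stmts2

/-!
# JEX: the reals of the two sets are names
-/

open Set

namespace Pool.Agent.MG

theorem measurable_chg (F : Finset ℕ) : Measurable (fun x : R => chg x F) :=
  measurable_pi_lambda _ fun n =>
    (measurable_of_countable (fun b : Bool => xor b (decide (n ∈ F)))).comp (measurable_pi_apply n)

theorem measurable_cpl : Measurable cpl :=
  measurable_pi_lambda _ fun n =>
    (measurable_of_countable (fun b : Bool => !b)).comp (measurable_pi_apply n)

theorem measurable_sm {Ω : Type} [MeasurableSpace Ω] {f g : Ω → R} (hf : Measurable f)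
    (hg : Measurable g) : Measurable (fun w => sm (f w) (g w)) := by
  refine measurable_pi_lambda _ fun n => ?_
  have h1 : Measurable (fun w => (f w n, g w n)) :=
    ((measurable_pi_apply n).comp hf).prodMk ((measurable_pi_apply n).comp hg)
  exact (measurable_of_countable (fun b : Bool × Bool => xor b.1 b.2)).comp h1

theorem jex (hEr : ErStmt) : JExStmt := by
  have he := hEr.1
  refine ⟨fun i => ⟨?_, fun y y' h => ?_⟩, fun i => ⟨?_, fun y y' h => ?_⟩⟩
  · exact he.comp ((measurable_chg _).comp (measurable_pi_apply _))
  · unfold fX
    rw [h (JJ.s i.1) (by simp)]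
  · unfold fY
    cases i.1
    · exact he.comp ((measurable_chg _).comp
        (measurable_sm (measurable_pi_apply (JJ.s i.2.1)) (measurable_pi_apply (JJ.m i.2.1))))
    · exact he.comp ((measurable_chg _).comp (measurable_cpl.comp (measurable_pi_apply _)))
  · unfold fY
    rw [h (JJ.s i.2.1) (by simp [lt_ixs]), h (JJ.m i.2.1) (by simp [lt_ixs])]

end Pool.Agent.MG
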