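import Pool.Agent.Helper10_MG.GD
import Pool.Agent.Helper10_MG.HG
import Pool.Agent.Helper13_MG.PFS
import Pool.Agent.Helper14_MG.Rm
import Pool.Agent.Helper14_MG.Rs
import Pool.Agent.Helper29_MG.Asm
import Pool.Agent.Helper32_MG.Jnew
import Pool.Agent.Helper32_MG.Jnp
import Pool.Agent.Helper33_MG.Info
import Pool.Agent.Helper34_MG.Cov
import Pool.Agent.Helper34_MG.Rall
import Pool.Agent.Helper42_MG.Jgpl
import Pool.Agent.Helper42_MG.Jxmen
import Pool.Agent.Helper44_MG.Jymen
import Pool.Agent.Helper4_MG.Int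
import Pool.Agent.Helper51_MG.Dl
import Pool.Agent.Helper51_MG.Fact4
import Pool.Agent.Helper58_MG.Mfus
import Pool.Agent.Helper63_MG.Clp
import Pool.Agent.Helper63_MG.Gap
import Pool.Agent.Helper63_MG.Rh
import Pool.Agent.Helper63_MG.Typ
import Pool.Agent.Helper68_MG.Mloc
import Pool.Agent.Helper68_MG.Cplf
import Pool.Agent.Helper69_MG.ER
import Pool.Agent.Helper69_MG.JADD
import Pool.Agent.Helper72_MG.AVD
import Pool.Agent.Helper72_MG.EV
import Pool.Agent.Helper72_MG.TSY
import Pool.Agent.Helper73_MG.FTM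
import Pool.Agent.Helper73_MG.PULL
import Pool.Agent.Helper73_MG.RAISE
import Pool.Agent.Helper73_MG.REL
import Pool.Agent.Helper77_MG.Jcount
import Pool.Agent.Helper77_MG.Jdbr
import Pool.Agent.Helper82_MG.Claim
import Pool.Agent.Helper82_MG.Step
import Pool.Agent.Helper83_MG.JConst
import Pool.Agent.Helper83_MG.JDom
import Pool.Agent.Helper8_MG.EECOMP
import Pool.Agent.Helper8_MG.FTS
import Pool.Agent.Helper8_MG.JBND
import Pool.Agent.Helper8_MG.SFREE
import Pool.Agent.Helper8_MG.SBD
import Pool.Agent.Helper8_MG.SYS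
import Pool.Agent.Helper92_MG.Prop
import Pool.Agent.Helper93_MEN.G4
import Pool.Agent.Helper56_MG.Adapt
import Pool.Agent.Helper56_MG.Jex
import Pool.Agent.Helper56_MG.Extd
import Pool.Agent.Helper56_MG.Cst2New
import Pool.Agent.Helper56_MG.Hull

/-!
# Combination of the modules
-/

namespace Pool.Agent.MG

open MenG in
/-- All the modules combined. -/
theorem combineAll : PLevel DD := by
  have hCst2 : Cst2Stmt JJ := cst2'
  have rel : RelStmt := H73.relStmt
  have pull : PullStmt JJ := H73.pullStmt rel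
  have raise : RaiseStmt JJ := H73.raiseStmt rel H72.evStmt pull
  have gd : GdStmt JJ := H10.gd
  have hg : HgStmt JJ := H10.hg
  have sys : SysStmt JJ := H8.sysStmt
  have mfus : MfusStmt JJ := H58.mfus
  have sfus : SfusStmt JJ := H58.sfus
  have fts : FtSStmt := H8.ftsStmt
  have ftm : FtMStmt := H73.ftmStmt
  have sfree : SfreeStmt JJ := H8.sfreeStmt fts sys
  have step : StepStmt JJ := H82.step hCst2 mfus sfus ftm fts sys sfree hg
  have claim : ClaimStmt JJ := H82.claim hg step
  have hull0 : HullStmt.{0} JJ := hull' H63.rh raise hCst2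
  have hull1 : HullStmt.{1} JJ := hull' H63.rh raise hCst2
  have prop : PropStmt JJ := H92.prop JJ hull0 gd hg claim hCst2
  have rm : RmStmt JJ :=
    H14.rmStmt prop hull0 gd hg claim mfus sys ftm H63.clp H63.typ H63.gap hCst2
  have rs : RsStmt JJ :=
    H14.rsStmt prop hull0 gd hg claim sfus sfree fts H63.typ H63.gap hCst2
  have int : IntStmt JJ := H4.int JJ prop hull0 gd hg claim hCst2
  have tra : TraStmt JJ := H4.tra JJ prop hull0 gd hg claim hCst2
  have dl : DlStmt JJ := H51.dl prop hCst2
  have asm : AsmStmt JJ := H29.asm prop hull0 gd hg claim hCst2 dl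
  have rall : RallStmt JJ := H34.rall rm rs int tra asm
  have fact4 : Fact4Stmt JJ := H51.fact4 prop rall H63.gap H72.tsyStmt ftm hCst2
  have cov : CovStmt JJ := H34.cov rel (H13.pfs rel) H72.avdStmt pull raise prop hCst2
  have jconst : JConstStmt := H83.jConst hCst2 prop
  have thinm : ThinmStmt := H83.thinM jconst
  have extd : ExtdStmt := MG.extd jconst
  have sbd : SbdStmt := H8.sbdStmt prop hull0 gd hg claim sfus sfree fts sys hCst2
  have mloc : MlocStmt := H68.mloc H72.tsyStmt ftm
  have cplf : CplfStmt := H68.cplf pull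
  have er : ErStmt := H69.er
  have jbnd : BndStmt := H8.bndStmt
  have jcount : CountStmt := H77.jcount
  have jdom : JDomStmt := H83.jDom jbnd
  have ee : EeStmt := H8.eeStmt er
  have comp : CompStmt := H8.compStmt er
  have ex : JExStmt := jex er
  have jnew : JNewStmt := H32.jnew new' jbnd
  have jndom : JNDomStmt := H32.jndom jbnd jcount thinm
  have jadd : JAddStmt := H69.jadd jbnd jcount jconst sbd mloc er
  have jx : JXmenStmt := H42.jxmen jbnd jconst thinm ee comp ex jnew cov
  have jy : JYmenStmt := H44.jymen cov fact4 jnew ee comp thinm jconst ex jbnd cplf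
  have info : InfoStmt := H33.info extd jconst
  have jnp : JNProdStmt := H32.jnp er info jdom
  exact adapt (H77.jdec prop) (H77.jbr prop) (H77.jreap rall)
    (H42.jgpl hull1 gd hg claim prop) ex jndom jdom jadd jx jy jnp

end Pool.Agent.MG
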