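import Mathlib

/-!
# Menger productivity: definitions of the forcing (free Sacks trees and Miller trees)

Trees on finite sequences of bits, conditions (measurable families of trees with countable support
over a well ordered index set), free closed set names, valid conditions.
-/

open Set

namespace Pool.Agent.MG

abbrev Node := List Bool

/-- Points of the Cantor space. -/
abbrev R := ℕ → Bool

/-- Initial segment. -/
def pre (x : R) (n : ℕ) : Node := (List.range n).map x

/-- The node lies on the branch. -/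
def On (s : Node) (x : R) : Prop := pre x s.length = s

/-- Closed set described by a set of nodes. -/
def bS (T : Set Node) : Set R := {x | ∀ n, pre x n ∈ T}

/-- Infinitely many ones. -/
def Inf1 (x : R) : Prop := ∀ n, ∃ k, n ≤ k ∧ x k = true

/-- Splitting nodes: for the type `false` (Sacks) both successors are in the tree, for the type
`true` (Miller) infinitely many nodes `t 0...0 1` are in the tree. -/
def Spl : Bool → Set Node → Node → Prop
  | false, T, t => t ++ [false] ∈ T ∧ t ++ [true] ∈ T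
  | true, T, t => ∀ n, ∃ k, n ≤ k ∧ t ++ List.replicate k false ++ [true] ∈ T

/-- Good trees of type `b`: perfect trees for `b = false`, rational perfect trees for
`b = true`. -/
structure Good (b : Bool) (T : Set Node) : Prop where
  nil : [] ∈ T
  down : ∀ s a, s ++ [a] ∈ T → s ∈ T
  spl : ∀ s ∈ T, ∃ t ∈ T, s <+: t ∧ Spl b T t

/-- The branches of a tree of type `b`. -/
def bd (b : Bool) (T : Set Node) : Set R := {x | x ∈ bS T ∧ (b = true → Inf1 x)}

/-- Index sets: well orders with successors `nx`, every coordinate has a type, `false` for Sacks and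
`true` for Miller; every Miller coordinate is the successor of a Sacks coordinate. -/
class Idx (I : Type) extends LinearOrder I where
  wf : WellFoundedLT I
  ty : I → Bool
  nx : I → I
  bt : I
  lt_nx : ∀ i, i < nx i
  nx_le : ∀ i j, i < j → nx i ≤ j
  bt_le : ∀ i, bt ≤ i
  blk : ∀ i, ty i = true → ∃ j, ty j = false ∧ nx j = i

instance {I : Type} [Idx I] : WellFoundedLT I := Idx.wf

export Idx (ty nx bt lt_nx nx_le bt_le blk)

/-- Points of the index space. -/
abbrev Pt (I : Type) := I → R

/-- `f` depends only on the coordinates in `C`. -/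
def DepOn {I : Type} {β : Sort*} (C : Set I) (f : Pt I → β) : Prop :=
  ∀ y y' : Pt I, (∀ i ∈ C, y i = y' i) → f y = f y'

/-- `f` depends only on the coordinates below `ρ`. -/
def Dep {I : Type} [Idx I] {β : Sort*} (ρ : I) (f : Pt I → β) : Prop :=
  ∀ y y' : Pt I, (∀ i, i < ρ → y i = y' i) → f y = f y'

/-- Functions with measurable fibres and countable range. -/
def MeasC {Ω : Type*} [MeasurableSpace Ω] {X : Type*} (f : Ω → X) : Prop :=
  (∀ x, MeasurableSet {w | f w = x}) ∧ (Set.range f).Countable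

/-- Conditions without the freeness requirement: a good tree for every coordinate, which is a
measurable function of the previous coordinates; outside of the countable support the tree is the
set of all nodes. -/
structure Cond (I : Type) [Idx I] where
  T : I → Pt I → Set Node
  S : Set I
  good : ∀ i y, Good (ty i) (T i y)
  scount : S.Countable
  full' : ∀ i, i ∉ S → ∀ y, T i y = Set.univ
  dep : ∀ i, Dep i (T i)
  meas : ∀ i, Measurable (T i)

section
variable {I : Type} [Idx I]

/-- The set of points of a condition: no requirement outside of the support. -/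
def Cond.body (p : Cond I) : Set (Pt I) := {y | ∀ i ∈ p.S, y i ∈ bd (ty i) (p.T i y)}

/-- `q ≤ p` iff the body of `q` is contained in the body of `p`. -/
instance : Preorder (Cond I) where
  le q p := q.body ⊆ p.body
  le_refl p := Set.Subset.refl _
  le_trans _ _ _ h h' := Set.Subset.trans h h'

theorem Cond.le_def {q p : Cond I} : q ≤ p ↔ q.body ⊆ p.body := Iff.rfl

theorem good_univ (b : Bool) : Good b Set.univ := by
  refine ⟨trivial, fun _ _ _ => trivial, fun s _ => ⟨s, trivial, List.prefix_rfl, ?_⟩⟩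
  cases b
  · exact ⟨trivial, trivial⟩
  · exact fun n => ⟨n, le_rfl, trivial⟩

/-- The condition lives on the coordinates below `ρ`. -/
def Cond.Below (p : Cond I) (ρ : I) : Prop := ∀ i ∈ p.S, i < ρ

/-- The trivial condition. -/
def Cond.one (I : Type) [Idx I] : Cond I where
  T := fun _ _ => Set.univ
  S := ∅
  good := fun _ _ => good_univ _
  scount := Set.countable_empty
  full' := fun _ _ _ => rfl
  dep := fun _ _ _ _ => rfl
  meas := fun _ => measurable_const

open Classical in
/-- Restriction to the coordinates below `ρ`. -/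
noncomputable def Cond.restr (p : Cond I) (ρ : I) : Cond I where
  T := fun i y => if i < ρ then p.T i y else Set.univ
  S := {i | i ∈ p.S ∧ i < ρ}
  good := by
    intro i y
    split_ifs
    · exact p.good i y
    · exact good_univ _
  scount := p.scount.mono fun _ h => h.1
  full' := by
    intro i hi y
    split_ifs with h
    · exact p.full' i (fun h' => hi ⟨h', h⟩) y
    · rfl
  dep := by
    intro i y y' h
    simp only [p.dep i y y' h]
  meas := by
    intro i
    by_cases hi : i < ρ
    · simpa [hi] using p.meas i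
    · simp [hi]

open Classical in
/-- The part of `r` below `ρ` followed by the part of `p` from `ρ` on. -/
noncomputable def Cond.glue (r p : Cond I) (ρ : I) : Cond I where
  T := fun i y => if i < ρ then r.T i y else p.T i y
  S := {i | (i ∈ r.S ∧ i < ρ) ∨ (i ∈ p.S ∧ ¬ i < ρ)}
  good := by
    intro i y
    split_ifs
    · exact r.good i y
    · exact p.good i y
  scount := (r.scount.union p.scount).mono fun _ h => h.imp (fun h => h.1) (fun h => h.1)
  full' := by
    intro i hi y
    split_ifs with h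
    · exact r.full' i (fun h' => hi (Or.inl ⟨h', h⟩)) y
    · exact p.full' i (fun h' => hi (Or.inr ⟨h', h⟩)) y
  dep := by
    intro i y y' h
    simp only [r.dep i y y' h, p.dep i y y' h]
  meas := by
    intro i
    by_cases hi : i < ρ
    · simpa [hi] using r.meas i
    · simpa [hi] using p.meas i

/-- `q` extends `r`: the same data below `ρ`. -/
def Cond.Ext (ρ : I) (r q : Cond I) : Prop :=
  (∀ i, i < ρ → q.T i = r.T i) ∧ (∀ i, i < ρ → (i ∈ q.S ↔ i ∈ r.S))

/-- The part of a tree compatible with a node. -/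
def subT (T : Set Node) (t : Node) : Set Node := {s | s ∈ T ∧ (s <+: t ∨ t <+: s)}

end

/-! ### Closed relations -/

/-- The closed relation described by a set of pairs of nodes. -/
def rb (H : Set (Node × Node)) : Set (R × R) := {z | ∀ n, (pre z.1 n, pre z.2 n) ∈ H}

/-- The relation is functional in the second variable. -/
def Fnl (H : Set (Node × Node)) : Prop :=
  ∀ s s' x, (s, x) ∈ rb H → (s', x) ∈ rb H → s = s'

/-- Second projection. -/
def pr2 (H : Set (Node × Node)) : Set R := {x | ∃ s, (s, x) ∈ rb H}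

/-! ### Free names and valid conditions -/

section
variable {I : Type} [Idx I]

/-- State of the recursion. -/
structure FState (I : Type) [Idx I] where
  V : Cond I → Prop
  F : (Pt I → Set R) → Prop

/-- Valid conditions below `ρ`, given the state at the previous coordinates. -/
def stepV (ρ : I) (ih : (i : I) → i < ρ → FState I) (p : Cond I) : Prop :=
  p.Below ρ ∧ ∀ (i : I) (hi : i < ρ), ty i = false →
    ∀ p0, (ih i hi).V p0 → p0 ≤ p.restr i → ∃ p1, p1 ≤ p0 ∧ (ih i hi).V p1 ∧
      ∃ (ρ' : I) (hρ : ρ' ≤ i) (T' : Pt I → Set Node), Measurable T' ∧ Dep ρ' T' ∧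
        (ih ρ' (lt_of_le_of_lt hρ hi)).F (fun y => bS (T' y)) ∧ ∀ y ∈ p1.body, p.T i y = T' y

/-- Free names at `ρ`, given the state at the previous coordinates. -/
def stepF (ρ : I) (ih : (i : I) → i < ρ → FState I) (A : Pt I → Set R) : Prop :=
  ∀ (ε : I) (hε : ε < ρ), ty ε = false → ∀ p, stepV ρ ih p → ∃ q, q ≤ p ∧ stepV ρ ih q ∧
    ∃ (ρs : ℕ → I) (hρ : ∀ k, ρs k ≤ ε) (H : ℕ → Pt I → Set (Node × Node)),
      (∀ k, Measurable (H k) ∧ Dep (ρs k) (H k) ∧ (∀ y, Fnl (H k y)) ∧
        (ih (ρs k) (lt_of_le_of_lt (hρ k) hε)).F (fun y => pr2 (H k y))) ∧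
      ∀ y ∈ q.body, ∀ x ∈ A y, ∃ k, (y ε, x) ∈ rb (H k y)

/-- The recursion along the index set. -/
noncomputable def fstate : I → FState I :=
  (wellFounded_lt (α := I)).fix fun ρ ih => ⟨stepV ρ ih, stepF ρ ih⟩

theorem fstate_eq (ρ : I) :
    fstate ρ = ⟨stepV ρ (fun i _ => fstate i), stepF ρ (fun i _ => fstate i)⟩ :=
  (wellFounded_lt (α := I)).fix_eq _ ρ

/-- Valid conditions below `ρ`. -/
def VB (ρ : I) (p : Cond I) : Prop := (fstate ρ).V p

/-- Free set names at `ρ`. -/
def Fr (ρ : I) (A : Pt I → Set R) : Prop := (fstate ρ).F A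

/-- The tree name `T` at the coordinate `i` is locally free below `r`. -/
def LV (i : I) (r : Cond I) (T : Pt I → Set Node) : Prop :=
  ∀ p0, VB i p0 → p0 ≤ r → ∃ p1, p1 ≤ p0 ∧ VB i p1 ∧
    ∃ (ρ' : I) (T' : Pt I → Set Node), ρ' ≤ i ∧ Measurable T' ∧ Dep ρ' T' ∧
      Fr ρ' (fun y => bS (T' y)) ∧ ∀ y ∈ p1.body, T y = T' y

theorem VB_iff (ρ : I) (p : Cond I) :
    VB ρ p ↔ p.Below ρ ∧ ∀ i, i < ρ → ty i = false → LV i (p.restr i) (p.T i) := by
  unfold VB
  rw [fstate_eq]
  constructor
  · rintro ⟨h1, h2⟩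
    refine ⟨h1, fun i hi ht p0 hp0 hle => ?_⟩
    obtain ⟨p1, h3, h4, ρ', hρ, T', h5, h6, h7, h8⟩ := h2 i hi ht p0 hp0 hle
    exact ⟨p1, h3, h4, ρ', T', hρ, h5, h6, h7, h8⟩
  · rintro ⟨h1, h2⟩
    refine ⟨h1, fun i hi ht p0 hp0 hle => ?_⟩
    obtain ⟨p1, h3, h4, ρ', T', hρ, h5, h6, h7, h8⟩ := h2 i hi ht p0 hp0 hle
    exact ⟨p1, h3, h4, ρ', hρ, T', h5, h6, h7, h8⟩

theorem Fr_iff (ρ : I) (A : Pt I → Set R) :
    Fr ρ A ↔ ∀ ε, ε < ρ → ty ε = false → ∀ p, VB ρ p → ∃ q, q ≤ p ∧ VB ρ q ∧
      ∃ (ρs : ℕ → I) (H : ℕ → Pt I → Set (Node × Node)),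
        (∀ k, ρs k ≤ ε ∧ Measurable (H k) ∧ Dep (ρs k) (H k) ∧ (∀ y, Fnl (H k y)) ∧
          Fr (ρs k) (fun y => pr2 (H k y))) ∧
        ∀ y ∈ q.body, ∀ x ∈ A y, ∃ k, (y ε, x) ∈ rb (H k y) := by
  have hV : ∀ p, VB ρ p ↔ stepV ρ (fun i _ => fstate i) p := by
    intro p
    unfold VB
    rw [fstate_eq]
  unfold Fr
  rw [fstate_eq]
  constructor
  · intro h ε hε ht p hp
    obtain ⟨q, h1, h2, ρs, hρ, H, h3, h4⟩ := h ε hε ht p ((hV p).1 hp)
    exact ⟨q, h1, (hV q).2 h2, ρs, H, fun k => ⟨hρ k, h3 k⟩, h4⟩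
  · intro h ε hε ht p hp
    obtain ⟨q, h1, h2, ρs, H, h3, h4⟩ := h ε hε ht p ((hV p).2 hp)
    exact ⟨q, h1, (hV q).1 h2, ρs, fun k => (h3 k).1, H, fun k => (h3 k).2, h4⟩

/-- At the coordinate `i` the tree of `d` is free of rank bigger than `j`. -/
def Rk (d : Cond I) (i j : I) : Prop :=
  ∃ (ρ : I) (T' : Pt I → Set Node), j < ρ ∧ ρ ≤ i ∧ Measurable T' ∧ Dep ρ T' ∧
    Fr ρ (fun y => bS (T' y)) ∧ ∀ y ∈ (d.restr i).body, d.T i y = T' y

end

end Pool.Agent.MG
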