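import Pool.Agent.Helper56_MG.Defs
import Pool.Agent.Helper93_FL.RDefs

/-!
# The index set of the iteration
-/

open Set

namespace Pool.Agent.MG

open Pool.Agent.FL (Ix)

/-- Coordinates: `s k` (Sacks) and `m k` (Miller) for `k : Ix`, and `t n` above all of them (not
used by the forcing, `t 0` is the length of the iteration). -/
inductive JJ : Type
  | s : Ix → JJ
  | m : Ix → JJ
  | t : ℕ → JJ

/-- Position of a coordinate in a lexicographic product. -/
def JJ.key : JJ → WithTop Ix ×ₗ ℕ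
  | .s k => toLex (((k : Ix) : WithTop Ix), 0)
  | .m k => toLex (((k : Ix) : WithTop Ix), 1)
  | .t n => toLex ((⊤ : WithTop Ix), n)

theorem JJ.key_injective : Function.Injective JJ.key := by
  intro a b h
  cases a <;> cases b <;> simp_all [JJ.key]

noncomputable instance : LinearOrder JJ := LinearOrder.lift' JJ.key JJ.key_injective

theorem JJ.lt_def (a b : JJ) : a < b ↔ a.key < b.key := Iff.rfl
theorem JJ.le_def (a b : JJ) : a ≤ b ↔ a.key ≤ b.key := Iff.rfl

@[simp] theorem JJ.s_lt_s {k l : Ix} : JJ.s k < JJ.s l ↔ k < l := by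
  simp [JJ.lt_def, JJ.key, Prod.Lex.toLex_lt_toLex]
@[simp] theorem JJ.s_lt_m {k l : Ix} : JJ.s k < JJ.m l ↔ k ≤ l := by
  simp [JJ.lt_def, JJ.key, Prod.Lex.toLex_lt_toLex, le_iff_lt_or_eq]
@[simp] theorem JJ.m_lt_s {k l : Ix} : JJ.m k < JJ.s l ↔ k < l := by
  simp [JJ.lt_def, JJ.key, Prod.Lex.toLex_lt_toLex]
@[simp] theorem JJ.m_lt_m {k l : Ix} : JJ.m k < JJ.m l ↔ k < l := by
  simp [JJ.lt_def, JJ.key, Prod.Lex.toLex_lt_toLex]
@[simp] theorem JJ.s_lt_t {k : Ix} {n : ℕ} : JJ.s k < JJ.t n := by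
  simp [JJ.lt_def, JJ.key, Prod.Lex.toLex_lt_toLex]
@[simp] theorem JJ.m_lt_t {k : Ix} {n : ℕ} : JJ.m k < JJ.t n := by
  simp [JJ.lt_def, JJ.key, Prod.Lex.toLex_lt_toLex]
@[simp] theorem JJ.not_t_lt_s {k : Ix} {n : ℕ} : ¬ JJ.t n < JJ.s k := by
  simp [JJ.lt_def, JJ.key, Prod.Lex.toLex_lt_toLex]
@[simp] theorem JJ.not_t_lt_m {k : Ix} {n : ℕ} : ¬ JJ.t n < JJ.m k := by
  simp [JJ.lt_def, JJ.key, Prod.Lex.toLex_lt_toLex]
@[simp] theorem JJ.t_lt_t {m n : ℕ} : JJ.t m < JJ.t n ↔ m < n := by
  simp [JJ.lt_def, JJ.key, Prod.Lex.toLex_lt_toLex]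

instance : WellFoundedLT (WithTop Ix ×ₗ ℕ) := inferInstance

instance : WellFoundedLT JJ :=
  ⟨(InvImage.wf JJ.key (wellFounded_lt (α := WithTop Ix ×ₗ ℕ)))⟩

/-- There is no largest element in `Ix`. -/
theorem ix_exists_gt (k : Ix) : ∃ l, k < l := by
  have : NoMaxOrder Ix := by
    apply Cardinal.noMaxOrder
    exact (Cardinal.aleph0_le_continuum.trans (Order.le_succ _))
  exact exists_gt k

open Classical in
/-- Successor in `Ix`. -/
noncomputable def ixs (k : Ix) : Ix :=
  (wellFounded_lt (α := Ix)).min {l | k < l} (ix_exists_gt k)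

theorem lt_ixs (k : Ix) : k < ixs k :=
  (wellFounded_lt (α := Ix)).min_mem {l | k < l} (ix_exists_gt k)

theorem ixs_le {k l : Ix} (h : k < l) : ixs k ≤ l :=
  not_lt.1 ((wellFounded_lt (α := Ix)).not_lt_min {l | k < l} h)

theorem ix_nonempty : (Set.univ : Set Ix).Nonempty := by
  have : Nonempty Ix := by
    rw [← Cardinal.mk_ne_zero_iff, Cardinal.mk_ord_toType]
    exact (Cardinal.succ_pos _).ne'
  exact Set.univ_nonempty

/-- The least element of `Ix`. -/
noncomputable def ixb : Ix := (wellFounded_lt (α := Ix)).min Set.univ ix_nonempty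

theorem ixb_le (k : Ix) : ixb ≤ k :=
  not_lt.1 ((wellFounded_lt (α := Ix)).not_lt_min Set.univ trivial)

noncomputable instance : Idx JJ where
  wf := inferInstance
  ty := fun i => match i with
    | .s _ => false
    | .m _ => true
    | .t _ => false
  nx := fun i => match i with
    | .s k => .m k
    | .m k => .s (ixs k)
    | .t n => .t (n + 1)
  bt := .s ixb
  lt_nx := by
    intro i
    cases i with
    | s k => simp
    | m k => simp [lt_ixs]
    | t n => simp
  nx_le := by
    intro i j h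
    rw [← not_lt]
    intro h'
    cases i with
    | s k =>
      cases j with
      | s l => exact absurd h' (by simpa using h)
      | m l => exact absurd (JJ.m_lt_m.1 h') (not_lt.2 (JJ.s_lt_m.1 h))
      | t n => simp at h'
    | m k =>
      cases j with
      | s l => exact absurd (JJ.s_lt_s.1 h') (not_lt.2 (ixs_le (JJ.m_lt_s.1 h)))
      | m l =>
        have h1 : k < l := JJ.m_lt_m.1 h
        have h2 : l < ixs k := JJ.m_lt_s.1 h'
        exact absurd h2 (not_lt.2 (ixs_le h1))
      | t n => simp at h'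
    | t m =>
      cases j with
      | s l => simp at h
      | m l => simp at h
      | t n =>
        simp at h h'
        omega
  bt_le := by
    intro i
    rw [← not_lt]
    intro h
    cases i with
    | s k => exact absurd (JJ.s_lt_s.1 h) (not_lt.2 (ixb_le k))
    | m k =>
      exact absurd (JJ.m_lt_s.1 h) (not_lt.2 (ixb_le k))
    | t n => simp at h
  blk := by
    intro i h
    cases i with
    | s k => simp at h
    | m k => exact ⟨.s k, rfl, rfl⟩
    | t n => simp at h

@[simp] theorem ty_s (k : Ix) : ty (JJ.s k) = false := rfl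
@[simp] theorem ty_m (k : Ix) : ty (JJ.m k) = true := rfl
@[simp] theorem ty_t (n : ℕ) : ty (JJ.t n) = false := rfl
@[simp] theorem nx_s (k : Ix) : nx (JJ.s k) = JJ.m k := rfl
@[simp] theorem nx_m (k : Ix) : nx (JJ.m k) = JJ.s (ixs k) := rfl

end Pool.Agent.MG
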