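import Pool.Agent.Helper93_FL.AStmts
import Pool.Agent.Helper93_FL.RDefs
import Pool.Agent.Helper93_MEN.Public

/-!
# Names over an abstract forcing with measurable reading of names: definitions

`PT` is the space of points, `RC` the forcing, `rb r` the set of points of the condition `r`.
-/

open MeasureTheory Set

namespace Pool.Agent.MGN

open Pool.Agent.FL (BSet beq bmem nn sb om IsDenseEmb cutS Fml IsZFC OmegaStd IsNum Codes
  IsRealSet realsOf)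
open Pool.Agent.Men (gr SeqIn iv iv2 MengerIn MengerIn2 ReapIn IsOPair DomLe)

/-- The successor cardinal of the continuum. -/
abbrev Ix : Type := Pool.Agent.FL.Ix

/-! ## The interface -/

section
variable {PT : Type} [MeasurableSpace PT] {RC : Type} [Preorder RC]

/-- The basic facts on the forcing. -/
structure Bas (rb : RC → Set PT) : Prop where
  le_iff : ∀ r r', r ≤ r' ↔ rb r ⊆ rb r'
  ne : ∀ r, (rb r).Nonempty
  meas : ∀ r, MeasurableSet (rb r)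
  dec : ∀ (r : RC) (A : Set PT), MeasurableSet A → ∃ r' ≤ r, rb r' ⊆ A ∨ rb r' ⊆ Aᶜ
  br : ∀ (r : RC) (D : ℕ → Set RC), (∀ i, ∀ d ∈ D i, ∀ e ≤ d, e ∈ D i) →
    (∀ i, ∀ q ≤ r, ∃ d ∈ D i, d ≤ q) →
    ∃ r' ≤ r, ∀ i, ∃ E : Set RC, E.Countable ∧ E ⊆ D i ∧ rb r' ⊆ ⋃ d ∈ E, rb d

/-- Generic point over a countable hull. -/
def GplG (rb : RC → Set PT) : Prop :=
  ∀ (W : Type 1) (cd : RC → W), Function.Injective cd →
    ∀ (ops : ℕ → List W → W) (D : ℕ → List W → Set RC),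
    (∀ i l, ∀ d ∈ D i l, ∀ e ≤ d, e ∈ D i l) → (∀ i l, ∀ q, ∃ d ∈ D i l, d ≤ q) →
    ∀ (p : RC) (W0 : Set W), W0.Countable →
    ∃ H : Set W, W0 ⊆ H ∧ H.Countable ∧ cd p ∈ H ∧
      (∀ i l, (∀ x ∈ l, x ∈ H) → ops i l ∈ H) ∧
      ∃ g ∈ rb p, ∀ i l, (∀ x ∈ l, x ∈ H) → ∃ d, cd d ∈ H ∧ d ∈ D i l ∧ g ∈ rb d

/-- Reaping. -/
def ReapG (rb : RC → Set PT) : Prop :=
  ∀ (r : RC) (S : PT → Set ℕ), Measurable S → ∃ r' ≤ r, ∃ A : Set ℕ, A.Infinite ∧
    ((∀ z ∈ rb r', A ⊆ S z) ∨ ∀ z ∈ rb r', Disjoint A (S z))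

/-- Families of at most continuum many names are not dominating. -/
def NDomG (rb : RC → Set PT) (tr : Ix → PT → ℕ → ℕ) : Prop :=
  ∀ (ι : Type), Cardinal.mk ι ≤ Cardinal.continuum →
    ∀ rel : ι → RC → (PT → ℕ → ℕ) → Prop,
    (∀ i r r' f, r' ≤ r → rel i r f → rel i r' f) →
    ∀ e : RC, (∀ i, ∀ r ≤ e, ∃ r' ≤ r, ∃ f, Measurable f ∧ rel i r' f) →
    ∃ γ : Ix, ∀ i, ∀ r ≤ e, ∀ m : ℕ, ∃ r' ≤ r, ∃ f, Measurable f ∧ rel i r' f ∧
      ∃ n ≥ m, ∀ z ∈ rb r', f z n < tr γ z n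

/-- A dominating family of size `Ix`. -/
def DomG (rb : RC → Set PT) (dm : Ix → PT → ℕ → ℕ) : Prop :=
  ∀ h : PT → ℕ → ℕ, Measurable h → ∀ r : RC, ∃ r' ≤ r, ∃ b : Ix, ∀ z ∈ rb r', ∀ n,
    h z n ≤ dm b z n

/-- The condition `d` forces that the set described by `rel` is covered by the intervals number
`c (n, k)`, for every `n`. -/
def Cov (rb : RC → Set PT) (rel : RC → (PT → ℝ) → Prop) (d : RC) (c : PT → ℕ → ℕ) : Prop :=
  ∀ d' ≤ d, ∀ f : PT → ℝ, Measurable f → rel d' f → ∀ n,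
    ¬ ∀ z ∈ rb d', ∀ k, f z ∉ iv (c z (Nat.pair n k))

/-- The condition `d` forces that the set described by `rel` is covered by the intervals number
`c (n, k)` with `k ≤ h n`. -/
def CovH (rb : RC → Set PT) (rel : RC → (PT → ℝ) → Prop) (d : RC) (c h : PT → ℕ → ℕ) : Prop :=
  ∀ d' ≤ d, ∀ f : PT → ℝ, Measurable f → rel d' f →
    ¬ ∀ z ∈ rb d', ∀ n, ∀ k ≤ h z n, f z ∉ iv (c z (Nat.pair n k))

/-- The condition `e` forces that the set described by `rel` is Menger. -/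
def MenRel (rb : RC → Set PT) (rel : RC → (PT → ℝ) → Prop) (e : RC) : Prop :=
  ∀ d ≤ e, ∀ c : PT → ℕ → ℕ, Measurable c → Cov rb rel d c →
    ∃ d' ≤ d, ∃ h : PT → ℕ → ℕ, Measurable h ∧ CovH rb rel d' c h

/-- The union of at most continuum many names of Menger sets is Menger. -/
def AddG (rb : RC → Set PT) : Prop :=
  ∀ (ι : Type), Cardinal.mk ι ≤ Cardinal.continuum →
    ∀ rel : ι → RC → (PT → ℝ) → Prop,
    (∀ i r r' f, r' ≤ r → rel i r f → rel i r' f) →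
    ∀ e : RC, (∀ i, MenRel rb (rel i) e) →
    ∀ c : PT → ℕ → ℕ, Measurable c → (∀ i, Cov rb (rel i) e c) →
    ∃ h : PT → ℕ → ℕ, Measurable h ∧ ∀ i, CovH rb (rel i) e c h

/-- The family of names `fr` is Menger. -/
def MenFamG {κ : Type} (rb : RC → Set PT) (fr : κ → PT → ℝ) : Prop :=
  (∀ i, Measurable (fr i)) ∧
  ∀ (e : RC) (c : PT → ℕ → ℕ), Measurable c →
    (∀ i, ∀ d ≤ e, ∀ n, ¬ ∀ z ∈ rb d, ∀ k, fr i z ∉ iv (c z (Nat.pair n k))) →
    ∃ h : PT → ℕ → ℕ, Measurable h ∧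
      ∀ i, ∀ d ≤ e, ¬ ∀ z ∈ rb d, ∀ n, ∀ k ≤ h z n, fr i z ∉ iv (c z (Nat.pair n k))

/-- The product of the two families is not Menger. -/
def NProdG {XI YI : Type} (rb : RC → Set PT) (xr : XI → PT → ℝ) (yr : YI → PT → ℝ) : Prop :=
  ∃ cc : ℕ → ℕ,
    (∀ (i : XI) (j : YI) (r : RC) (n : ℕ), ∃ r' ≤ r, ∃ k, ∀ z ∈ rb r',
      (xr i z, yr j z) ∈ iv2 (cc (Nat.pair n k))) ∧
    ∀ h : PT → ℕ → ℕ, Measurable h → ∀ r : RC, ∃ r' ≤ r, ∃ (i : XI) (j : YI), ∀ z ∈ rb r', ∀ n,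
      ∀ k ≤ h z n, (xr i z, yr j z) ∉ iv2 (cc (Nat.pair n k))

end

/-! ## Objects, closed hulls -/

/-- Objects entering the countable hull. -/
inductive Ob (B PT RC : Type) : Type 1
  | nm (a : BSet B) : Ob B PT RC
  | cd (p : RC) : Ob B PT RC
  | sf (S : PT → Set ℕ) : Ob B PT RC
  | rf (f : PT → ℝ) : Ob B PT RC
  | ff (f : PT → ℕ → ℕ) : Ob B PT RC
  | ms (A : Set PT) : Ob B PT RC
  | fm (φ : Fml) : Ob B PT RC
  | nt (n : ℕ) : Ob B PT RC
  | fam (f : Ix → BSet B) : Ob B PT RC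
  | ob (α : Type) (x : α) : Ob B PT RC

section
variable {B PT RC : Type} [Preorder RC]

/-- The set `H` of objects and the point `g` are closed for the operations `ops` and the dense
sets `D`. -/
structure Closed (rb : RC → Set PT) (ops : ℕ → List (Ob B PT RC) → Ob B PT RC)
    (D : ℕ → List (Ob B PT RC) → Set RC) (H : Set (Ob B PT RC)) (g : PT) : Prop where
  cnt : H.Countable
  cl : ∀ i l, (∀ x ∈ l, x ∈ H) → ops i l ∈ H
  meet : ∀ i l, (∀ x ∈ l, x ∈ H) → ∃ d, Ob.cd d ∈ H ∧ d ∈ D i l ∧ g ∈ rb d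

/-- The property `Q` holds for all hulls and points which are closed enough. -/
def Att (rb : RC → Set PT) (Q : Set (Ob B PT RC) → PT → Prop) : Prop :=
  ∃ (ops : ℕ → List (Ob B PT RC) → Ob B PT RC) (D : ℕ → List (Ob B PT RC) → Set RC),
    (∀ i l, ∀ d ∈ D i l, ∀ e ≤ d, e ∈ D i l) ∧ (∀ i l, ∀ q, ∃ d ∈ D i l, d ≤ q) ∧
    ∀ H g, Closed rb ops D H g → Q H g

theorem Att.mono {rb : RC → Set PT} {Q Q' : Set (Ob B PT RC) → PT → Prop} (h : Att rb Q)
    (hQ : ∀ H g, Q H g → Q' H g) : Att rb Q' := by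
  obtain ⟨ops, D, h1, h2, h3⟩ := h
  exact ⟨ops, D, h1, h2, fun H g hc => hQ H g (h3 H g hc)⟩

theorem Att.forall_nat {rb : RC → Set PT} {Q : ℕ → Set (Ob B PT RC) → PT → Prop}
    (h : ∀ n, Att rb (Q n)) : Att rb (fun H g => ∀ n, Q n H g) := by
  choose ops D h1 h2 h3 using h
  refine ⟨fun i => ops i.unpair.1 i.unpair.2, fun i => D i.unpair.1 i.unpair.2,
    fun i => h1 _ _, fun i => h2 _ _, fun H g hc n => h3 n H g ⟨hc.cnt, fun i l hl => ?_,
      fun i l hl => ?_⟩⟩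
  · simpa using hc.cl (Nat.pair n i) l hl
  · simpa using hc.meet (Nat.pair n i) l hl

theorem Att.and {rb : RC → Set PT} {Q Q' : Set (Ob B PT RC) → PT → Prop} (h : Att rb Q)
    (h' : Att rb Q') : Att rb (fun H g => Q H g ∧ Q' H g) := by
  have : Att rb (fun H g => ∀ n : ℕ, (fun n H g => if n = 0 then Q H g else Q' H g) n H g) := by
    apply Att.forall_nat
    intro n
    by_cases hn : n = 0
    · simpa [hn] using h
    · simpa [hn] using h'
  refine this.mono fun H g hq => ⟨?_, ?_⟩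
  · simpa using hq 0
  · simpa using hq 1

/-- Dense sets with witnesses. -/
theorem att_task {rb : RC → Set PT} {A : Type*} {X : Type*} (ca : A → List (Ob B PT RC))
    (hca : Function.Injective ca) (cx : X → Ob B PT RC) (P : A → RC → X → Prop)
    (hm : ∀ a d e x, e ≤ d → P a d x → P a e x) (hd : ∀ a q, ∃ d ≤ q, ∃ x, P a d x) :
    Att rb (fun H g => ∀ a, (∀ w ∈ ca a, w ∈ H) →
      ∃ d x, Ob.cd d ∈ H ∧ g ∈ rb d ∧ cx x ∈ H ∧ P a d x) := by
  classical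
  refine ⟨fun _ l => match l with
    | .cd d :: l' => if h : ∃ ax : A × X, ca ax.1 = l' ∧ P ax.1 d ax.2 then cx h.choose.2
        else .nt 0
    | _ => .nt 0, fun _ l => {d | ∀ a, ca a = l → ∃ x, P a d x}, ?_, ?_, ?_⟩
  · intro i l d h e he a ha
    obtain ⟨x, hx⟩ := h a ha
    exact ⟨x, hm a d e x he hx⟩
  · intro i l q
    by_cases h : ∃ a, ca a = l
    · obtain ⟨a, ha⟩ := h
      obtain ⟨d, hdq, x, hx⟩ := hd a q
      refine ⟨d, fun a' ha' => ?_, hdq⟩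
      have : a' = a := hca (ha'.trans ha.symm)
      rw [this]
      exact ⟨x, hx⟩
    · exact ⟨q, fun a ha => (h ⟨a, ha⟩).elim, le_rfl⟩
  · intro H g hc a ha
    obtain ⟨d, hd1, hd2, hd3⟩ := hc.meet 0 (ca a) ha
    obtain ⟨x, hx⟩ := hd2 a rfl
    have hex : ∃ ax : A × X, ca ax.1 = ca a ∧ P ax.1 d ax.2 := ⟨(a, x), rfl, hx⟩
    have h1 := hc.cl 0 (.cd d :: ca a) (by
      intro w hw
      rcases List.mem_cons.1 hw with rfl | hw
      · exact hd1
      · exact ha w hw)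
    simp only [dif_pos hex] at h1
    obtain ⟨h2, h3⟩ := hex.choose_spec
    have h4 : hex.choose.1 = a := hca h2
    rw [h4] at h3
    exact ⟨d, _, hd1, hd3, h1, h3⟩

/-- Closure under an operation. -/
theorem att_op {rb : RC → Set PT} {A : Type*} (ca : A → List (Ob B PT RC))
    (hca : Function.Injective ca) (F : A → Ob B PT RC) :
    Att rb (fun H _ => ∀ a, (∀ w ∈ ca a, w ∈ H) → F a ∈ H) := by
  classical
  refine ⟨fun _ l => if h : ∃ a, ca a = l then F h.choose else .nt 0, fun _ _ => Set.univ,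
    fun _ _ _ _ _ _ => trivial, fun _ _ q => ⟨q, trivial, le_rfl⟩, ?_⟩
  intro H g hc a ha
  have h1 := hc.cl 0 (ca a) ha
  have hex : ∃ a', ca a' = ca a := ⟨a, rfl⟩
  simp only [dif_pos hex] at h1
  rwa [hca hex.choose_spec] at h1

/-- Choice of a witness. -/
theorem att_choice {rb : RC → Set PT} {A : Type*} {X : Type*} (ca : A → List (Ob B PT RC))
    (hca : Function.Injective ca) (cx : X → Ob B PT RC) (P : A → X → Prop) :
    Att rb (fun H _ => ∀ a, (∀ w ∈ ca a, w ∈ H) → (∃ x, P a x) → ∃ x, cx x ∈ H ∧ P a x) := by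
  classical
  refine (att_op ca hca (fun a => if h : ∃ x, P a x then cx h.choose else .nt 0)).mono ?_
  intro H g h a ha hx
  have h1 := h a ha
  rw [dif_pos hx] at h1
  exact ⟨_, h1, hx.choose_spec⟩

/-- A fixed object. -/
theorem att_const {rb : RC → Set PT} (w : Ob B PT RC) : Att rb (fun H _ => w ∈ H) :=
  (att_op (fun _ : Unit => []) (fun _ _ _ => rfl) (fun _ => w)).mono
    fun _ _ h => h () (by simp)

theorem Att.exists {rb : RC → Set PT} [MeasurableSpace PT] (hG : GplG rb) (p : RC)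
    {Q : Set (Ob B PT RC) → PT → Prop} (h : Att rb Q) : ∃ H g, H.Countable ∧ g ∈ rb p ∧ Q H g := by
  obtain ⟨ops, D, h1, h2, h3⟩ := h
  obtain ⟨H, _, h5, _, h7, g, hg, h8⟩ := hG (Ob B PT RC) Ob.cd (fun _ _ h => by cases h; rfl)
    ops D h1 h2 p ∅ Set.countable_empty
  exact ⟨H, g, h5, hg, h3 H g ⟨h5, h7, h8⟩⟩

end

/-! ## Names -/

section
variable {B PT RC : Type} [CompleteBooleanAlgebra B] [Preorder RC]

/-- Boolean value of the statement that the generic point belongs to `A`. -/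
noncomputable def hh (rb : RC → Set PT) (io : RC → B) (A : Set PT) : B :=
  ⨆ p : {p : RC // rb p ⊆ A}, io p.1

/-- The name of the set of natural numbers `S (generic point)`. -/
noncomputable def codeN (rb : RC → Set PT) (io : RC → B) (S : PT → Set ℕ) : BSet B :=
  sb (fun n => hh rb io {y | n ∈ S y})

/-- The name of a real number. -/
noncomputable def codeR (rb : RC → Set PT) (io : RC → B) (f : PT → ℝ) : BSet B :=
  codeN rb io (fun y => cutS (f y))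

/-- The name of a sequence of natural numbers. -/
noncomputable def codeF (rb : RC → Set PT) (io : RC → B) (h : PT → ℕ → ℕ) : BSet B :=
  codeN rb io (fun y => gr (h y))

/-- Unordered and ordered pairs of names. -/
def upair (a b : BSet B) : BSet B := .mk Bool (fun t => if t then a else b) (fun _ => ⊤)

def opair (a b : BSet B) : BSet B := upair (upair a a) (upair a b)

/-- The name of the set of the infinite sets of natural numbers of the ground model. -/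
noncomputable def Rn (rb : RC → Set PT) (io : RC → B) : BSet B :=
  .mk {S : Set ℕ // S.Infinite} (fun S => codeN rb io (fun _ => S.1)) (fun _ => ⊤)

/-- The name of the set of the reals `fr i`. -/
noncomputable def Fn {κ : Type} (rb : RC → Set PT) (io : RC → B) (fr : κ → PT → ℝ) : BSet B :=
  .mk κ (fun i => codeR rb io (fr i)) (fun _ => ⊤)

/-- Conditions of the hull containing the generic point. -/
def CC (rb : RC → Set PT) (H : Set (Ob B PT RC)) (g : PT) : Set RC := {d | Ob.cd d ∈ H ∧ g ∈ rb d}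

/-- True Boolean values. -/
def GG (rb : RC → Set PT) (io : RC → B) (H : Set (Ob B PT RC)) (g : PT) : Set B :=
  {b | ∃ d ∈ CC rb H g, io d ≤ b}

variable [MeasurableSpace PT]

/-- The model obtained from the hull. -/
structure Mdl (rb : RC → Set PT) (io : RC → B) (H : Set (Ob B PT RC)) (g : PT) {M : Type}
    (E : M → M → Prop) (π : BSet B → M) : Prop where
  cpt : ∀ d1 ∈ CC rb H g, ∀ d2 ∈ CC rb H g, ∃ e ∈ CC rb H g, e ≤ d1 ∧ e ≤ d2
  zfc : IsZFC E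
  std : OmegaStd E
  surj : ∀ m : M, ∃ a, Ob.nm a ∈ H ∧ π a = m
  eqi : ∀ a b, Ob.nm a ∈ H → Ob.nm b ∈ H → (π a = π b ↔ beq a b ∈ GG rb io H g)
  memi : ∀ a b, Ob.nm a ∈ H → Ob.nm b ∈ H → (E (π a) (π b) ↔ bmem a b ∈ GG rb io H g)
  num : ∀ n, IsNum E n (π (nn B n))
  nt : ∀ n, Ob.nt n ∈ H
  /-- evaluation of measurable sets -/
  ev : ∀ A, Ob.ms A ∈ H → MeasurableSet A → g ∈ A → ∃ d ∈ CC rb H g, rb d ⊆ A
  /-- names of sets of natural numbers -/
  outN : ∀ S, Ob.sf S ∈ H → Measurable S → Ob.nm (codeN rb io S) ∈ H ∧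
    Codes E (π (codeN rb io S)) (S g)
  readN : ∀ a, Ob.nm a ∈ H → ∀ S0, Codes E (π a) S0 → ∃ S, Ob.sf S ∈ H ∧ Measurable S ∧
    S g = S0 ∧ ∃ e ∈ CC rb H g, io e ≤ beq a (codeN rb io S)
  /-- names of reals -/
  outR : ∀ f, Ob.rf f ∈ H → Measurable f → Ob.nm (codeR rb io f) ∈ H ∧
    Codes E (π (codeR rb io f)) (cutS (f g))
  readR : ∀ a, Ob.nm a ∈ H → ∀ r, Codes E (π a) (cutS r) → ∃ f, Ob.rf f ∈ H ∧ Measurable f ∧
    f g = r ∧ ∃ e ∈ CC rb H g, io e ≤ beq a (codeR rb io f)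
  /-- names of sequences -/
  outF : ∀ f, Ob.ff f ∈ H → Measurable f → Ob.nm (codeF rb io f) ∈ H ∧
    Codes E (π (codeF rb io f)) (gr (f g))
  readF : ∀ a, Ob.nm a ∈ H → ∀ f0, Codes E (π a) (gr f0) → ∃ f, Ob.ff f ∈ H ∧ Measurable f ∧
    f g = f0 ∧ ∃ e ∈ CC rb H g, io e ≤ beq a (codeF rb io f)
  /-- ordered pairs -/
  pr : ∀ a b, Ob.nm a ∈ H → Ob.nm b ∈ H → Ob.nm (opair a b) ∈ H ∧
    IsOPair E (π (opair a b)) (π a) (π b)

/-! ## Statements of the modules; the hypotheses are `Bas rb` and `IsDenseEmb io` -/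

/-- NHH: forcing and Boolean values. -/
def NHhStmt (rb : RC → Set PT) (io : RC → B) : Prop :=
  (∀ (p : RC) A, rb p ⊆ A → io p ≤ hh rb io A) ∧
  (∀ (p : RC) A, MeasurableSet A → (io p ≤ hh rb io A ↔ ∀ q ≤ p, ¬ rb q ⊆ Aᶜ)) ∧
  (∀ A, MeasurableSet A → hh rb io Aᶜ = (hh rb io A)ᶜ) ∧
  (∀ p b, (io p ≤ b ↔ ∀ q ≤ p, ∃ r ≤ q, io r ≤ b)) ∧
  (∀ p b, (io p ≤ bᶜ ↔ ∀ q ≤ p, ¬ io q ≤ b)) ∧
  (∀ p b, ∃ q ≤ p, io q ≤ b ∨ io q ≤ bᶜ) ∧
  (∀ (p : RC) A, MeasurableSet A → io p ≤ hh rb io A → ∃ q ≤ p, rb q ⊆ A) ∧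
  hh rb io ∅ = ⊥ ∧ hh rb io Set.univ = ⊤ ∧
  -- suprema
  (∀ (ι : Type 1) (f : ι → B) (d : RC), io d ≤ ⨆ j, f j → ∃ e ≤ d, ∃ j, io e ≤ f j) ∧
  (∀ (ι : Type) (f : ι → B) (d : RC), io d ≤ ⨆ j, f j → ∃ e ≤ d, ∃ j, io e ≤ f j) ∧
  -- countable unions
  (∀ (p : RC) (E : Set RC), E.Countable → rb p ⊆ ⋃ d ∈ E, rb d → ∃ q ≤ p, ∃ d ∈ E, q ≤ d) ∧
  -- equal readings
  (∀ (p : RC) (S S' : PT → Set ℕ), (∀ y ∈ rb p, S y = S' y) →
    io p ≤ beq (codeN rb io S) (codeN rb io S'))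

/-- NREAD: reading of names of sets of natural numbers. -/
def NReadStmt (rb : RC → Set PT) (io : RC → B) : Prop :=
  ∀ (a : BSet B) (p : RC), ∃ e ≤ p,
    (∃ S : PT → Set ℕ, Measurable S ∧ io e ≤ beq a (codeN rb io S)) ∨
    io e ≤ (⨅ x : BSet B, (bmem x a ⇨ bmem x (om B)))ᶜ

/-- NMDL: the model. -/
def NMdlStmt (rb : RC → Set PT) (io : RC → B) : Prop :=
  Att rb (fun H g => H.Countable → ∃ (M : Type) (E : M → M → Prop) (π : BSet B → M),
    Mdl rb io H g E π)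

/-- The property `Q` of the model holds for all hulls which are closed enough. -/
def MAtt (rb : RC → Set PT) (io : RC → B)
    (Q : Set (Ob B PT RC) → PT → (M : Type) → (M → M → Prop) → (BSet B → M) → Prop) : Prop :=
  Att rb (fun H g => ∀ (M : Type) (E : M → M → Prop) (π : BSet B → M), Mdl rb io H g E π →
    Q H g M E π)

/-- NREAP: the reaping family (uses `ReapG rb`). -/
def NReapStmt (rb : RC → Set PT) (io : RC → B) : Prop :=
  ReapG rb → MAtt rb io (fun H _ _ E π => Ob.nm (Rn rb io) ∈ H ∧ ReapIn E (π (Rn rb io)))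

/-- NNDOM: the reaping family is small. -/
def NNDomStmt (rb : RC → Set PT) (io : RC → B) : Prop :=
  ∀ tr : Ix → PT → ℕ → ℕ, (∀ γ, Measurable (tr γ)) → NDomG rb tr →
    MAtt rb io (fun H _ _ E π => Ob.nm (Rn rb io) ∈ H → ¬ DomLe E (π (Rn rb io)))

/-- Many different elements of `a`. -/
def Big (io : RC → B) (a : BSet B) (f : Ix → BSet B) (d : RC) : Prop :=
  (∀ ξ, io d ≤ bmem (f ξ) a) ∧ ∀ ξ η, ξ ≠ η → io d ≤ (beq (f ξ) (f η))ᶜ

/-- All the elements of `a` are among `f η`, `η < ξ0`. -/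
def Sml (io : RC → B) (a : BSet B) (f : Ix → BSet B) (ξ0 : Ix) (d : RC) : Prop :=
  (∀ η, η < ξ0 → io d ≤ bmem (f η) a) ∧
  ∀ b : BSet B, io d ⊓ bmem b a ≤ ⨆ η : {η // η < ξ0}, beq b (f η.1)

/-- NDICH: every set has many elements or is small (pure: hypothesis `IsDenseEmb io` only). -/
def NDichStmt (io : RC → B) : Prop :=
  ∀ (a : BSet B) (p : RC), ∃ q ≤ p, (∃ f, Big io a f q) ∨ ∃ f ξ0, Sml io a f ξ0 q

/-- NLARGE: sets with many elements. -/
def NLargeStmt (rb : RC → Set PT) (io : RC → B) : Prop :=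
  ∀ dm : Ix → PT → ℕ → ℕ, (∀ γ, Measurable (dm γ)) → DomG rb dm →
    MAtt rb io (fun H g _ E π => ∀ a f, Ob.nm a ∈ H → Ob.fam f ∈ H →
      (∃ d ∈ CC rb H g, Big io a f d) → DomLe E (π a))

/-- NSMALL: small families of Menger sets. -/
def NSmallStmt (rb : RC → Set PT) (io : RC → B) : Prop :=
  AddG rb →
    MAtt rb io (fun H g _ E π => ∀ a f ξ0, Ob.nm a ∈ H → Ob.fam f ∈ H → Ob.ob Ix ξ0 ∈ H →
      (∃ d ∈ CC rb H g, Sml io a f ξ0 d) →
      (∀ A, E A (π a) → IsRealSet E A ∧ MengerIn E (realsOf E A)) →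
      ∀ U, (∀ x, E x U ↔ ∃ A, E A (π a) ∧ E x A) → MengerIn E (realsOf E U))

/-- NADD: additivity (from NDICH, NLARGE, NSMALL). -/
def NAddStmt (rb : RC → Set PT) (io : RC → B) : Prop :=
  ∀ dm : Ix → PT → ℕ → ℕ, (∀ γ, Measurable (dm γ)) → DomG rb dm → AddG rb →
    MAtt rb io (fun _ _ M E _ => ∀ F : M,
      (∀ A, E A F → IsRealSet E A ∧ MengerIn E (realsOf E A)) →
      (∀ U, (∀ x, E x U ↔ ∃ A, E A F ∧ E x A) → MengerIn E (realsOf E U)) ∨ DomLe E F)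

/-- NFAM: Menger families. -/
def NFamStmt (rb : RC → Set PT) (io : RC → B) : Prop :=
  ∀ (κ : Type) (fr : κ → PT → ℝ), MenFamG rb fr →
    MAtt rb io (fun H g _ E π => Ob.nm (Fn rb io fr) ∈ H ∧ IsRealSet E (π (Fn rb io fr)) ∧
      MengerIn E (realsOf E (π (Fn rb io fr))) ∧
      ∀ r, r ∈ realsOf E (π (Fn rb io fr)) ↔ ∃ i, Ob.ob κ i ∈ H ∧ r = fr i g)

/-- NNPROD: the product is not Menger. -/
def NNProdStmt (rb : RC → Set PT) (io : RC → B) : Prop :=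
  ∀ (XI YI : Type) (xr : XI → PT → ℝ) (yr : YI → PT → ℝ), (∀ i, Measurable (xr i)) →
    (∀ j, Measurable (yr j)) → NProdG rb xr yr →
    MAtt rb io (fun H g _ E _ => ∀ X Y : Set ℝ, (∀ r, r ∈ X ↔ ∃ i, Ob.ob XI i ∈ H ∧ r = xr i g) →
      (∀ r, r ∈ Y ↔ ∃ j, Ob.ob YI j ∈ H ∧ r = yr j g) → ¬ MengerIn2 E (X ×ˢ Y))

end

end Pool.Agent.MGN
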